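import Pool.Agent.H1.KK.CoreK
import Pool.Agent.H1.MV.Line

set_option autoImplicit false
set_option linter.unusedSectionVars false
set_option linter.unusedSimpArgs false

/-!
# Matrices with controlled inverses over a tree
-/

namespace Pool.Agent.H1.FH

open Matrix TH57.Thr Pool.Agent.K4H37.MT Pool.Agent.H1.MV Pool.Agent.H1.KK

section core

variable {k : Type} [Ring k] {G V : Type} [Group G] [MulAction G V]
  [DecidableEq V] {T : SimpleGraph V} {ι : Type} [Fintype ι] [DecidableEq ι]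
  {N : KI (MonoidAlgebra k G)}

/-- two edges share an end point -/
def SE (q p : V × V) : Prop := q.1 = p.1 ∨ q.1 = p.2 ∨ q.2 = p.1 ∨ q.2 = p.2

theorem SE.inv : GInv G (SE : V × V → V × V → Prop) := by
  rintro g x y (h | h | h | h)
  · exact Or.inl (congrArg (g • ·) h)
  · exact Or.inr (Or.inl (congrArg (g • ·) h))
  · exact Or.inr (Or.inr (Or.inl (congrArg (g • ·) h)))
  · exact Or.inr (Or.inr (Or.inr (congrArg (g • ·) h)))

theorem nil_of_split'
    (hact : ∀ (g : G) (v w : V), T.Adj v w → T.Adj (g • v) (g • w)) 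
    (hNil : ∀ (J : Type) [Fintype J] [DecidableEq J] (σ : J → V × V)
      (x y : Matrix J J (MonoidAlgebra k G)), Ty σ σ (fun q p => nb T p q) x →
      Ty σ σ SE y → y * (1 + x) = 1 → N.Tr (1 + x))
    (ε : ι → V × V) (hadj : ∀ j, T.Adj (ε j).1 (ε j).2)
    (F1 F2 e H1 H2 x z : Matrix ι ι (MonoidAlgebra k G))
    (he : e * e = e) (te : Ty ε ε Eq e) (eH1 : e * H1 = H1) (eH2 : e * H2 = 0)
    (hx : x = H1 * F1 * (1 - e) + H2 * F1 * (1 - e) + (H1 * F2 * e + H2 * F2 * e))
    (hzx : (1 + z) * (1 + x) = 1) (tz : Ty ε ε SE z)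
    (t11 : Ty ε ε (fun f' f => f'.1 = f.1 ∧ f'.2 ≠ f.2) (H1 * F1 * (1 - e)))
    (t21 : Ty ε ε (fun f' f => f'.2 = f.1 ∧ f'.1 ≠ f.2) (H2 * F1 * (1 - e)))
    (t12 : Ty ε ε (fun f' f => f'.1 = f.2 ∧ f'.2 ≠ f.1) (H1 * F2 * e))
    (t22 : Ty ε ε (fun f' f => f'.2 = f.2 ∧ f'.1 ≠ f.1) (H2 * F2 * e)) : N.Tr (1 + x) := by
  classical
  let L : Matrix ι (ι ⊕ ι) (MonoidAlgebra k G) := fromCols e (1 - e)
  let R : Matrix (ι ⊕ ι) ι (MonoidAlgebra k G) := fromRows e (1 - e)
  have hLR : L * R = 1 := by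
    change fromCols e (1 - e) * fromRows e (1 - e) = 1
    rw [fromCols_mul_fromRows, he, one_sub_idem he]
    abel
  have ee : e * (1 - e) = 0 := by rw [Matrix.mul_sub, Matrix.mul_one, he, sub_self]
  have ee' : (1 - e) * e = 0 := by rw [Matrix.sub_mul, Matrix.one_mul, he, sub_self]
  have eH1' : (1 - e) * H1 = 0 := by rw [Matrix.sub_mul, Matrix.one_mul, eH1, sub_self]
  have eH2' : (1 - e) * H2 = H2 := by rw [Matrix.sub_mul, Matrix.one_mul, eH2, sub_zero]
  have x1 : x * e = H1 * F2 * e + H2 * F2 * e := by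
    rw [hx, Matrix.add_mul, Matrix.add_mul, Matrix.mul_assoc _ (1 - e), Matrix.mul_assoc _ (1 - e),
      ee', Matrix.mul_zero, Matrix.mul_zero, Matrix.add_mul, Matrix.mul_assoc _ e e,
      Matrix.mul_assoc _ e e, he]
    simp
  have x2 : x * (1 - e) = H1 * F1 * (1 - e) + H2 * F1 * (1 - e) := by
    rw [hx, Matrix.add_mul, Matrix.add_mul, Matrix.mul_assoc _ (1 - e),
      Matrix.mul_assoc _ (1 - e) (1 - e),
      one_sub_idem he, Matrix.add_mul, Matrix.mul_assoc _ e (1 - e),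
      Matrix.mul_assoc _ e (1 - e), ee]
    simp
  have hRxL : R * (x * L) = fromBlocks (H1 * F2 * e) (H1 * F1 * (1 - e)) (H2 * F2 * e)
      (H2 * F1 * (1 - e)) := by
    change fromRows e (1 - e) * (x * fromCols e (1 - e)) = _
    rw [mul_fromCols, fromRows_mul_fromCols, x1, x2, Matrix.mul_add, Matrix.mul_add,
      Matrix.mul_add, Matrix.mul_add]
    simp only [← Matrix.mul_assoc]
    rw [eH1, eH2, eH1', eH2']
    simp
  let σ : ι ⊕ ι → V × V := Sum.elim ε (fun j => (ε j).swap)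
  have hty : Ty σ σ (fun q p => nb T p q) (R * (x * L)) := by
    rw [hRxL]
    rintro (j' | j') (j | j) g hg
    · obtain ⟨h1, h2⟩ := t12 j' j g hg
      exact ⟨hadj j, hact g⁻¹ _ _ (hadj j'), h1, h2⟩
    · obtain ⟨h1, h2⟩ := t11 j' j g hg
      exact ⟨(hadj j).symm, hact g⁻¹ _ _ (hadj j'), h1, h2⟩
    · obtain ⟨h1, h2⟩ := t22 j' j g hg
      exact ⟨hadj j, (hact g⁻¹ _ _ (hadj j')).symm, h1, h2⟩
    · obtain ⟨h1, h2⟩ := t21 j' j g hg
      exact ⟨(hadj j).symm, (hact g⁻¹ _ _ (hadj j')).symm, h1, h2⟩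
  have te' : Ty ε ε Eq (1 - e) := Ty.one.sub te
  have hRzL : R * (z * L) = fromBlocks (e * (z * e)) (e * (z * (1 - e))) ((1 - e) * (z * e))
      ((1 - e) * (z * (1 - e))) := by
    change fromRows e (1 - e) * (z * fromCols e (1 - e)) = _
    rw [mul_fromCols, fromRows_mul_fromCols]
  have hz1 : ∀ a b : Matrix ι ι (MonoidAlgebra k G), Ty ε ε Eq a → Ty ε ε Eq b →
      Ty ε ε SE (a * (z * b)) := by
    intro a b ha hb
    have h1 : Ty ε ε SE (z * b) := tz.mul hb SE.inv (fun x y z h h' => by rw [← h']; exact h)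
    exact ha.mul h1 GInv.eq (fun x y z h h' => by rw [h]; exact h')
  have htz : Ty σ σ SE (R * (z * L)) := by
    rw [hRzL]
    have sw1 : ∀ q p : V × V, SE q p → SE q p.swap := by
      rintro q p (h | h | h | h)
      · exact Or.inr (Or.inl h)
      · exact Or.inl h
      · exact Or.inr (Or.inr (Or.inr h))
      · exact Or.inr (Or.inr (Or.inl h))
    have sw2 : ∀ q p : V × V, SE q p → SE q.swap p := by
      rintro q p (h | h | h | h)
      · exact Or.inr (Or.inr (Or.inl h))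
      · exact Or.inr (Or.inr (Or.inr h))
      · exact Or.inl h
      · exact Or.inr (Or.inl h)
    rintro (j' | j') (j | j) g hg
    · exact hz1 e e te te j' j g hg
    · exact sw1 _ _ (hz1 e (1 - e) te te' j' j g hg)
    · exact sw2 _ _ (hz1 (1 - e) e te' te j' j g hg)
    · exact sw2 _ _ (sw1 _ _ (hz1 (1 - e) (1 - e) te' te' j' j g hg))
  have hzx' : z + x + z * x = 0 := by
    have : (1 + z) * (1 + x) = 1 + (z + x + z * x) := by
      simp only [Matrix.mul_add, Matrix.add_mul, Matrix.mul_one, Matrix.one_mul]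
      abel
    rw [this] at hzx
    exact add_eq_left.1 hzx
  have hinv : (1 + R * (z * L)) * (1 + R * (x * L)) = 1 := by
    have h1 : (R * (z * L)) * (R * (x * L)) = R * ((z * x) * L) := by
      calc _ = R * z * (L * R) * x * L := by simp only [Matrix.mul_assoc]
        _ = _ := by rw [hLR, Matrix.mul_one]; simp only [Matrix.mul_assoc]
    calc _ = 1 + (R * (z * L) + R * (x * L) + (R * (z * L)) * (R * (x * L))) := by
          simp only [Matrix.mul_add, Matrix.add_mul, Matrix.mul_one, Matrix.one_mul]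
          abel
      _ = 1 + R * ((z + x + z * x) * L) := by
          rw [h1]
          simp only [Matrix.mul_add, Matrix.add_mul, Matrix.mul_assoc]
      _ = 1 := by rw [hzx', Matrix.zero_mul, Matrix.mul_zero, add_zero]
  have h1 := hNil _ σ _ _ hty ((Ty.one.mono (fun x y h => by rw [h]; exact Or.inl rfl)).add htz)
    hinv
  have h2 := KI.Tr.uv (x * L) R h1
  rwa [Matrix.mul_assoc, hLR, Matrix.mul_one] at h2

/-- A linear matrix over a tree, whose inverse is also linear. -/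
theorem coreK' (hg : Good V N) (hT : T.IsTree)
    (hact : ∀ (g : G) (v w : V), T.Adj v w → T.Adj (g • v) (g • w))
    (hNil : ∀ (J : Type) [Fintype J] [DecidableEq J] (σ : J → V × V)
      (x y : Matrix J J (MonoidAlgebra k G)), Ty σ σ (fun q p => nb T p q) x →
      Ty σ σ SE y → y * (1 + x) = 1 → N.Tr (1 + x))
    (ν : ι → V) (ε : ι → V × V) (hadj : ∀ j, T.Adj (ε j).1 (ε j).2)
    (hgood : ∀ (g : G) j j', g • ε j = ε j' → ε j = ε j')
    (hno : ∀ (g : G) j j', g • ε j ≠ (ε j').swap)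
    (F : (Matrix ι ι (MonoidAlgebra k G))ˣ) (F1 F2 : Matrix ι ι (MonoidAlgebra k G))
    (hF : F.val = F1 + F2)
    (tF1 : Ty ν ε (fun x f => x = f.1) F1) (tF2 : Ty ν ε (fun x f => x = f.2) F2)
    (tF' : Ty ε ν (fun (f : V × V) (x : V) => f.1 = x ∨ f.2 = x) (F⁻¹).val)
    (hS : ∀ j, AllSI (io k (MulAction.stabilizer G (ε j)))) : N.car ι F := by
  classical
  have D : Dat T ν ε F1 F2 (F⁻¹).val :=
    { tree := hT
      act := hact
      adj := hadj
      noinv := hno
      ty1 := tF1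
      ty2 := tF2
      left := by rw [← hF, Units.inv_mul]
      right := by rw [← hF, Units.mul_inv] }
  obtain ⟨e, H1, H2, he, te, tH1, tH2, eH1, eH2, hFH, hHF, hprod, t11, t21, t12, t22⟩ := D.split
  obtain ⟨x, hx⟩ : ∃ x, x = H1 * F1 * (1 - e) + H2 * F1 * (1 - e) +
    (H1 * F2 * e + H2 * F2 * e) := ⟨_, rfl⟩
  let F0u : (Matrix ι ι (MonoidAlgebra k G))ˣ := ⟨F1 * e + F2 * (1 - e), H1 + H2, hFH, hHF⟩
  have hzx : (1 + ((F⁻¹).val * (F1 * e + F2 * (1 - e)) - 1)) * (1 + x) = 1 := by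
    rw [add_sub_cancel, Matrix.mul_assoc, hx, ← hprod, ← hF, Units.inv_mul]
  have te' : Ty ε ε Eq (1 - e) := Ty.one.sub te
  have t0 : Ty ν ε (fun x f => x = f.1 ∨ x = f.2) (F1 * e + F2 * (1 - e)) := by
    refine Ty.add ?_ ?_
    · refine (tF1.mul te inv_fst' (ρ₃ := fun x f => x = f.1 ∨ x = f.2) fun x y z h h' => ?_)
      rw [← h']
      exact Or.inl h
    · refine (tF2.mul te' inv_snd' (ρ₃ := fun x f => x = f.1 ∨ x = f.2) fun x y z h h' => ?_)
      rw [← h']
      exact Or.inr h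
  have tz : Ty ε ε SE ((F⁻¹).val * (F1 * e + F2 * (1 - e)) - 1) := by
    refine Ty.sub ?_ (Ty.one.mono (fun x y h => by rw [h]; exact Or.inl rfl))
    refine tF'.mul t0 ?_ ?_
    · rintro g x y (h | h)
      · exact Or.inl (congrArg (g • ·) h)
      · exact Or.inr (congrArg (g • ·) h)
    · rintro x y z (h | h) (h' | h')
      · exact Or.inl (h.trans h')
      · exact Or.inr (Or.inl (h.trans h'))
      · exact Or.inr (Or.inr (Or.inl (h.trans h')))
      · exact Or.inr (Or.inr (Or.inr (h.trans h')))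
  obtain ⟨w, hw, hwT⟩ := nil_of_split' (N := N) hact hNil ε hadj F1 F2 e H1 H2 x _ he te eH1 eH2 hx
    hzx tz t11 t21 t12 t22
  have hV : Nonempty V := hT.connected.nonempty
  have hVert : N.car ι F0u := by
    refine vert_of_split hg ν ε hgood F0u F1 F2 e H1 H2 rfl rfl tF1 tF2 he te tH1 tH2 eH1 eH2 ?_
    intro j
    have hi := desc_idem te he hgood (ε j)
    have := mo_finite (desc ε e (ε j))
    have := mo_projective hi
    exact hS j _
  have hfin : F = F0u * w := by
    apply Units.ext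
    rw [Units.val_mul, hw, hF, hprod, hx]
  rw [hfin]
  exact N.mul _ _ hVert hwT

end core

end Pool.Agent.H1.FH
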