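import Pool.Agent.H1.FH.InstP

set_option autoImplicit false
set_option linter.unusedSectionVars false
set_option linter.unusedSimpArgs false
set_option linter.style.haveILetI false

/-!
# Fibered classes of groups, with respect to the cyclic subgroups
-/

namespace Pool.Agent.H1.FH

open Matrix Pool.Agent.H1.MV Pool.Agent.H1.MK Pool.Agent.H1.KK

/-- the fibered class -/
def Fy (W : ∀ (G : Type) [Group G], Prop) (B : Type) [Group B] : Prop :=
  ∀ (G : Type) [Group G] (f : G →* B), (∀ C : Subgroup B, IsCyclic C → W (C.comap f)) → W G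

/-- torsion-free groups -/
def TF (B : Type) [Group B] : Prop := ∀ (x : B) (n : ℕ), 0 < n → x ^ n = 1 → x = 1

theorem TF.inj {A B : Type} [Group A] [Group B] (f : A →* B) (hf : Function.Injective f)
    (h : TF B) : TF A := by
  intro x n hn hx
  apply hf
  rw [map_one]
  exact h (f x) n hn (by rw [← map_pow, hx, map_one])

/-- cyclic groups -/
theorem cyc_cases {A : Type} [Group A] (hA : IsCyclic A) :
    (∃ n : ℕ, 0 < n ∧ ∀ y : A, y ^ n = 1) ∨
      ∃ f : A →* Multiplicative ℤ, Function.Injective f := by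
  obtain ⟨g, hg⟩ := hA.exists_generator
  by_cases h : ∃ n : ℕ, 0 < n ∧ g ^ n = 1
  · left
    obtain ⟨n, hn, h1⟩ := h
    refine ⟨n, hn, ?_⟩
    intro y
    obtain ⟨m, hm⟩ := hg y
    have hm' : g ^ m = y := hm
    rw [← hm', ← zpow_natCast, ← _root_.zpow_mul, mul_comm, _root_.zpow_mul, zpow_natCast, h1,
      _root_.one_zpow]
  · right
    have hinj : Function.Injective (zpowersHom A g) := by
      rw [injective_iff_map_eq_one]
      intro n hn
      have hn' : g ^ (Multiplicative.toAdd n) = 1 := hn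
      by_contra hne
      have h3 : Multiplicative.toAdd n ≠ 0 := fun h4 => hne (Multiplicative.toAdd.injective h4)
      apply h
      refine ⟨(Multiplicative.toAdd n).natAbs, Int.natAbs_pos.2 h3, ?_⟩
      rcases Int.natAbs_eq (Multiplicative.toAdd n) with h5 | h5
      · rw [← zpow_natCast, ← h5]
        exact hn'
      · have h6 : (g ^ ((Multiplicative.toAdd n).natAbs : ℤ))⁻¹ = 1 := by
          rw [← _root_.zpow_neg, ← h5]
          exact hn'
        rw [inv_eq_one, zpow_natCast] at h6
        exact h6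
    have hsurj : Function.Surjective (zpowersHom A g) := by
      intro x
      obtain ⟨n, hn⟩ := hg x
      exact ⟨Multiplicative.ofAdd n, hn⟩
    exact ⟨(MulEquiv.ofBijective _ ⟨hinj, hsurj⟩).symm.toMonoidHom, MulEquiv.injective _⟩

/-- torsion-free cyclic groups -/
theorem tf_cyc {A : Type} [Group A] (h : TF A) (hA : IsCyclic A) :
    ∃ f : A →* Multiplicative ℤ, Function.Injective f := by
  rcases cyc_cases hA with ⟨n, hn, h1⟩ | h1
  · exact ⟨1, fun x y _ => by rw [h x n hn (h1 x), h y n hn (h1 y)]⟩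
  · exact h1

theorem cyc_inj {A B : Type} [Group A] [Group B] (f : A →* B) (hf : Function.Injective f)
    (h : IsCyclic B) : IsCyclic A := isCyclic_of_injective f hf

theorem cyc_surj {A B : Type} [Group A] [Group B] (f : A →* B) (hf : Function.Surjective f)
    (h : IsCyclic A) : IsCyclic B := isCyclic_of_surjective f hf

section fy

variable {W : ∀ (G : Type) [Group G], Prop} (hW : TClsP W) {B : Type} [Group B]

include hW

/-- preimages of subgroups from the class -/
theorem TClsP.pre (S : Subgroup B) (hS : Fy W S) {G : Type} [Group G] (f : G →* B)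
    (hf : ∀ A : Subgroup B, IsCyclic A → W (A.comap f)) : W (S.comap f) := by
  let F : S.comap f →* S :=
    { toFun := fun x => ⟨f x.1, x.2⟩
      map_one' := Subtype.ext (map_one f)
      map_mul' := fun x y => Subtype.ext (map_mul f _ _) }
  refine hS (S.comap f) F ?_
  intro A hA
  have e1 : A ≃* A.map S.subtype := A.equivMapOfInjective _ S.subtype_injective
  have h1 := hf (A.map S.subtype) (cyc_surj e1.toMonoidHom e1.surjective hA)
  let j : A.comap F →* (A.map S.subtype).comap f :=
    { toFun := fun x => ⟨x.1.1, ⟨F x.1, x.2, rfl⟩⟩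
      map_one' := rfl
      map_mul' := fun x y => rfl }
  refine hW.tcls.inj _ _ j ?_ h1
  intro x y hxy
  have h2 : (j x).1 = (j y).1 := congrArg Subtype.val hxy
  exact Subtype.ext (Subtype.ext h2)

theorem TClsP.fy_cyc (h : IsCyclic B) : Fy W B := by
  intro G _ f hf
  have h1 := hf ⊤ (cyc_inj (⊤ : Subgroup B).subtype (Subgroup.subtype_injective _) h)
  let j : G →* (⊤ : Subgroup B).comap f :=
    { toFun := fun x => ⟨x, trivial⟩
      map_one' := rfl
      map_mul' := fun _ _ => rfl }
  exact hW.tcls.inj _ _ j (fun x y hxy => congrArg Subtype.val hxy) h1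

theorem TClsP.fy_inj {B' : Type} [Group B'] (g : B' →* B) (hg : Function.Injective g)
    (h : Fy W B) : Fy W B' := by
  intro G _ f hf
  refine h G (g.comp f) ?_
  intro A hA
  have h1 : IsCyclic (A.comap g) := by
    let j : A.comap g →* A :=
      { toFun := fun x => ⟨g x.1, x.2⟩
        map_one' := Subtype.ext (map_one g)
        map_mul' := fun x y => Subtype.ext (map_mul g _ _) }
    refine cyc_inj j ?_ hA
    intro x y hxy
    have h2 : (j x).1 = (j y).1 := congrArg Subtype.val hxy
    exact Subtype.ext (hg h2)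
  exact hf _ h1

/-- **Extensions** -/
theorem TClsP.fy_ext {L : Type} [Group L] (π : B →* L) (hL : Fy W L)
    (h : ∀ A : Subgroup L, IsCyclic A → Fy W (A.comap π)) : Fy W B := by
  intro G _ f hf
  refine hL G (π.comp f) ?_
  intro A hA
  exact hW.pre _ (h A hA) f hf

/-- **The plane** -/
theorem TClsP.fy_plane (P1 P2 : B →* Multiplicative ℤ)
    (h : ∀ u1 u2 : ℤ, (u1 ≠ 0 ∨ u2 ≠ 0) → Fy W (ln P1 P2 u1 u2).ker) : Fy W B := by
  intro G _ f hf
  refine hW.plane G (P1.comp f) (P2.comp f) ?_
  intro u1 u2 hu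
  exact hW.pre _ (h u1 u2 hu) f hf

/-- subgroups of the plane -/
theorem TClsP.fy_two (P1 P2 : B →* Multiplicative ℤ)
    (hP : ∀ x, ev P1 x = 0 → ev P2 x = 0 → x = 1) : Fy W B := by
  refine hW.fy_plane P1 P2 ?_
  intro u1 u2 hu
  have key : ∀ P : (ln P1 P2 u1 u2).ker →* Multiplicative ℤ,
      (∀ x, ev P x = 0 → x = 1) → IsCyclic (ln P1 P2 u1 u2).ker := by
    intro P h1
    refine cyc_inj P ?_ inferInstance
    rw [injective_iff_map_eq_one]
    intro x hx
    exact h1 x (by unfold ev; rw [hx]; rfl)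
  apply hW.fy_cyc
  by_cases h0 : u1 = 0
  · have h1 : u2 ≠ 0 := by
      rcases hu with hu | hu
      · exact absurd h0 hu
      · exact hu
    refine key (P2.comp (ln P1 P2 u1 u2).ker.subtype) ?_
    intro x hx
    have h2 := (mem_kerv _ _).1 x.2
    rw [ev_ln] at h2
    have h3 : ev P1 x.1 = 0 := by
      have h5 : u1 * ev P2 x.1 = 0 := by
        have hx' : ev P2 x.1 = 0 := hx
        rw [hx', mul_zero]
      have h4 : u2 * ev P1 x.1 = 0 := by linarith
      exact (mul_eq_zero.1 h4).resolve_left h1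
    exact Subtype.ext (hP _ h3 hx)
  · refine key (P1.comp (ln P1 P2 u1 u2).ker.subtype) ?_
    intro x hx
    have h2 := (mem_kerv _ _).1 x.2
    have hx' : ev P1 x.1 = 0 := hx
    rw [ev_ln, hx'] at h2
    have h3 : ev P2 x.1 = 0 := by
      have h4 : u1 * ev P2 x.1 = 0 := by linarith
      exact (mul_eq_zero.1 h4).resolve_left h0
    exact Subtype.ext (hP _ hx' h3)

/-- products of torsion-free cyclic groups -/
theorem TClsP.fy_cc {A A' : Type} [Group A] [Group A'] (f : A →* Multiplicative ℤ)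
    (hf : Function.Injective f) (f' : A' →* Multiplicative ℤ) (hf' : Function.Injective f') :
    Fy W (A × A') := by
  refine hW.fy_two (f.comp (MonoidHom.fst A A')) (f'.comp (MonoidHom.snd A A')) ?_
  rintro ⟨x, y⟩ h1 h2
  have h3 : f x = 1 := Multiplicative.toAdd.injective h1
  have h4 : f' y = 1 := Multiplicative.toAdd.injective h2
  rw [← map_one f] at h3
  rw [← map_one f'] at h4
  exact Prod.ext (hf h3) (hf' h4)

theorem TClsP.fy_prod {B' : Type} [Group B'] (h : Fy W B) (hT : TF B) (h' : Fy W B')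
    (hT' : TF B') : Fy W (B × B') := by
  refine hW.fy_ext (MonoidHom.fst B B') h ?_
  intro A hA
  obtain ⟨e, he⟩ := tf_cyc (hT.inj A.subtype A.subtype_injective) hA
  have h1 : Fy W (A × B') := by
    refine hW.fy_ext (MonoidHom.snd A B') h' ?_
    intro A' hA'
    obtain ⟨e', he'⟩ := tf_cyc (hT'.inj A'.subtype A'.subtype_injective) hA'
    let j : A'.comap (MonoidHom.snd A B') →* A × A' :=
      { toFun := fun x => (x.1.1, ⟨x.1.2, x.2⟩)
        map_one' := rfl
        map_mul' := fun _ _ => rfl }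
    refine hW.fy_inj j ?_ (hW.fy_cc e he e' he')
    intro x y hxy
    have h1 : (j x).1 = (j y).1 := congrArg Prod.fst hxy
    have h2 : (j x).2 = (j y).2 := congrArg Prod.snd hxy
    have h3 : x.1.2 = y.1.2 := congrArg Subtype.val h2
    exact Subtype.ext (Prod.ext h1 h3)
  let j : A.comap (MonoidHom.fst B B') →* A × B' :=
    { toFun := fun x => (⟨x.1.1, x.2⟩, x.1.2)
      map_one' := rfl
      map_mul' := fun _ _ => rfl }
  refine hW.fy_inj j ?_ h1
  intro x y hxy
  have h1 : (j x).1 = (j y).1 := congrArg Prod.fst hxy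
  have h2 : (j x).2 = (j y).2 := congrArg Prod.snd hxy
  have h3 : x.1.1 = y.1.1 := congrArg Subtype.val h1
  exact Subtype.ext (Prod.ext h3 h2)

theorem tf_zp (n : ℕ) : TF (Zp n) := by
  intro x m hm hx
  apply Multiplicative.toAdd.injective
  funext i
  have h1 : (m • Multiplicative.toAdd x) i = 0 := by
    rw [← toAdd_pow, hx]
    rfl
  rw [Pi.smul_apply, nsmul_eq_mul, mul_eq_zero] at h1
  rcases h1 with h1 | h1
  · exact absurd (by exact_mod_cast h1) hm.ne'
  · exact h1

theorem tf_int : TF (Multiplicative ℤ) := by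
  intro x m hm hx
  apply Multiplicative.toAdd.injective
  have h1 : m • Multiplicative.toAdd x = 0 := by
    rw [← toAdd_pow, hx]
    rfl
  rw [nsmul_eq_mul, mul_eq_zero] at h1
  rcases h1 with h1 | h1
  · exact absurd (by exact_mod_cast h1) hm.ne'
  · exact h1

theorem TClsP.fy_zp (n : ℕ) : Fy W (Zp n) := by
  induction n with
  | zero =>
    apply hW.fy_cyc
    exact ⟨⟨1, fun x => ⟨0, Subsingleton.elim _ _⟩⟩⟩
  | succ n ih =>
    exact hW.fy_inj (zpSucc n).toMonoidHom (zpSucc n).injective
      (hW.fy_prod (hW.fy_cyc inferInstance) (tf_int hW) ih (tf_zp hW n))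

theorem TClsP.fy_fa (h : FA B) : Fy W B := by
  obtain ⟨n, ⟨e⟩⟩ := h
  exact hW.fy_inj e.toMonoidHom e.injective (hW.fy_zp n)

theorem TClsP.w_cyc {A : Type} [Group A] (f : A →* Multiplicative ℤ)
    (hf : Function.Injective f) : W A := by
  have h1 : W (Multiplicative ℤ) := by
    refine hW.tcls.inj _ _ ((zpSucc 0).symm.toMonoidHom.comp
      ((MonoidHom.id (Multiplicative ℤ)).prod 1)) ?_ (hW.tcls.zp 1)
    intro x y hxy
    have h2 := (zpSucc 0).symm.injective hxy
    exact congrArg Prod.fst h2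
  exact hW.tcls.inj _ _ f hf h1

/-- torsion-free members of the fibered class -/
theorem TClsP.fy_self (h : Fy W B) (hT : TF B) : W B := by
  refine h B (MonoidHom.id B) ?_
  intro A hA
  obtain ⟨e, he⟩ := tf_cyc (hT.inj A.subtype A.subtype_injective) hA
  exact hW.w_cyc e he

/-- products -/
theorem TClsP.fy_prodW {A : Type} [Group A] (hA : W A) (hB : Fy W B) (hT : TF B) :
    W (A × B) := by
  refine hB (A × B) (MonoidHom.snd A B) ?_
  intro D hD
  obtain ⟨e, he⟩ := tf_cyc (hT.inj D.subtype D.subtype_injective) hD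
  let j : D.comap (MonoidHom.snd A B) →* A × Zp 1 :=
    { toFun := fun x => (x.1.1, (zpSucc 0).symm (e ⟨x.1.2, x.2⟩, 1))
      map_one' := Prod.ext rfl (by
        change (zpSucc 0).symm (e 1, 1) = 1
        rw [map_one e]
        exact map_one (zpSucc 0).symm)
      map_mul' := fun x y => Prod.ext rfl (by
        change (zpSucc 0).symm (e (⟨x.1.2, x.2⟩ * ⟨y.1.2, y.2⟩), 1) =
          (zpSucc 0).symm (e ⟨x.1.2, x.2⟩, 1) * (zpSucc 0).symm (e ⟨y.1.2, y.2⟩, 1)
        rw [map_mul e, ← map_mul (zpSucc 0).symm]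
        congr 1) }
  refine hW.tcls.inj _ _ j ?_ (hW.tcls.zn A 1 hA)
  intro x y hxy
  have h0 : (x.1.1, (zpSucc 0).symm (e ⟨x.1.2, x.2⟩, 1)) =
    (y.1.1, (zpSucc 0).symm (e ⟨y.1.2, y.2⟩, 1)) := hxy
  have h1 := (Prod.mk.inj h0).1
  have h2 := (zpSucc 0).symm.injective (Prod.mk.inj h0).2
  have h3 := he (Prod.mk.inj h2).1
  exact Subtype.ext (Prod.ext h1 (congrArg Subtype.val h3))

/-- **Directed colimits** -/
theorem TClsP.fy_colim {I : Type} [Preorder I] {H : I → Type} [∀ i, Group (H i)]
    {f : ∀ i j, i ≤ j → H i →* H j} {φ : ∀ i, H i →* B} (h : DC H f φ)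
    (htf : ∀ (i : I) (x : H i) (n : ℕ), 0 < n → x ^ n = 1 → φ i x = 1 → x = 1)
    (hH : ∀ i, Fy W (H i)) : Fy W B := by
  intro K _ F hF
  -- the pullbacks
  let P : ∀ i, Subgroup (K × H i) := fun i =>
    { carrier := {q | F q.1 = φ i q.2}
      one_mem' := by
        change F 1 = φ i 1
        rw [map_one, map_one]
      mul_mem' := by
        intro a b ha hb
        change F (a.1 * b.1) = φ i (a.2 * b.2)
        rw [map_mul, map_mul, ha, hb]
      inv_mem' := by
        intro a ha
        change F (a.1)⁻¹ = φ i (a.2)⁻¹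
        rw [map_inv, map_inv, ha] }
  have hD : DC (I := I) (fun i => P i)
      (fun i j hij =>
        { toFun := fun x => ⟨(x.1.1, f i j hij x.1.2), by
            change F x.1.1 = φ j (f i j hij x.1.2)
            rw [h.comp i j hij]
            exact x.2⟩
          map_one' := Subtype.ext (Prod.ext rfl (map_one _))
          map_mul' := fun x y => Subtype.ext (Prod.ext rfl (map_mul _ _ _)) })
      (G := K)
      (fun i => (MonoidHom.fst K (H i)).comp (P i).subtype) :=
    { nonempty := h.nonempty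
      directed := h.directed
      trans := fun i j l hij hjl x => Subtype.ext (Prod.ext rfl (h.trans i j l hij hjl x.1.2))
      comp := fun i j hij x => rfl
      surj := fun g => by
        obtain ⟨i, x, hx⟩ := h.surj (F g)
        exact ⟨i, ⟨(g, x), hx.symm⟩, rfl⟩
      inj := fun i x hx => by
        have h1 : x.1.1 = 1 := hx
        have h2 : φ i x.1.2 = 1 := by
          have h3 : F x.1.1 = φ i x.1.2 := x.2
          rw [← h3, h1, map_one]
        obtain ⟨j, hj, h4⟩ := h.inj i x.1.2 h2
        exact ⟨j, hj, Subtype.ext (Prod.ext h1 h4)⟩ }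
  refine hW.tcls.colim _ _ _ _ _ hD ?_
  intro i
  refine hH i (P i) ((MonoidHom.snd K (H i)).comp (P i).subtype) ?_
  intro A hA
  have hcy : IsCyclic (A.map (φ i)) :=
    cyc_surj ((φ i).subgroupMap A) ((φ i).subgroupMap_surjective A) hA
  have h1 := hF _ hcy
  have hmem : ∀ x : A.comap ((MonoidHom.snd K (H i)).comp (P i).subtype),
      x.1.1.1 ∈ (A.map (φ i)).comap F := by
    intro x
    rw [Subgroup.mem_comap]
    have h3 : F x.1.1.1 = φ i x.1.1.2 := x.1.2
    rw [h3]
    exact ⟨x.1.1.2, x.2, rfl⟩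
  rcases cyc_cases hA with ⟨n, hn, hy⟩ | ⟨e, he⟩
  · -- a finite cyclic group
    let j : A.comap ((MonoidHom.snd K (H i)).comp (P i).subtype) →* (A.map (φ i)).comap F :=
      { toFun := fun x => ⟨x.1.1.1, hmem x⟩
        map_one' := rfl
        map_mul' := fun _ _ => rfl }
    refine hW.tcls.inj _ _ j ?_ h1
    rw [injective_iff_map_eq_one]
    intro x hx
    have h2 : x.1.1.1 = 1 := congrArg Subtype.val hx
    have h3 : F x.1.1.1 = φ i x.1.1.2 := x.1.2
    rw [h2, map_one] at h3
    have h4 : x.1.1.2 ^ n = 1 := congrArg Subtype.val (hy ⟨x.1.1.2, x.2⟩)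
    have h5 := htf i _ n hn h4 h3.symm
    exact Subtype.ext (Subtype.ext (Prod.ext h2 h5))
  · let j : A.comap ((MonoidHom.snd K (H i)).comp (P i).subtype) →*
        ((A.map (φ i)).comap F) × Zp 1 :=
      { toFun := fun x => (⟨x.1.1.1, hmem x⟩, (zpSucc 0).symm (e ⟨x.1.1.2, x.2⟩, 1))
        map_one' := Prod.ext rfl (by
          change (zpSucc 0).symm (e 1, 1) = 1
          rw [map_one e]
          exact map_one (zpSucc 0).symm)
        map_mul' := fun x y => Prod.ext rfl (by
          change (zpSucc 0).symm (e (⟨x.1.1.2, x.2⟩ * ⟨y.1.1.2, y.2⟩), 1) =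
            (zpSucc 0).symm (e ⟨x.1.1.2, x.2⟩, 1) * (zpSucc 0).symm (e ⟨y.1.1.2, y.2⟩, 1)
          rw [map_mul e, ← map_mul (zpSucc 0).symm]
          congr 1) }
    refine hW.tcls.inj _ _ j ?_ (hW.tcls.zn _ 1 h1)
    intro x y hxy
    have e1 : (j x).1 = (j y).1 := congrArg Prod.fst hxy
    have e2 : (j x).2 = (j y).2 := congrArg Prod.snd hxy
    have e3 : x.1.1.1 = y.1.1.1 := congrArg Subtype.val e1
    have e4 := (zpSucc 0).symm.injective e2
    have e5 := he (Prod.mk.inj e4).1
    have e6 : x.1.1.2 = y.1.1.2 := congrArg Subtype.val e5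
    exact Subtype.ext (Subtype.ext (Prod.ext e3 e6))

/-- **Tree actions** -/
theorem TClsP.fy_tree {V : Type} [MulAction B V] {T : SimpleGraph V} (hT : T.IsTree)
    (hact : ∀ (g : B) (v w : V), T.Adj v w → T.Adj (g • v) (g • w))
    (hinv : ∀ (g : B) (v w : V), T.Adj v w → ¬ (g • v = w ∧ g • w = v))
    (hV : ∀ v : V, Fy W (MulAction.stabilizer B v))
    (hm : ∀ p : ℕ → V, (∀ i, T.Adj (p i) (p (i + 1))) → (∀ i, p (i + 2) ≠ p i) →
      ∀ d : ℕ, 0 < d → ∃ m, ∀ h : B, (∀ i ≤ m, h • p (i + d) = p i) →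
        Fy W (Subgroup.closure ((Fx B m p : Set B) ∪ {h}))) : Fy W B := by
  intro G _ f hf
  letI : MulAction G V := MulAction.compHom V f
  have hsm : ∀ (g : G) (v : V), g • v = f g • v := fun _ _ => rfl
  refine hW.tcls.tree G V T hT (fun g v w h => hact (f g) v w h)
    (fun g v w h => hinv (f g) v w h) ?_ ?_
  · intro v
    have h1 : MulAction.stabilizer G v = (MulAction.stabilizer B v).comap f := by
      ext g
      rfl
    rw [h1]
    exact hW.pre _ (hV v) f hf
  · intro p h1 h2 d hd
    obtain ⟨m, hm⟩ := hm p h1 h2 d hd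
    refine ⟨m, ?_⟩
    intro h hper
    have h3 := hW.pre _ (hm (f h) (fun i hi => hper i hi)) f hf
    have hle : Subgroup.closure ((Fx G m p : Set G) ∪ {h}) ≤
        (Subgroup.closure ((Fx B m p : Set B) ∪ {f h})).comap f := by
      rw [Subgroup.closure_le]
      rintro g (hg | hg)
      · exact Subgroup.subset_closure (Or.inl hg)
      · have hg' : g = h := hg
        rw [hg']
        exact Subgroup.subset_closure (Or.inr rfl)
    exact hW.tcls.inj _ _ (Subgroup.inclusion hle) (Subgroup.inclusion_injective hle) h3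

end fy

end Pool.Agent.H1.FH
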