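import Pool.Agent.H1.FH.LineNil
import Pool.Agent.H1.MK.Lin

set_option autoImplicit false
set_option linter.unusedSectionVars false
set_option linter.unusedSimpArgs false
set_option linter.style.haveILetI false

/-!
# Matrices which are controlled over a long circle
-/

namespace Pool.Agent.H1.FH

open Matrix TH57.Thr Pool.Agent.K4H37.MT Pool.Agent.H1.MV Pool.Agent.H1.KK

section stepB

variable {k : Type} [Ring k] {G : Type} [Group G] {N : KI (MonoidAlgebra k G)}

theorem dg_conj_coeff {J : Type} [Fintype J] [DecidableEq J] (c : J → G)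
    (X : Matrix J J (MonoidAlgebra k G)) (i j : J) (g : G) :
    (((dg k c).val * X * (dg k fun j => (c j)⁻¹).val) i j).coeff g =
      (X i j).coeff ((c i)⁻¹ * g * c j) := by
  have h1 : ((dg k c).val * X * (dg k fun j => (c j)⁻¹).val) i j =
      MonoidAlgebra.single (c i) 1 * X i j * MonoidAlgebra.single (c j)⁻¹ 1 := by
    change ((Matrix.diagonal (fun j => MonoidAlgebra.single (c j) 1) * X *
      Matrix.diagonal (fun j => MonoidAlgebra.single (c j)⁻¹ 1) :
        Matrix J J (MonoidAlgebra k G)) : Matrix J J (MonoidAlgebra k G)) i j = _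
    rw [Matrix.mul_diagonal, Matrix.diagonal_mul]
  rw [h1, MonoidAlgebra.coeff_mul_single_apply, MonoidAlgebra.coeff_single_mul_apply, one_mul,
    mul_one, inv_inv, mul_assoc]

/-- the controlled version, positions of the columns in one period -/
theorem line_ctrl0 {J : Type} [Fintype J] [DecidableEq J] (q : G →* Multiplicative ℤ) (n : ℤ)
    (hn : 0 < n) (r : J → ℤ) (hr : ∀ j, 0 ≤ r j ∧ r j < n) (X : (Matrix J J (MonoidAlgebra k G))ˣ)
    (hX : ∀ i j g, (X.val i j).coeff g ≠ 0 →
      4 * |r i - n * Multiplicative.toAdd (q g) - r j| < n)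
    (hX' : ∀ i j g, ((X⁻¹).val i j).coeff g ≠ 0 →
      4 * |r i - n * Multiplicative.toAdd (q g) - r j| < n)
    (hV : ∀ (κ : Type) [Fintype κ] [DecidableEq κ]
      (a : (Matrix κ κ (MonoidAlgebra k q.ker))ˣ), N.car κ (Units.map (mpm (inc k q.ker)) a))
    (hid : ∀ (κ : Type) [Fintype κ] [DecidableEq κ] (p : Matrix κ κ k), p * p = p → ∀ g : G,
      N.Tr (1 - p.map (io k G) + p.map (io k G) *
        (Matrix.diagonal fun _ => MonoidAlgebra.single g 1 : Matrix κ κ (MonoidAlgebra k G))))
    (hS : AllSI (io k q.ker)) : N.car J X := by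
  classical
  letI : MulAction G ℤ :=
    { smul := fun g x => x + 2 * Multiplicative.toAdd (q g)
      one_smul := fun x => by
        change x + 2 * Multiplicative.toAdd (q 1) = x
        rw [map_one, toAdd_one, mul_zero, add_zero]
      mul_smul := fun g h x => by
        change x + 2 * Multiplicative.toAdd (q (g * h)) =
          x + 2 * Multiplicative.toAdd (q h) + 2 * Multiplicative.toAdd (q g)
        rw [map_mul, toAdd_mul]
        ring }
  have hsm : ∀ (g : G) (x : ℤ), g • x = x + 2 * Multiplicative.toAdd (q g) := fun _ _ => rfl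
  have hqi : ∀ g : G, Multiplicative.toAdd (q g⁻¹) = - Multiplicative.toAdd (q g) := by
    intro g
    rw [map_inv, toAdd_inv]
  have hker : ∀ g : G, g ∈ q.ker ↔ Multiplicative.toAdd (q g) = 0 := by
    intro g
    rw [MonoidHom.mem_ker, ← toAdd_one]
    exact (Multiplicative.toAdd.injective.eq_iff).symm
  have hst : ∀ v : ℤ, MulAction.stabilizer G v = q.ker := by
    intro v
    ext g
    rw [MulAction.mem_stabilizer_iff, hsm, hker]
    omega
  have hst2 : ∀ v w : ℤ, MulAction.stabilizer G ((v, w) : ℤ × ℤ) = q.ker := by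
    intro v w
    ext g
    rw [MulAction.mem_stabilizer_iff, hker]
    constructor
    · intro h
      have h1 : g • v = v := congrArg Prod.fst h
      rw [hsm] at h1
      omega
    · intro h
      apply Prod.ext
      · change g • v = v
        rw [hsm]
        omega
      · change g • w = w
        rw [hsm]
        omega
  have hg : Good ℤ N := by
    refine ⟨?_, hid⟩
    intro v
    have : ∀ S : Subgroup G, S = q.ker → ∀ (κ : Type) [Fintype κ] [DecidableEq κ]
        (a : (Matrix κ κ (MonoidAlgebra k S))ˣ), N.car κ (Units.map (mpm (inc k S)) a) := by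
      rintro S rfl
      exact hV
    exact this _ (hst v)
  have hSS : ∀ v w : ℤ, AllSI (io k (MulAction.stabilizer G ((v, w) : ℤ × ℤ))) := by
    intro v w
    have : ∀ S : Subgroup G, S = q.ker → AllSI (io k S) := by
      rintro S rfl
      exact hS
    exact this _ (hst2 v w)
  -- the positions
  have he : ∀ j, ∃ e : ℤ, n * e ≤ 2 * r j ∧ 2 * r j < n * e + n := by
    intro j
    refine ⟨2 * r j / n, ?_, ?_⟩
    · exact Int.mul_ediv_self_le hn.ne'
    · exact Int.lt_mul_ediv_self_add hn
  have hv : ∀ j, ∃ v : ℤ, 2 * (n * v) ≤ 4 * r j + n ∧ 4 * r j + n < 2 * (n * v) + 2 * n := by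
    intro j
    refine ⟨(4 * r j + n) / (2 * n), ?_, ?_⟩
    · have h1 : 2 * n * ((4 * r j + n) / (2 * n)) ≤ 4 * r j + n :=
        Int.mul_ediv_self_le (by omega)
      rwa [mul_assoc] at h1
    · have h1 : 4 * r j + n < 2 * n * ((4 * r j + n) / (2 * n)) + 2 * n :=
        Int.lt_mul_ediv_self_add (by omega)
      rwa [mul_assoc] at h1
  choose e he1 he2 using he
  choose v hv1 hv2 using hv
  have he01 : ∀ j, e j = 0 ∨ e j = 1 := by
    intro j
    have h1 := he1 j
    have h2 := he2 j
    obtain ⟨h3, h4⟩ := hr j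
    have h5 : n * e j < n * 2 := by omega
    have h6 : n * (-1) < n * e j := by omega
    have h7 := lt_of_mul_lt_mul_left h5 hn.le
    have h8 := lt_of_mul_lt_mul_left h6 hn.le
    omega
  let ε : J → ℤ × ℤ := fun j => (e j, e j + 1)
  have hadj : ∀ j, lineG.Adj (ε j).1 (ε j).2 := fun j => Or.inl rfl
  -- locations of the matrix
  have hty : Ty v ε (fun x f => x = f.1 ∨ x = f.2) X.val := by
    intro i j g hg'
    have h1 := hX i j g hg'
    have h2 : g⁻¹ • v i = v i - 2 * Multiplicative.toAdd (q g) := by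
      rw [hsm, hqi]
      ring
    rw [h2]
    change v i - 2 * Multiplicative.toAdd (q g) = e j ∨
      v i - 2 * Multiplicative.toAdd (q g) = e j + 1
    obtain ⟨m, hm⟩ : ∃ m, m = v i - 2 * Multiplicative.toAdd (q g) - e j := ⟨_, rfl⟩
    have h3 : n * m = n * v i - 2 * (n * Multiplicative.toAdd (q g)) - n * e j := by
      rw [hm]
      ring
    have h4 := hv1 i
    have h5 := hv2 i
    have h6 := he1 j
    have h7 := he2 j
    have h8 := abs_lt.1 (show |r i - n * Multiplicative.toAdd (q g) - r j| < (n + 3) / 4 by omega)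
    have h9 : n * m < n * 2 := by omega
    have h10 : n * (-1) < n * m := by omega
    have h11 := lt_of_mul_lt_mul_left h9 hn.le
    have h12 := lt_of_mul_lt_mul_left h10 hn.le
    omega
  have hty' : Ty ε v (fun (f : ℤ × ℤ) (x : ℤ) => f.1 = x ∨ f.2 = x) (X⁻¹).val := by
    intro i j g hg'
    have h1 := hX' i j g hg'
    have h2 : (g⁻¹ • ε i).1 = e i - 2 * Multiplicative.toAdd (q g) := by
      change g⁻¹ • e i = _
      rw [hsm, hqi]
      ring
    have h2' : (g⁻¹ • ε i).2 = e i + 1 - 2 * Multiplicative.toAdd (q g) := by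
      change g⁻¹ • (e i + 1) = _
      rw [hsm, hqi]
      ring
    rw [h2, h2']
    obtain ⟨m, hm⟩ : ∃ m, m = v j - (e i - 2 * Multiplicative.toAdd (q g)) := ⟨_, rfl⟩
    have h3 : n * m = n * v j - n * e i + 2 * (n * Multiplicative.toAdd (q g)) := by
      rw [hm]
      ring
    have h4 := hv1 j
    have h5 := hv2 j
    have h6 := he1 i
    have h7 := he2 i
    have h8 := abs_lt.1 (show |r i - n * Multiplicative.toAdd (q g) - r j| < (n + 3) / 4 by omega)
    have h9 : n * m < n * 2 := by omega
    have h10 : n * (-1) < n * m := by omega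
    have h11 := lt_of_mul_lt_mul_left h9 hn.le
    have h12 := lt_of_mul_lt_mul_left h10 hn.le
    omega
  refine coreK' (T := lineG) hg lineG_tree ?_ ?_ v ε hadj ?_ ?_ X _ _
    (MK.two_parts v ε hadj X.val hty) Ty.res Ty.res hty' fun j => hSS _ _
  · intro g a b h
    rw [lineG_adj] at h ⊢
    rw [hsm, hsm]
    omega
  · intro J' _ _ σ x y hx hy hyx
    exact line_nil0 (fun g => Multiplicative.toAdd (q g)) hsm J' σ x y hx hy hyx
  · intro g j j' h
    have h1 : g • e j = e j' := congrArg Prod.fst h
    rw [hsm] at h1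
    have h2 := he01 j
    have h3 := he01 j'
    have h4 : e j = e j' := by omega
    change (e j, e j + 1) = (e j', e j' + 1)
    rw [h4]
  · intro g j j' h
    have h1 : g • e j = e j' + 1 := congrArg Prod.fst h
    have h2 : g • (e j + 1) = e j' := congrArg Prod.snd h
    rw [hsm] at h1 h2
    omega

/-- **Matrices which are controlled over a long circle** -/
theorem line_ctrl {J : Type} [Fintype J] [DecidableEq J] (q : G →* Multiplicative ℤ)
    (hq : Function.Surjective q) (n : ℤ)
    (hn : 0 < n) (r : J → ℤ) (X : (Matrix J J (MonoidAlgebra k G))ˣ)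
    (hX : ∀ i j g, (X.val i j).coeff g ≠ 0 →
      4 * |r i - n * Multiplicative.toAdd (q g) - r j| < n)
    (hX' : ∀ i j g, ((X⁻¹).val i j).coeff g ≠ 0 →
      4 * |r i - n * Multiplicative.toAdd (q g) - r j| < n)
    (hV : ∀ (κ : Type) [Fintype κ] [DecidableEq κ]
      (a : (Matrix κ κ (MonoidAlgebra k q.ker))ˣ), N.car κ (Units.map (mpm (inc k q.ker)) a))
    (hid : ∀ (κ : Type) [Fintype κ] [DecidableEq κ] (p : Matrix κ κ k), p * p = p → ∀ g : G,
      N.Tr (1 - p.map (io k G) + p.map (io k G) *
        (Matrix.diagonal fun _ => MonoidAlgebra.single g 1 : Matrix κ κ (MonoidAlgebra k G))))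
    (hS : AllSI (io k q.ker)) : N.car J X := by
  classical
  have hh : ∀ j, ∃ h : G, Multiplicative.toAdd (q h) = r j / n := by
    intro j
    obtain ⟨h, hh⟩ := hq (Multiplicative.ofAdd (r j / n))
    exact ⟨h, by rw [hh]; rfl⟩
  choose h hh using hh
  let c : J → G := fun j => (h j)⁻¹
  have hc : ∀ j, Multiplicative.toAdd (q (c j)) = - (r j / n) := by
    intro j
    change Multiplicative.toAdd (q (h j)⁻¹) = _
    rw [map_inv, toAdd_inv, hh]
  let X' : (Matrix J J (MonoidAlgebra k G))ˣ := dg k c * X * (dg k c)⁻¹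
  have key : ∀ (Y : Matrix J J (MonoidAlgebra k G)),
      (∀ i j g, (Y i j).coeff g ≠ 0 → 4 * |r i - n * Multiplicative.toAdd (q g) - r j| < n) →
      ∀ i j g, (((dg k c).val * Y * (dg k fun j => (c j)⁻¹).val) i j).coeff g ≠ 0 →
        4 * |r i % n - n * Multiplicative.toAdd (q g) - r j % n| < n := by
    intro Y hY i j g hg
    rw [dg_conj_coeff] at hg
    have h1 := hY i j _ hg
    have h2 : r i - n * Multiplicative.toAdd (q ((c i)⁻¹ * g * c j)) - r j =
        r i % n - n * Multiplicative.toAdd (q g) - r j % n := by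
      have h3 : Multiplicative.toAdd (q ((c i)⁻¹ * g * c j)) =
          - Multiplicative.toAdd (q (c i)) + Multiplicative.toAdd (q g) +
            Multiplicative.toAdd (q (c j)) := by
        rw [map_mul q ((c i)⁻¹ * g) (c j), map_mul q (c i)⁻¹ g, map_inv q (c i)]
        rfl
      rw [h3, hc, hc, Int.emod_def, Int.emod_def]
      ring
    rwa [h2] at h1
  have hX1 : N.car J X' := by
    refine line_ctrl0 q n hn (fun j => r j % n) (fun j => ⟨Int.emod_nonneg _ hn.ne',
      Int.emod_lt_of_pos _ hn⟩) X' ?_ ?_ hV hid hS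
    · have h1 : X'.val = (dg k c).val * X.val * (dg k fun j => (c j)⁻¹).val := by
        change (dg k c).val * X.val * ((dg k c)⁻¹).val = _
        rw [dg_inv]
      rw [h1]
      exact key _ hX
    · have h1 : (X'⁻¹).val = (dg k c).val * (X⁻¹).val * (dg k fun j => (c j)⁻¹).val := by
        have : X'⁻¹ = dg k c * X⁻¹ * (dg k c)⁻¹ := by
          simp only [X']
          group
        rw [this]
        change (dg k c).val * (X⁻¹).val * ((dg k c)⁻¹).val = _
        rw [dg_inv]
      rw [h1]
      exact key _ hX'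
  have h1 : X = (dg k c)⁻¹ * X' * ((dg k c)⁻¹)⁻¹ := by
    simp only [X']
    group
  rw [h1]
  exact N.conj _ _ hX1

end stepB

end Pool.Agent.H1.FH
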