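import Pool.Agent.H1.FH.LemA
import Pool.Agent.H1.FH.StepB

set_option autoImplicit false
set_option linter.unusedSectionVars false
set_option linter.unusedSimpArgs false

/-!
# Restriction to the kernel of a character and induction
-/

namespace Pool.Agent.H1.FH

open Matrix TH57.Thr Pool.Agent.K4H37.MT Pool.Agent.H1.MV Pool.Agent.H1.KK

section ind

variable {k : Type} [Ring k] {G : Type} [Group G] {κ : Type} [Fintype κ] [DecidableEq κ]

/-- matrices over a subgroup -/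
theorem supp_inc (H : Subgroup G) (M : (Matrix κ κ (MonoidAlgebra k G))ˣ)
    (h1 : ∀ i j g, (M.val i j).coeff g ≠ 0 → g ∈ H)
    (h2 : ∀ i j g, ((M⁻¹).val i j).coeff g ≠ 0 → g ∈ H) :
    ∃ Y : (Matrix κ κ (MonoidAlgebra k H))ˣ, Units.map (mpm (inc k H)) Y = M := by
  have hs : ∀ Z : Matrix κ κ (MonoidAlgebra k G), (∀ i j g, (Z i j).coeff g ≠ 0 → g ∈ H) →
      (Z.map (toSub H)).map (inc k H) = Z := by
    intro Z hZ
    ext1 i j
    exact inc_toSub H _ (hZ i j)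
  have hinj : Function.Injective (fun M : Matrix κ κ (MonoidAlgebra k H) => M.map (inc k H)) := by
    intro M N hMN
    ext1 i j
    exact inc_inj H (congrFun (congrFun hMN i) j)
  have hone : ∀ (z w : Matrix κ κ (MonoidAlgebra k G)), (∀ i j g, (z i j).coeff g ≠ 0 → g ∈ H) →
      (∀ i j g, (w i j).coeff g ≠ 0 → g ∈ H) → z * w = 1 →
      z.map (toSub H) * w.map (toSub H) = 1 := by
    intro z w hz hw hzw
    apply hinj
    beta_reduce
    rw [Matrix.map_mul, hs z hz, hs w hw, hzw]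
    exact (Matrix.map_one _ (map_zero _) (map_one _)).symm
  exact ⟨⟨M.val.map (toSub H), (M⁻¹).val.map (toSub H), hone _ _ h1 h2 (Units.mul_inv M),
    hone _ _ h2 h1 (Units.inv_mul M)⟩, Units.ext (hs _ h1)⟩

/-- the representatives of the cosets -/
def sg {p : ℕ} {I : Type} (c : I ≃ ZMod p) (t : G) (x : κ × I) : G := (t ^ (c x.2).val)⁻¹

theorem chi_sg {p : ℕ} [NeZero p] {I : Type} (c : I ≃ ZMod p) (χ : G →* Multiplicative (ZMod p))
    (t : G) (ht : χ t = Multiplicative.ofAdd 1) (x : κ × I) :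
    Multiplicative.toAdd (χ (sg c t x)) = - c x.2 := by
  unfold sg
  rw [map_inv, toAdd_inv, map_pow, ht, toAdd_pow, toAdd_ofAdd, nsmul_one, ZMod.natCast_zmod_val]

/-- **the restriction to the kernel of a character** -/
theorem ind_res {p : ℕ} [NeZero p] {I : Type} [Fintype I] [DecidableEq I] (c : I ≃ ZMod p)
    (χ : G →* Multiplicative (ZMod p)) (t : G) (ht : χ t = Multiplicative.ofAdd 1)
    (X : (Matrix κ κ (MonoidAlgebra k G))ˣ) :
    ∃ Y : (Matrix (κ × I) (κ × I) (MonoidAlgebra k χ.ker))ˣ,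
      Units.map (mpm (inc k χ.ker)) Y =
        dg k (sg c t) * twU k ((pm c).comp χ) κ X * (dg k (sg c t))⁻¹ ∧
      (∀ a b (h : χ.ker), (Y.val a b).coeff h ≠ 0 →
        (X.val a.1 b.1).coeff ((sg c t a)⁻¹ * h * sg c t b) ≠ 0) ∧
      (∀ a b (h : χ.ker), ((Y⁻¹).val a b).coeff h ≠ 0 →
        ((X⁻¹).val a.1 b.1).coeff ((sg c t a)⁻¹ * h * sg c t b) ≠ 0) := by
  have hdg : ((dg k (sg (κ := κ) c t))⁻¹).val = (dg k fun j => (sg (κ := κ) c t j)⁻¹).val := by
    rw [dg_inv]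
  have hM : ∀ (Z : (Matrix κ κ (MonoidAlgebra k G))ˣ) a b (g : G),
      ((dg k (sg c t) * twU k ((pm c).comp χ) κ Z * (dg k (sg c t))⁻¹).val a b).coeff g =
      (Z.val a.1 b.1).coeff ((sg c t a)⁻¹ * g * sg c t b) *
        ((((pm c).comp χ ((sg c t a)⁻¹ * g * sg c t b)) a.2 b.2 : ℤ) : k) := by
    intro Z a b g
    rw [Units.val_mul, Units.val_mul, hdg, dg_conj_coeff, twU_coeff]
  have hchi : ∀ (a b : κ × I) (g : G),
      ((((pm c).comp χ ((sg c t a)⁻¹ * g * sg c t b)) a.2 b.2 : ℤ) : k) ≠ 0 → g ∈ χ.ker := by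
    intro a b g hg
    rw [MonoidHom.mem_ker]
    apply Multiplicative.toAdd.injective
    rw [toAdd_one]
    have h1 : ((pm c).comp χ ((sg c t a)⁻¹ * g * sg c t b)) a.2 b.2 =
        if c a.2 = c b.2 + Multiplicative.toAdd (χ ((sg c t a)⁻¹ * g * sg c t b)) then 1 else 0 :=
      rfl
    rw [h1] at hg
    have h2 : c a.2 = c b.2 + Multiplicative.toAdd (χ ((sg c t a)⁻¹ * g * sg c t b)) := by
      by_contra h
      rw [if_neg h, Int.cast_zero] at hg
      exact hg rfl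
    rw [map_mul χ ((sg c t a)⁻¹ * g) (sg c t b), map_mul χ (sg c t a)⁻¹ g, toAdd_mul, toAdd_mul,
      map_inv, toAdd_inv, chi_sg c χ t ht, chi_sg c χ t ht] at h2
    have h3 : c b.2 + (- - c a.2 + Multiplicative.toAdd (χ g) + - c b.2) =
        c a.2 + Multiplicative.toAdd (χ g) := by ring
    rw [h3] at h2
    exact left_eq_add.1 h2
  have hinv : (dg k (sg c t) * twU k ((pm c).comp χ) κ X * (dg k (sg c t))⁻¹)⁻¹ =
      dg k (sg c t) * twU k ((pm c).comp χ) κ X⁻¹ * (dg k (sg c t))⁻¹ := by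
    rw [map_inv]
    group
  obtain ⟨Y, hY⟩ := supp_inc χ.ker
    (dg k (sg c t) * twU k ((pm c).comp χ) κ X * (dg k (sg c t))⁻¹)
    (fun a b g hg => by
      rw [hM] at hg
      exact hchi a b g (right_ne_zero_of_mul hg))
    (fun a b g hg => by
      rw [hinv, hM] at hg
      exact hchi a b g (right_ne_zero_of_mul hg))
  refine ⟨Y, hY, ?_, ?_⟩
  · intro a b h hh
    have h1 := congrArg (fun Z : (Matrix (κ × I) (κ × I) (MonoidAlgebra k G))ˣ =>
      (Z.val a b).coeff (h : G)) hY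
    beta_reduce at h1
    rw [hM] at h1
    have h2 : ((Units.map (mpm (inc k χ.ker)) Y).val a b).coeff (h : G) = (Y.val a b).coeff h :=
      inc_coeff_coe χ.ker (Y.val a b) h
    rw [h2] at h1
    rw [h1] at hh
    exact left_ne_zero_of_mul hh
  · intro a b h hh
    have hY' : Units.map (mpm (inc k χ.ker)) Y⁻¹ =
        dg k (sg c t) * twU k ((pm c).comp χ) κ X⁻¹ * (dg k (sg c t))⁻¹ := by
      rw [map_inv, hY, hinv]
    have h1 := congrArg (fun Z : (Matrix (κ × I) (κ × I) (MonoidAlgebra k G))ˣ =>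
      (Z.val a b).coeff (h : G)) hY'
    beta_reduce at h1
    rw [hM] at h1
    have h2 : ((Units.map (mpm (inc k χ.ker)) Y⁻¹).val a b).coeff (h : G) =
        ((Y⁻¹).val a b).coeff h := inc_coeff_coe χ.ker ((Y⁻¹).val a b) h
    rw [h2] at h1
    rw [h1] at hh
    exact left_ne_zero_of_mul hh

/-- twists and inclusions -/
theorem twU_inc {ι : Type} [Fintype ι] [DecidableEq ι] (ρ : G →* Matrix ι ι ℤ) (H : Subgroup G)
    (Y : (Matrix κ κ (MonoidAlgebra k H))ˣ) :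
    Units.map (mpm (inc k H)) (twU k (ρ.comp H.subtype) κ Y) =
      twU k ρ κ (Units.map (mpm (inc k H)) Y) := by
  apply Units.ext
  apply mat_ext
  intro a b g
  rw [twU_coeff]
  change (inc k H ((twU k (ρ.comp H.subtype) κ Y).val a b)).coeff g =
    (inc k H (Y.val a.1 b.1)).coeff g * _
  by_cases hg : g ∈ H
  · have h1 := inc_coeff_coe H ((twU k (ρ.comp H.subtype) κ Y).val a b) (⟨g, hg⟩ : H)
    have h2 := inc_coeff_coe H (Y.val a.1 b.1) (⟨g, hg⟩ : H)
    change (inc k H ((twU k (ρ.comp H.subtype) κ Y).val a b)).coeff g = _ at h1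
    change (inc k H (Y.val a.1 b.1)).coeff g = _ at h2
    rw [h1, h2, twU_coeff]
    rfl
  · have h1 : (inc k H ((twU k (ρ.comp H.subtype) κ Y).val a b)).coeff g = 0 := by
      by_contra h
      exact hg (inc_coeff H _ g h)
    have h2 : (inc k H (Y.val a.1 b.1)).coeff g = 0 := by
      by_contra h
      exact hg (inc_coeff H _ g h)
    rw [h1, h2, zero_mul]

variable {N : KI (MonoidAlgebra k G)}

theorem car_unconj {M D : (Matrix κ κ (MonoidAlgebra k G))ˣ} (h : N.car κ (D * M * D⁻¹)) :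
    N.car κ M := by
  have h1 : M = D⁻¹ * (D * M * D⁻¹) * (D⁻¹)⁻¹ := by group
  rw [h1]
  exact N.conj _ _ h

theorem of_bsum' {μ : Type} [Fintype μ] [DecidableEq μ] {x : (Matrix κ κ (MonoidAlgebra k G))ˣ}
    {y : (Matrix μ μ (MonoidAlgebra k G))ˣ} (h : N.car (κ ⊕ μ) (blockSum x y))
    (hx : N.car κ x) : N.car μ y := by
  have h1 := N.re (Equiv.sumComm μ κ) _ h
  have h2 : Units.map (TH57.Thr.re (Equiv.sumComm μ κ)) (blockSum x y) = blockSum y x := by
    apply Units.ext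
    ext1 i j
    rcases i with i | i <;> rcases j with j | j <;> rfl
  rw [h2] at h1
  exact N.of_bsum h1 hx

/-- **the lemma for `2`** -/
theorem lemB2 (χ χ' : G →* Multiplicative (ZMod 2))
    (Y : (Matrix κ κ (MonoidAlgebra k G))ˣ)
    (h0 : N.car _ (twU k ((pm c2).comp χ') κ Y))
    (h1 : ∀ j : ℕ, N.car _ (twU k ((pm c2).comp (χ * χ' ^ j)) κ Y))
    (hd : N.car _ (twU k ((pm c2).comp χ) _ (twU k ((pm c2).comp χ') κ Y))) :
    N.car κ (Y ^ 2) := by
  have hb : ∀ (ψ : G →* Multiplicative (ZMod 2)) (μ : Type) [Fintype μ] [DecidableEq μ]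
      (Y : (Matrix μ μ (MonoidAlgebra k G))ˣ), N.car _ (twU k ((pm c2).comp ψ) μ Y) →
      N.car _ (blockSum (twU k (1 : G →* Matrix Unit Unit ℤ) μ Y) (twU k (Z2.comp ψ) μ Y)) := by
    intro ψ μ _ _ Y hψ
    exact (tw_block2 (Equiv.refl _) _ V2 V2' V2_mul.1 V2_mul.2 1 (Z2.comp ψ) _
      (fun g => V2_pm (ψ g)) Y).1 hψ
  have h1' := h1 0
  have h2' := h1 1
  rw [pow_zero, mul_one] at h1'
  rw [pow_one] at h2'
  have a1 := hb _ _ _ h1'
  have a2 := hb _ _ _ h2'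
  have h3 : N.car _ (twU k (Z2.comp χ) _ (twU k ((pm c2).comp χ') κ Y)) :=
    of_bsum' (hb _ _ _ hd) ((tw_one _).2 h0)
  rw [tw_swap, tw_tens, tw_block2 (Fintype.equivOfCardEq (by decide)) _ U2 U2' U2_mul.1 U2_mul.2
    (Z2.comp (χ * χ')) (Z2.comp χ) _ (fun g => U2_pm (χ g) (χ' g)) Y, car_prod] at h3
  have h4 := N.mul _ _ a2 a1
  rw [blockSum_mul] at h4
  have h5 := N.of_bsum h4 h3
  rw [← pow_two] at h5
  exact pow_tw1 2 Y h5

/-- **the lemma for `3`** -/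
theorem lemB3 (χ χ' : G →* Multiplicative (ZMod 3))
    (Y : (Matrix κ κ (MonoidAlgebra k G))ˣ)
    (h0 : N.car _ (twU k ((pm c3).comp χ') κ Y))
    (h1 : ∀ j : ℕ, N.car _ (twU k ((pm c3).comp (χ * χ' ^ j)) κ Y))
    (hd : N.car _ (twU k ((pm c3).comp χ) _ (twU k ((pm c3).comp χ') κ Y))) :
    N.car κ (Y ^ 3) := by
  have hb : ∀ (ψ : G →* Multiplicative (ZMod 3)) (μ : Type) [Fintype μ] [DecidableEq μ]
      (Y : (Matrix μ μ (MonoidAlgebra k G))ˣ), N.car _ (twU k ((pm c3).comp ψ) μ Y) →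
      N.car _ (blockSum (twU k (1 : G →* Matrix Unit Unit ℤ) μ Y) (twU k (Z3.comp ψ) μ Y)) := by
    intro ψ μ _ _ Y hψ
    exact (tw_block2 (Equiv.refl _) _ V3 V3' V3_mul.1 V3_mul.2 1 (Z3.comp ψ) _
      (fun g => V3_pm (ψ g)) Y).1 hψ
  have h1' := h1 0
  have h2' := h1 1
  have h3' := h1 2
  rw [pow_zero, mul_one] at h1'
  rw [pow_one] at h2'
  rw [pow_two, ← mul_assoc] at h3'
  have a1 := hb _ _ _ h1'
  have a2 := hb _ _ _ h2'
  have a3 := hb _ _ _ h3'
  have h3 : N.car _ (twU k (Z3.comp χ) _ (twU k ((pm c3).comp χ') κ Y)) :=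
    of_bsum' (hb _ _ _ hd) ((tw_one _).2 h0)
  rw [tw_swap, tw_tens] at h3
  have h3' := car_prod3 (tw_block3 (Fintype.equivOfCardEq (by decide)) _ U3 U3' U3_mul.1 U3_mul.2
    (Z3.comp (χ * χ' * χ')) (Z3.comp (χ * χ')) (Z3.comp χ) _ _
    (fun g => U3_pm (χ g) (χ' g)) Y h3)
  have h4 := N.mul _ _ a3 (N.mul _ _ a2 a1)
  rw [blockSum_mul, blockSum_mul] at h4
  have h5 := N.of_bsum h4 h3'
  have h6 : twU k (1 : G →* Matrix Unit Unit ℤ) κ Y * (twU k (1 : G →* Matrix Unit Unit ℤ) κ Y *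
      twU k (1 : G →* Matrix Unit Unit ℤ) κ Y) = (twU k (1 : G →* Matrix Unit Unit ℤ) κ Y) ^ 3 := by
    rw [pow_succ, pow_two, mul_assoc]
  rw [h6] at h5
  exact pow_tw1 3 Y h5

end ind

end Pool.Agent.H1.FH
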