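import Pool.Agent.H1.FH.Plane2
import Pool.Agent.H1.FH.BdNat
import Pool.Agent.H1.KK.StN

set_option autoImplicit false
set_option linter.unusedSectionVars false
set_option linter.unusedSimpArgs false
set_option linter.style.haveILetI false

/-!
# The instances of the theorem on groups over the plane
-/

namespace Pool.Agent.H1.FH

open Matrix TH57.Thr Pool.Agent.K4H37.MT Pool.Agent.H1.MV Pool.Agent.H1.MK Pool.Agent.H1.KK

section sys

/-- the classes from the coefficients -/
noncomputable def sys1 (k : Type) [Ring k] : Sys k where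
  N G _ := genK (S1 k G)
  inc G _ H κ _ _ x hx := s1_map H.subtype hx
  idem G _ κ _ _ p hp g := ⟨pg hp g, rfl, genK_gen _ (Or.inr ⟨p, g, hp, rfl⟩)⟩

/-- the classes with stably induced boundary -/
noncomputable def sysN (k : Type) [Ring k] (h : Reg k) : Sys (Lau k) where
  N G _ := NB k G
  inc G _ H κ _ _ x hx := by
    change bd (MonoidAlgebra k G) κ (swm _) ∈ IK (io k G)
    have hx' : bd (MonoidAlgebra k H) κ (swm x) ∈ IK (io k H) := hx
    rw [bd_nat (MV.inc k H) (swm x) _ (swm_inc H x)]
    rw [ik_eq] at hx' ⊢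
    obtain ⟨y, hy⟩ := hx'
    refine ⟨y, ?_⟩
    rw [← hy, kzm_comp]
    congr 2
    exact RingHom.ext fun c => (inc_io H c).symm
  idem G _ κ _ _ p hp g := by
    haveI := h.noeth
    exact ⟨_, rfl, nb_idem h.nice hp g⟩

theorem wh_map {G H : Type} [Group G] [Group H] (f : G →* H) {κ : Type} [Fintype κ]
    [DecidableEq κ] (x : (Matrix κ κ (MonoidAlgebra ℤ G))ˣ) (h : TT (TU G) x) :
    TT (TU H) (Units.map (mpm (MonoidAlgebra.mapDomainRingHom ℤ f)) x) := by
  refine TT_map (TU G) (TU H) (MonoidAlgebra.mapDomainRingHom ℤ f) ?_ x h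
  rintro u ⟨g, ε, hu⟩
  refine ⟨f g, ε, ?_⟩
  change MonoidAlgebra.mapDomainRingHom ℤ f u.val = _
  rw [hu]
  exact mf_single f g _

theorem pg_map {k : Type} [Ring k] {G H : Type} [Group G] [Group H] (f : G →* H) {κ : Type}
    [Fintype κ] [DecidableEq κ] {p : Matrix κ κ k} (hp : p * p = p) (g : G) :
    Units.map (mpm (MonoidAlgebra.mapDomainRingHom k f)) (pg hp g) = pg hp (f g) := by
  have e0 : ∀ c : k, MonoidAlgebra.mapDomainRingHom k f (io k G c) = io k H c := by
    intro c
    change MonoidAlgebra.mapDomain f (MonoidAlgebra.single 1 c) = MonoidAlgebra.single 1 c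
    rw [MonoidAlgebra.mapDomain_single, map_one]
  apply Units.ext
  change (1 - p.map (io k G) + p.map (io k G) *
    (Matrix.diagonal fun _ => MonoidAlgebra.single g 1 : Matrix κ κ (MonoidAlgebra k G))).map
      (MonoidAlgebra.mapDomainRingHom k f) = 1 - p.map (io k H) + p.map (io k H) *
    (Matrix.diagonal fun _ => MonoidAlgebra.single (f g) 1 : Matrix κ κ (MonoidAlgebra k H))
  have e1 : (p.map (io k G)).map (MonoidAlgebra.mapDomainRingHom k f) = p.map (io k H) := by
    ext1 i j
    exact e0 _
  have e2 : (Matrix.diagonal fun _ => MonoidAlgebra.single g 1 :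
      Matrix κ κ (MonoidAlgebra k G)).map (MonoidAlgebra.mapDomainRingHom k f) =
      Matrix.diagonal fun _ => MonoidAlgebra.single (f g) 1 := by
    rw [Matrix.diagonal_map (map_zero _)]
    congr 1
    funext i
    exact MonoidAlgebra.mapDomain_single
  rw [Matrix.map_add _ (map_add _), sub_map, Matrix.map_mul, e1, e2]

theorem wh_pg {G : Type} [Group G] {κ : Type} [Fintype κ] [DecidableEq κ] {p : Matrix κ κ ℤ}
    (hp : p * p = p) (g : G) : TT (TU G) (pg (G := G) hp g) := by
  have h1 : WhT (Multiplicative ℤ × Zp 0) := WhT.congr (zpSucc 0) (wh_zp 1)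
  let f : Multiplicative ℤ × Zp 0 →* G := (zpowersHom G g).comp (MonoidHom.fst _ _)
  have h2 := wh_map f _ (h1.all κ (pg (G := Multiplicative ℤ × Zp 0) hp
    ((Multiplicative.ofAdd 1, 1) : Multiplicative ℤ × Zp 0)))
  rw [pg_map] at h2
  have h3 : f ((Multiplicative.ofAdd 1, 1) : Multiplicative ℤ × Zp 0) = g := by
    change (zpowersHom G g) (Multiplicative.ofAdd 1) = g
    simp
  rwa [h3] at h2

/-- the trivial units -/
noncomputable def sysW : Sys ℤ where
  N G _ := ofU (TU G)
  inc G _ H κ _ _ x hx := wh_map H.subtype x hx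
  idem G _ κ _ _ p hp g := ⟨pg hp g, rfl, wh_pg hp g⟩

end sys

section base

/-- a property with a tree theorem and a theorem on groups over the plane -/
structure BaseP (P N : ∀ (G : Type) [Group G], Prop) : Prop where
  base : Base P N
  plane : ∀ (G : Type) [Group G] (P1 P2 : G →* Multiplicative ℤ),
    (∀ u1 u2 : ℤ, (u1 ≠ 0 ∨ u2 ≠ 0) → St P (ln P1 P2 u1 u2).ker) → P G

/-- closure properties of a class of groups -/
structure TClsP (W : ∀ (G : Type) [Group G], Prop) : Prop where
  tcls : TCls W
  plane : ∀ (G : Type) [Group G] (P1 P2 : G →* Multiplicative ℤ),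
    (∀ u1 u2 : ℤ, (u1 ≠ 0 ∨ u2 ≠ 0) → W (ln P1 P2 u1 u2).ker) → W G

theorem BaseP.tclsp {P N : ∀ (G : Type) [Group G], Prop} (hP : BaseP P N) : TClsP (St P) where
  tcls := hP.base.tcls
  plane G _ P1 P2 hl n K := by
    let g : K →* G := (MonoidHom.fst G (Zp n)).comp K.subtype
    refine hP.plane K (P1.comp g) (P2.comp g) ?_
    intro u1 u2 hu
    let f : (ln (P1.comp g) (P2.comp g) u1 u2).ker →* (ln P1 P2 u1 u2).ker × Zp n :=
      { toFun := fun x => (⟨g x.1, by
          have h1 := (mem_kerv _ _).1 x.2
          rw [mem_kerv]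
          exact h1⟩, x.1.1.2)
        map_one' := rfl
        map_mul' := fun _ _ => rfl }
    refine hP.base.st_inj (hP.base.st_zn (hl u1 u2 hu) n) f ?_
    intro x y hxy
    have h1 : (f x).1 = (f y).1 := congrArg Prod.fst hxy
    have h2 : (f x).2 = (f y).2 := congrArg Prod.snd hxy
    have h3 : x.1.1.1 = y.1.1.1 := congrArg Subtype.val h1
    exact Subtype.ext (Subtype.ext (Prod.ext h3 h2))

end base

section inst

variable {C : ∀ (k : Type) [Ring k], Prop} (hC : RCls C)

include hC

/-- **projective modules** -/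
theorem basep_k0 : BaseP (fun G _ => ∀ (k : Type) [Ring k], C k → AllSI (io k G))
    (fun Q _ => ∀ (k : Type) [Ring k], C k → Nice (MonoidAlgebra k Q)) where
  base := base_k0 hC
  plane G _ P1 P2 hl k _ hk := by
    have hR := hC.reg k hk
    have hQ : SCls (sysN k hR)
        (St (fun G _ => ∀ (k : Type) [Ring k], C k → AllSI (io k G))) :=
      { sub := fun G H _ _ f hf h => (base_k0 hC).st_inj h f hf
        si := fun G _ h => (base_k0 hC).self h _ (hC.lau k hk)
        all := fun G _ h κ _ _ x => by
          change bd (MonoidAlgebra k G) κ (swm x) ∈ IK (io k G)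
          rw [(allSI_iff _).1 ((base_k0 hC).self h k hk)]
          exact Subgroup.mem_top _ }
    apply allSI_of_NB
    intro n X
    exact plane' hQ P1 P2 hl (Fin n) X

/-- **`K₁`** -/
theorem basep_k1 : BaseP (fun G _ => ∀ (k : Type) [Ring k], C k → AllSI (io k G) ∧ A1 k G)
    (fun Q _ => ∀ (k : Type) [Ring k], C k → Nice (MonoidAlgebra k Q)) where
  base := base_k1 hC
  plane G _ P1 P2 hl k _ hk := by
    have hR := hC.reg k hk
    constructor
    · have hQ : SCls (sysN k hR)
          (St (fun G _ => ∀ (k : Type) [Ring k], C k → AllSI (io k G) ∧ A1 k G)) :=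
        { sub := fun G H _ _ f hf h => (base_k1 hC).st_inj h f hf
          si := fun G _ h => ((base_k1 hC).self h _ (hC.lau k hk)).1
          all := fun G _ h κ _ _ x => by
            change bd (MonoidAlgebra k G) κ (swm x) ∈ IK (io k G)
            rw [(allSI_iff _).1 ((base_k1 hC).self h k hk).1]
            exact Subgroup.mem_top _ }
      apply allSI_of_NB
      intro n X
      exact plane' hQ P1 P2 hl (Fin n) X
    · have hQ : SCls (sys1 k)
          (St (fun G _ => ∀ (k : Type) [Ring k], C k → AllSI (io k G) ∧ A1 k G)) :=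
        { sub := fun G H _ _ f hf h => (base_k1 hC).st_inj h f hf
          si := fun G _ h => ((base_k1 hC).self h k hk).1
          all := fun G _ h κ _ _ x => ((base_k1 hC).self h k hk).2 κ x }
      intro κ _ _ x
      exact plane' hQ P1 P2 hl κ x

omit hC

/-- stably free modules are stably induced -/
theorem allSI_of_sf {k S : Type} [Ring k] [Ring S] (φ : k →+* S) (h : AllStablyFree S) :
    AllSI φ := by
  intro P _ _ _ _
  obtain ⟨s, t, ⟨e⟩⟩ := h P
  have h1 : MV.SE (S := S) P (Fin t → S) := by
    refine ⟨s, 0, ⟨?_⟩⟩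
    exact e.trans (LinearEquiv.prodUnique (M := Fin t → S) (M₂ := Fin 0 → S)).symm
  exact (SI.of_free (C := Fin t)).se h1

/-- **Whitehead groups** -/
theorem basep_wh : BaseP (fun G _ => WhT G) (fun Q _ => Nice (MonoidAlgebra ℤ Q)) where
  base := base_wh
  plane G _ P1 P2 hl := by
    have hQ : SCls sysW (St (fun G _ => WhT G)) :=
      { sub := fun G H _ _ f hf h => base_wh.st_inj h f hf
        si := fun G _ h => by
          apply allSI_of_sf
          apply stablyFree_of_wh
          have h1 : WhT (G × Zp 1) := base_wh.self (base_wh.st_zn h 1)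
          let e : G × Zp 1 ≃* Multiplicative ℤ × G :=
            { toFun := fun x => ((zpSucc 0 x.2).1, x.1)
              invFun := fun x => (x.2, (zpSucc 0).symm (x.1, 1))
              left_inv := fun x => Prod.ext rfl (by
                apply (zpSucc 0).injective
                rw [MulEquiv.apply_symm_apply]
                exact Prod.ext rfl (Subsingleton.elim _ _))
              right_inv := fun x => Prod.ext (by
                change (zpSucc 0 ((zpSucc 0).symm (x.1, 1))).1 = x.1
                rw [MulEquiv.apply_symm_apply]) rfl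
              map_mul' := fun x y => Prod.ext (by
                change (zpSucc 0 (x.2 * y.2)).1 = (zpSucc 0 x.2).1 * (zpSucc 0 y.2).1
                rw [map_mul]
                rfl) rfl }
          exact WhT.congr e h1
        all := fun G _ h κ _ _ x => (base_wh.self h).all κ x }
    intro n X
    exact plane' hQ P1 P2 hl (Fin n) X

end inst

end Pool.Agent.H1.FH
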