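import Pool.Agent.H1.FH.Rel

set_option autoImplicit false
set_option linter.unusedSectionVars false
set_option linter.unusedSimpArgs false

/-!
# The induction lemma
-/

namespace Pool.Agent.H1.FH

open Matrix TH57.Thr Pool.Agent.K4H37.MT Pool.Agent.H1.MV Pool.Agent.H1.KK

section lemA

variable {k : Type} [Ring k] {G : Type} [Group G] {ι ι' κ : Type} [Fintype ι] [DecidableEq ι]
  [Fintype ι'] [DecidableEq ι'] [Fintype κ] [DecidableEq κ] {N : KI (MonoidAlgebra k G)}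
  {α β γ : Type} [Fintype α] [DecidableEq α] [Fintype β] [DecidableEq β] [Fintype γ]
  [DecidableEq γ]

/-- the conjugate representation -/
def cj (ρ : G →* Matrix ι ι ℤ) (U : Matrix ι ι' ℤ) (U' : Matrix ι' ι ℤ) (hU : U * U' = 1)
    (hU' : U' * U = 1) : G →* Matrix ι' ι' ℤ where
  toFun g := U' * ρ g * U
  map_one' := by rw [map_one, Matrix.mul_one, hU']
  map_mul' g h := by
    rw [map_mul]
    calc U' * (ρ g * ρ h) * U = U' * ρ g * (U * U') * ρ h * U := by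
          rw [hU, Matrix.mul_one]
          simp only [Matrix.mul_assoc]
      _ = _ := by simp only [Matrix.mul_assoc]

theorem tw_block2 (e : (α ⊕ β) ≃ ι) (ρ : G →* Matrix ι ι ℤ) (U : Matrix ι (α ⊕ β) ℤ)
    (U' : Matrix (α ⊕ β) ι ℤ) (hU : U * U' = 1) (hU' : U' * U = 1)
    (ρ₁ : G →* Matrix α α ℤ) (ρ₂ : G →* Matrix β β ℤ) (B : G → Matrix α β ℤ)
    (h : ∀ g, ρ g * U = U * fromBlocks (ρ₁ g) (B g) 0 (ρ₂ g))
    (X : (Matrix κ κ (MonoidAlgebra k G))ˣ) :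
    N.car _ (twU k ρ κ X) ↔ N.car _ (blockSum (twU k ρ₁ κ X) (twU k ρ₂ κ X)) := by
  have h1 : ∀ g, cj ρ U U' hU hU' g = fromBlocks (ρ₁ g) (B g) 0 (ρ₂ g) := by
    intro g
    change U' * ρ g * U = _
    rw [Matrix.mul_assoc, h g, ← Matrix.mul_assoc, hU', Matrix.one_mul]
  rw [tw_conj e ρ (cj ρ U U' hU hU') U U' hU hU' (fun g => by rw [h1 g, h g]) X]
  exact tw_tri _ ρ₁ ρ₂ B h1 X

theorem car_tri3 {M : (Matrix (α ⊕ (β ⊕ γ)) (α ⊕ (β ⊕ γ)) (MonoidAlgebra k G))ˣ}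
    {A : (Matrix α α (MonoidAlgebra k G))ˣ} {D : (Matrix β β (MonoidAlgebra k G))ˣ}
    {E : (Matrix γ γ (MonoidAlgebra k G))ˣ} {B : Matrix α (β ⊕ γ) (MonoidAlgebra k G)}
    {C : Matrix β γ (MonoidAlgebra k G)}
    (h : M.val = fromBlocks A.val B 0 (fromBlocks D.val C 0 E.val)) (hM : N.car _ M) :
    N.car _ (blockSum A (blockSum D E)) := by
  have h1 : N.Tr (fromBlocks 1 ((D⁻¹).val * C) 0 1 : Matrix (β ⊕ γ) (β ⊕ γ) (MonoidAlgebra k G)) :=
    KI.Tr.of_triv N (Triv.upper _ Triv.one Triv.one)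
  obtain ⟨w, hw, hwN⟩ := h1
  have h2 : (blockSum D E * w).val = fromBlocks D.val C 0 E.val := by
    rw [Units.val_mul, hw]
    change fromBlocks D.val 0 0 E.val * _ = _
    rw [fromBlocks_multiply]
    simp [← Matrix.mul_assoc]
  have h' : M.val = fromBlocks A.val B 0 (blockSum D E * w).val := by
    rw [h2]
    exact h
  have h3 : blockSum A (blockSum D E) = blockSum A (blockSum D E * w) * blockSum 1 w⁻¹ := by
    rw [blockSum_mul, mul_one, mul_assoc, mul_inv_cancel, mul_one]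
  rw [h3]
  exact N.mul _ _ ((car_tri h').1 hM) (N.bsum N.one (N.inv _ hwN))

/-- the product of three matrices -/
theorem car_prod3 {A D E : (Matrix α α (MonoidAlgebra k G))ˣ}
    (h : N.car _ (blockSum A (blockSum D E))) : N.car _ (A * (D * E)) := by
  have h1 : N.car (α ⊕ α) (blockSum E⁻¹ E) := by
    have h3 := TT_blockSum_inv (U := ⊥) E⁻¹
    rw [inv_inv] at h3
    exact N.of_TT _ h3
  have h2 : blockSum A (blockSum (D * E) 1) =
      blockSum A (blockSum D E) * (blockSum 1 (blockSum E⁻¹ E))⁻¹ := by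
    rw [eq_mul_inv_iff_mul_eq, blockSum_mul, blockSum_mul, mul_one, mul_assoc, mul_inv_cancel,
      mul_one, one_mul]
  have h3 : N.car _ (blockSum A (blockSum (D * E) (1 : (Matrix α α (MonoidAlgebra k G))ˣ))) := by
    rw [h2]
    exact N.mul _ _ h (N.inv _ (N.bsum N.one h1))
  have h4 := N.re (Equiv.sumAssoc α α α) _ h3
  have h5 : Units.map (TH57.Thr.re (Equiv.sumAssoc α α α))
      (blockSum A (blockSum (D * E) (1 : (Matrix α α (MonoidAlgebra k G))ˣ))) =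
      Units.map (stm α) (blockSum A (D * E)) := by
    apply Units.ext
    ext1 i j
    rcases i with (i | i) | i <;> rcases j with (j | j) | j <;> rfl
  rw [h5] at h4
  exact car_prod.1 (N.unst _ h4)

theorem tw_tri3 (ρ : G →* Matrix (α ⊕ (β ⊕ γ)) (α ⊕ (β ⊕ γ)) ℤ) (ρ₁ : G →* Matrix α α ℤ)
    (ρ₂ : G →* Matrix β β ℤ) (ρ₃ : G →* Matrix γ γ ℤ)
    (B : G → Matrix α (β ⊕ γ) ℤ) (C : G → Matrix β γ ℤ)
    (h : ∀ g, ρ g = fromBlocks (ρ₁ g) (B g) 0 (fromBlocks (ρ₂ g) (C g) 0 (ρ₃ g)))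
    (X : (Matrix κ κ (MonoidAlgebra k G))ˣ) (hX : N.car _ (twU k ρ κ X)) :
    N.car _ (blockSum (twU k ρ₁ κ X) (blockSum (twU k ρ₂ κ X) (twU k ρ₃ κ X))) := by
  let e : ((κ × α) ⊕ ((κ × β) ⊕ (κ × γ))) ≃ (κ × (α ⊕ (β ⊕ γ))) :=
    (Equiv.sumCongr (Equiv.refl _) (Equiv.prodSumDistrib κ β γ).symm).trans
      (Equiv.prodSumDistrib κ α (β ⊕ γ)).symm
  have h1 := N.re e _ hX
  refine car_tri3 (M := Units.map (TH57.Thr.re e) (twU k ρ κ X))
    (B := Matrix.of fun p q => (twU k ρ κ X).val (e (Sum.inl p)) (e (Sum.inr q)))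
    (C := Matrix.of fun p q => (twU k ρ κ X).val (e (Sum.inr (Sum.inl p)))
      (e (Sum.inr (Sum.inr q)))) ?_ h1
  have hz : ∀ (x : MonoidAlgebra k G) (g : G), x.coeff g * (((0 : ℤ)) : k) =
      (0 : MonoidAlgebra k G).coeff g := by
    intro x g
    rw [Int.cast_zero, mul_zero]
    simp
  apply mat_ext
  rintro (p | (p | p)) (q | (q | q)) g
  · change ((twU k ρ κ X).val (p.1, Sum.inl p.2) (q.1, Sum.inl q.2)).coeff g =
      ((twU k ρ₁ κ X).val p q).coeff g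
    rw [twU_coeff, twU_coeff, h g]
    rfl
  · rfl
  · rfl
  · change ((twU k ρ κ X).val (p.1, Sum.inr (Sum.inl p.2)) (q.1, Sum.inl q.2)).coeff g =
      ((0 : MonoidAlgebra k G)).coeff g
    rw [twU_coeff, h g]
    exact hz _ _
  · change ((twU k ρ κ X).val (p.1, Sum.inr (Sum.inl p.2)) (q.1, Sum.inr (Sum.inl q.2))).coeff g =
      ((twU k ρ₂ κ X).val p q).coeff g
    rw [twU_coeff, twU_coeff, h g]
    rfl
  · rfl
  · change ((twU k ρ κ X).val (p.1, Sum.inr (Sum.inr p.2)) (q.1, Sum.inl q.2)).coeff g =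
      ((0 : MonoidAlgebra k G)).coeff g
    rw [twU_coeff, h g]
    exact hz _ _
  · change ((twU k ρ κ X).val (p.1, Sum.inr (Sum.inr p.2)) (q.1, Sum.inr (Sum.inl q.2))).coeff g =
      ((0 : MonoidAlgebra k G)).coeff g
    rw [twU_coeff, h g]
    exact hz _ _
  · change ((twU k ρ κ X).val (p.1, Sum.inr (Sum.inr p.2)) (q.1, Sum.inr (Sum.inr q.2))).coeff g =
      ((twU k ρ₃ κ X).val p q).coeff g
    rw [twU_coeff, twU_coeff, h g]
    rfl

theorem tw_block3 (e : (α ⊕ (β ⊕ γ)) ≃ ι) (ρ : G →* Matrix ι ι ℤ) (U : Matrix ι (α ⊕ (β ⊕ γ)) ℤ)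
    (U' : Matrix (α ⊕ (β ⊕ γ)) ι ℤ) (hU : U * U' = 1) (hU' : U' * U = 1)
    (ρ₁ : G →* Matrix α α ℤ) (ρ₂ : G →* Matrix β β ℤ) (ρ₃ : G →* Matrix γ γ ℤ)
    (B : G → Matrix α (β ⊕ γ) ℤ) (C : G → Matrix β γ ℤ)
    (h : ∀ g, ρ g * U = U * fromBlocks (ρ₁ g) (B g) 0 (fromBlocks (ρ₂ g) (C g) 0 (ρ₃ g)))
    (X : (Matrix κ κ (MonoidAlgebra k G))ˣ) (hX : N.car _ (twU k ρ κ X)) :
    N.car _ (blockSum (twU k ρ₁ κ X) (blockSum (twU k ρ₂ κ X) (twU k ρ₃ κ X))) := by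
  have h1 : ∀ g, cj ρ U U' hU hU' g =
      fromBlocks (ρ₁ g) (B g) 0 (fromBlocks (ρ₂ g) (C g) 0 (ρ₃ g)) := by
    intro g
    change U' * ρ g * U = _
    rw [Matrix.mul_assoc, h g, ← Matrix.mul_assoc, hU', Matrix.one_mul]
  rw [tw_conj e ρ (cj ρ U U' hU hU') U U' hU hU' (fun g => by rw [h1 g, h g]) X] at hX
  exact tw_tri3 _ ρ₁ ρ₂ ρ₃ B C h1 X hX

/-- the order of the twists -/
theorem tw_swap (ρ : G →* Matrix ι ι ℤ) (τ : G →* Matrix ι' ι' ℤ)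
    (X : (Matrix κ κ (MonoidAlgebra k G))ˣ) :
    N.car _ (twU k τ (κ × ι) (twU k ρ κ X)) ↔ N.car _ (twU k ρ (κ × ι') (twU k τ κ X)) := by
  let e : ((κ × ι) × ι') ≃ ((κ × ι') × ι) :=
    { toFun := fun x => ((x.1.1, x.2), x.1.2)
      invFun := fun x => ((x.1.1, x.2), x.1.2)
      left_inv := fun _ => rfl
      right_inv := fun _ => rfl }
  have h1 : twU k τ (κ × ι) (twU k ρ κ X) =
      Units.map (TH57.Thr.re e) (twU k ρ (κ × ι') (twU k τ κ X)) := by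
    apply Units.ext
    apply mat_ext
    intro p q g
    change _ = ((twU k ρ (κ × ι') (twU k τ κ X)).val (e p) (e q)).coeff g
    rw [twU_coeff, twU_coeff, twU_coeff, twU_coeff]
    change _ = (X.val p.1.1 q.1.1).coeff g * ((τ g p.2 q.2 : ℤ) : k) *
      ((ρ g p.1.2 q.1.2 : ℤ) : k)
    rw [mul_assoc, mul_assoc, (Int.cast_commute (ρ g p.1.2 q.1.2) ((τ g p.2 q.2 : ℤ) : k)).eq]
  rw [h1]
  constructor
  · intro h2
    have h5 := N.re e.symm _ h2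
    convert h5 using 1
    apply Units.ext
    ext1 p q
    rfl
  · exact N.re e _

/-- the stability under twisting -/
def TwS (N : KI (MonoidAlgebra k G)) : Prop :=
  ∀ (ι : Type) [Fintype ι] [DecidableEq ι] (ρ : G →* Matrix ι ι ℤ) (κ : Type) [Fintype κ]
    [DecidableEq κ] (X : (Matrix κ κ (MonoidAlgebra k G))ˣ), N.car κ X →
      N.car _ (twU k ρ κ X)

theorem pow_tw1 (n : ℕ) (Y : (Matrix κ κ (MonoidAlgebra k G))ˣ)
    (h : N.car _ ((twU k (1 : G →* Matrix Unit Unit ℤ) κ Y) ^ n)) : N.car κ (Y ^ n) := by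
  rw [← map_pow] at h
  exact (tw_one _).1 h

/-- **the lemma for `2`** -/
theorem lemA2 (hN : TwS N) (χ χ' : G →* Multiplicative (ZMod 2))
    (Y : (Matrix κ κ (MonoidAlgebra k G))ˣ)
    (h0 : N.car _ (twU k ((pm c2).comp χ') κ Y))
    (h1 : N.car _ (twU k ((pm c2).comp χ) κ Y))
    (h2 : N.car _ (twU k ((pm c2).comp (χ * χ')) κ Y)) : N.car κ (Y ^ 2) := by
  have hb : ∀ ψ : G →* Multiplicative (ZMod 2), N.car _ (twU k ((pm c2).comp ψ) κ Y) →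
      N.car _ (blockSum (twU k (1 : G →* Matrix Unit Unit ℤ) κ Y) (twU k (Z2.comp ψ) κ Y)) := by
    intro ψ hψ
    exact (tw_block2 (Equiv.refl _) _ V2 V2' V2_mul.1 V2_mul.2 1 (Z2.comp ψ) _
      (fun g => V2_pm (ψ g)) Y).1 hψ
  have a1 := hb _ h1
  have a2 := hb _ h2
  have h3 : N.car _ (twU k ((pm c2).comp χ') (κ × Unit) (twU k (Z2.comp χ) κ Y)) :=
    (tw_swap _ _ _).2 (hN _ (Z2.comp χ) _ _ h0)
  rw [tw_tens, tw_block2 (Fintype.equivOfCardEq (by decide)) _ U2 U2' U2_mul.1 U2_mul.2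
    (Z2.comp (χ * χ')) (Z2.comp χ) _ (fun g => U2_pm (χ g) (χ' g)) Y, car_prod] at h3
  have h4 := N.mul _ _ a2 a1
  rw [blockSum_mul] at h4
  have h5 := N.of_bsum h4 h3
  rw [← pow_two] at h5
  exact pow_tw1 2 Y h5

/-- **the lemma for `3`** -/
theorem lemA3 (hN : TwS N) (χ χ' : G →* Multiplicative (ZMod 3))
    (Y : (Matrix κ κ (MonoidAlgebra k G))ˣ)
    (h0 : N.car _ (twU k ((pm c3).comp χ') κ Y))
    (h1 : N.car _ (twU k ((pm c3).comp χ) κ Y))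
    (h2 : N.car _ (twU k ((pm c3).comp (χ * χ')) κ Y))
    (h2' : N.car _ (twU k ((pm c3).comp (χ * χ' * χ')) κ Y)) : N.car κ (Y ^ 3) := by
  have hb : ∀ ψ : G →* Multiplicative (ZMod 3), N.car _ (twU k ((pm c3).comp ψ) κ Y) →
      N.car _ (blockSum (twU k (1 : G →* Matrix Unit Unit ℤ) κ Y) (twU k (Z3.comp ψ) κ Y)) := by
    intro ψ hψ
    exact (tw_block2 (Equiv.refl _) _ V3 V3' V3_mul.1 V3_mul.2 1 (Z3.comp ψ) _
      (fun g => V3_pm (ψ g)) Y).1 hψ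
  have a1 := hb _ h1
  have a2 := hb _ h2
  have a3 := hb _ h2'
  have h3 : N.car _ (twU k ((pm c3).comp χ') (κ × Fin 2) (twU k (Z3.comp χ) κ Y)) :=
    (tw_swap _ _ _).2 (hN _ (Z3.comp χ) _ _ h0)
  rw [tw_tens] at h3
  have h3' := car_prod3 (tw_block3 (Fintype.equivOfCardEq (by decide)) _ U3 U3' U3_mul.1 U3_mul.2
    (Z3.comp (χ * χ' * χ')) (Z3.comp (χ * χ')) (Z3.comp χ) _ _
    (fun g => U3_pm (χ g) (χ' g)) Y h3)
  have h4 := N.mul _ _ a3 (N.mul _ _ a2 a1)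
  rw [blockSum_mul, blockSum_mul] at h4
  have h5 := N.of_bsum h4 h3'
  have h6 : twU k (1 : G →* Matrix Unit Unit ℤ) κ Y * (twU k (1 : G →* Matrix Unit Unit ℤ) κ Y *
      twU k (1 : G →* Matrix Unit Unit ℤ) κ Y) = (twU k (1 : G →* Matrix Unit Unit ℤ) κ Y) ^ 3 := by
    rw [pow_succ, pow_two, mul_assoc]
  rw [h6] at h5
  exact pow_tw1 3 Y h5

end lemA

end Pool.Agent.H1.FH
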