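import Pool.Agent.H1.FH.Ctrl

set_option autoImplicit false
set_option linter.unusedSectionVars false
set_option linter.unusedSimpArgs false

/-!
# Nilpotent matrices over the line
-/

namespace Pool.Agent.H1.FH

open Matrix TH57.Thr Pool.Agent.K4H37.MT Pool.Agent.H1.MV Pool.Agent.H1.KK

section nil

variable {k : Type} [Ring k] {G : Type} [Group G] [MulAction G ℤ]
  {N : KI (MonoidAlgebra k G)}

/-- the displacement of edges with the same orientation -/
def Rc (S : ℤ → Prop) (q p : ℤ × ℤ) : Prop :=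
  (q.2 = q.1 + 1 → p.2 = p.1 + 1 → S (q.1 - p.1)) ∧
  (q.2 + 1 = q.1 → p.2 + 1 = p.1 → S (p.1 - q.1))

theorem nb_line {p q : ℤ × ℤ} (h : nb lineG p q) :
    (p.2 = p.1 + 1 ∧ q.1 = p.1 + 1 ∧ q.2 = p.1 + 2) ∨
    (p.2 + 1 = p.1 ∧ q.1 + 1 = p.1 ∧ q.2 + 2 = p.1) := by
  obtain ⟨h1, h2, h3, h4⟩ := h
  rw [lineG_adj] at h1 h2
  omega

theorem line_nil0 (c : G → ℤ) (hsm : ∀ (g : G) (x : ℤ), g • x = x + 2 * c g)
    (J : Type) [Fintype J] [DecidableEq J] (σ : J → ℤ × ℤ)
    (x y : Matrix J J (MonoidAlgebra k G)) (hx : Ty σ σ (fun q p => nb lineG p q) x)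
    (hy : Ty σ σ SE y) (hyx : y * (1 + x) = 1) : N.Tr (1 + x) := by
  classical
  have hsm2 : ∀ (g : G) (q : ℤ × ℤ), g • q = (q.1 + 2 * c g, q.2 + 2 * c g) := by
    intro g q
    exact Prod.ext (hsm g q.1) (hsm g q.2)
  have hRinv : ∀ S : ℤ → Prop, GInv G (Rc S) := by
    rintro S g q p ⟨h1, h2⟩
    rw [hsm2, hsm2]
    constructor
    · intro e1 e2
      change q.2 + 2 * c g = q.1 + 2 * c g + 1 at e1
      change p.2 + 2 * c g = p.1 + 2 * c g + 1 at e2
      change S (q.1 + 2 * c g - (p.1 + 2 * c g))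
      have := h1 (by omega) (by omega)
      convert this using 1
      omega
    · intro e1 e2
      change q.2 + 2 * c g + 1 = q.1 + 2 * c g at e1
      change p.2 + 2 * c g + 1 = p.1 + 2 * c g at e2
      change S (p.1 + 2 * c g - (q.1 + 2 * c g))
      have := h2 (by omega) (by omega)
      convert this using 1
      omega
  have hmul : ∀ (S : ℤ → Prop) (z : Matrix J J (MonoidAlgebra k G)), Ty σ σ (Rc S) z →
      Ty σ σ (Rc fun n => S (n - 1)) (z * x) := by
    intro S z hz
    refine hz.mul hx (hRinv S) ?_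
    rintro q m p ⟨h1, h2⟩ h3
    rcases nb_line h3 with ⟨e1, e2, e3⟩ | ⟨e1, e2, e3⟩
    · constructor
      · intro e4 _
        have := h1 e4 (by omega)
        convert this using 1
        omega
      · intro _ e5
        omega
    · constructor
      · intro _ e5
        omega
      · intro e4 _
        have := h2 e4 (by omega)
        convert this using 1
        omega
  have hy1 : y = 1 - y * x := by
    rw [← hyx]
    rw [Matrix.mul_add, Matrix.mul_one]
    abel
  have hySE : Ty σ σ (Rc fun n => n = -1 ∨ n = 0 ∨ n = 1) y := by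
    refine hy.mono ?_
    rintro q p (h | h | h | h)
    · exact ⟨fun _ _ => by omega, fun _ _ => by omega⟩
    · exact ⟨fun _ _ => by omega, fun _ _ => by omega⟩
    · exact ⟨fun _ _ => by omega, fun _ _ => by omega⟩
    · exact ⟨fun _ _ => by omega, fun _ _ => by omega⟩
  have h1ty : Ty σ σ (Rc fun n => n = 0) (1 : Matrix J J (MonoidAlgebra k G)) := by
    refine Ty.one.mono ?_
    rintro q p rfl
    exact ⟨fun _ _ => by omega, fun _ _ => by omega⟩
  have hmono : ∀ (S S' : ℤ → Prop) (z : Matrix J J (MonoidAlgebra k G)), Ty σ σ (Rc S) z →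
      (∀ n, S n → S' n) → Ty σ σ (Rc S') z := by
    intro S S' z hz h
    exact hz.mono fun q p hqp => ⟨fun a b => h _ (hqp.1 a b), fun a b => h _ (hqp.2 a b)⟩
  have hy2 : Ty σ σ (Rc fun n => n = 0 ∨ n = 1) y := by
    have h2 : Ty σ σ (Rc fun n => n = 0 ∨ n = 1 ∨ n = 2) y := by
      rw [hy1]
      refine Ty.sub (hmono _ _ _ h1ty fun n h => Or.inl h) ?_
      refine hmono _ _ _ (hmul _ _ hySE) fun n h => ?_
      omega
    intro j l g hg
    have a1 := h2 j l g hg
    have a2 := hySE j l g hg
    refine ⟨fun e1 e2 => ?_, fun e1 e2 => ?_⟩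
    · have b1 := a1.1 e1 e2
      have b2 := a2.1 e1 e2
      omega
    · have b1 := a1.2 e1 e2
      have b2 := a2.2 e1 e2
      omega
  have hxx : x * x = 0 := by
    have e1 : x * x = y - 1 + x + y * x * x * x := by
      have a1 : y * x = x - y * x * x := by
        calc y * x = (1 - y * x) * x := by rw [← hy1]
          _ = x - y * x * x := by rw [Matrix.sub_mul, Matrix.one_mul]
      have a2 : y * x * x = x * x - y * x * x * x := by
        calc y * x * x = (x - y * x * x) * x := by rw [← a1]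
          _ = _ := by rw [Matrix.sub_mul]
      have a3 : y = 1 - (x - (x * x - y * x * x * x)) := by
        calc y = 1 - y * x := hy1
          _ = 1 - (x - y * x * x) := by rw [← a1]
          _ = _ := by rw [← a2]
      calc x * x = (1 - (x - (x * x - y * x * x * x))) - 1 + x + y * x * x * x := by abel
        _ = _ := by rw [← a3]
    have t1 : Ty σ σ (fun q p => (q.2 = q.1 + 1 ∧ p.2 = p.1 + 1 ∧ q.1 - p.1 = 2) ∨
        (q.2 + 1 = q.1 ∧ p.2 + 1 = p.1 ∧ p.1 - q.1 = 2)) (x * x) := by
      refine hx.mul hx ?_ ?_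
      · intro g q p h
        obtain ⟨h1, h2, h3, h4⟩ := h
        rw [lineG_adj] at h1 h2
        rw [hsm2, hsm2]
        refine ⟨?_, ?_, ?_, ?_⟩
        · rw [lineG_adj]
          change p.2 + 2 * c g = p.1 + 2 * c g + 1 ∨ p.1 + 2 * c g = p.2 + 2 * c g + 1
          omega
        · rw [lineG_adj]
          change q.2 + 2 * c g = q.1 + 2 * c g + 1 ∨ q.1 + 2 * c g = q.2 + 2 * c g + 1
          omega
        · change q.1 + 2 * c g = p.2 + 2 * c g
          omega
        · change q.2 + 2 * c g ≠ p.1 + 2 * c g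
          omega
      · intro q m p h h'
        have h1 := nb_line h
        have h2 := nb_line h'
        omega
    have t2 : Ty σ σ (Rc fun n => n = 0 ∨ n = 1 ∨ n = 3 ∨ n = 4) (x * x) := by
      rw [e1]
      refine Ty.add (Ty.add (Ty.sub ?_ ?_) ?_) ?_
      · exact hmono _ _ _ hy2 fun n h => by omega
      · exact hmono _ _ _ h1ty fun n h => by omega
      · refine hx.mono ?_
        intro q p h
        have h1 := nb_line h
        exact ⟨fun _ _ => by omega, fun _ _ => by omega⟩
      · refine hmono _ _ _ (hmul _ _ (hmul _ _ (hmul _ _ hy2))) fun n h => by omega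
    refine Ty.eq_zero t1 t2 ?_
    rintro q p (⟨h1, h2, h3⟩ | ⟨h1, h2, h3⟩) ⟨h4, h5⟩
    · have := h4 h1 h2
      omega
    · have := h5 h1 h2
      omega
  -- the parity
  obtain ⟨P, hP⟩ : ∃ P : Matrix J J (MonoidAlgebra k G),
    P = Matrix.diagonal fun j => if (σ j).1 % 2 = 0 then 1 else 0 := ⟨_, rfl⟩
  have hPP : P * P = P := by
    rw [hP, Matrix.diagonal_mul_diagonal]
    congr 1
    funext j
    split_ifs <;> simp
  have hpar : ∀ i j, x i j ≠ 0 → ((σ i).1 % 2 = 0 ↔ ¬ (σ j).1 % 2 = 0) := by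
    intro i j hij
    have : ∃ g, (x i j).coeff g ≠ 0 := by
      by_contra hcon
      push Not at hcon
      apply hij
      apply MonoidAlgebra.coeff_injective
      ext g
      exact hcon g
    obtain ⟨g, hg⟩ := this
    have h1 := nb_line (hx i j g hg)
    have h2 : (g⁻¹ • σ i).1 = (σ i).1 + 2 * c g⁻¹ := by rw [hsm2]
    rw [h2] at h1
    omega
  have hP0 : P * x * P = 0 := by
    ext1 i j
    rw [hP, Matrix.mul_diagonal, Matrix.diagonal_mul, Matrix.zero_apply]
    by_cases h : x i j = 0
    · rw [h]; simp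
    · have := hpar i j h
      split_ifs with h1 h2
      · exact absurd h2 (this.1 h1)
      · simp
      · simp
      · simp
  have hP1 : (1 - P) * x * (1 - P) = 0 := by
    have h1P : (1 : Matrix J J (MonoidAlgebra k G)) - P =
        Matrix.diagonal fun j => if (σ j).1 % 2 = 0 then 0 else 1 := by
      rw [hP, ← Matrix.diagonal_one, Matrix.diagonal_sub]
      congr 1
      funext j
      split_ifs <;> simp
    ext1 i j
    rw [h1P, Matrix.mul_diagonal, Matrix.diagonal_mul, Matrix.zero_apply]
    by_cases h : x i j = 0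
    · rw [h]; simp
    · have := hpar i j h
      split_ifs with h1 h2 h2
      · simp
      · simp
      · simp
      · exact absurd (this.2 h2) h1
  have hdec : x = P * x * (1 - P) + (1 - P) * x * P := by
    have : x = P * x * P + P * x * (1 - P) + ((1 - P) * x * P + (1 - P) * x * (1 - P)) := by
      simp only [Matrix.mul_sub, Matrix.sub_mul, Matrix.one_mul, Matrix.mul_one]
      abel
    rw [hP0, hP1, zero_add, add_zero] at this
    exact this
  have hprod : P * x * (1 - P) * ((1 - P) * x * P) = 0 := by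
    have e1 : (1 - P) * (1 - P) = 1 - P := one_sub_idem hPP
    calc P * x * (1 - P) * ((1 - P) * x * P) = P * x * ((1 - P) * (1 - P)) * x * P := by
          simp only [Matrix.mul_assoc]
      _ = P * x * (1 - P) * x * P := by rw [e1]
      _ = P * (x * x) * P - P * x * P * x * P := by
          simp only [Matrix.mul_sub, Matrix.sub_mul, Matrix.mul_one, Matrix.mul_assoc]
      _ = 0 := by rw [hxx, hP0]; simp
  have hfac : 1 + x = (1 + P * x * (1 - P)) * (1 + (1 - P) * x * P) := by
    rw [Matrix.add_mul, Matrix.one_mul, Matrix.mul_add, Matrix.mul_one, hprod, add_zero]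
    nth_rewrite 1 [hdec]
    abel
  have e2 : (1 - P) * P = 0 := by rw [Matrix.sub_mul, Matrix.one_mul, hPP, sub_self]
  have e3 : P * (1 - P) = 0 := by rw [Matrix.mul_sub, Matrix.mul_one, hPP, sub_self]
  rw [hfac]
  refine KI.Tr.mul ?_ ?_
  · apply KI.Tr.uv (P * x) (1 - P)
    rw [← Matrix.mul_assoc, e2, Matrix.zero_mul, add_zero]
    exact KI.Tr.one
  · apply KI.Tr.uv ((1 - P) * x) P
    rw [← Matrix.mul_assoc, e3, Matrix.zero_mul, add_zero]
    exact KI.Tr.one

end nil

end Pool.Agent.H1.FH
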