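import Pool.Agent.H1.FH.Fy

set_option autoImplicit false
set_option linter.unusedSectionVars false
set_option linter.unusedSimpArgs false
set_option linter.style.haveILetI false

/-!
# Nilpotent groups, central extensions, nice kernels
-/

namespace Pool.Agent.H1.FH

open Matrix Pool.Agent.H1.MV Pool.Agent.H1.MK Pool.Agent.H1.KK

/-- finitely generated torsion-free abelian groups -/
theorem fa_of_fg {A : Type} [Group A] (hc : ∀ x y : A, x * y = y * x) (hT : TF A)
    (hfg : Group.FG A) : FA A := by
  letI : CommGroup A := { (inferInstance : Group A) with mul_comm := hc }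
  have h1 : Module.Finite ℤ (Additive A) :=
    Module.Finite.iff_addGroup_fg.2 (GroupFG.iff_add_fg.1 hfg)
  have h2 : IsAddTorsionFree (Additive A) := by
    refine ⟨fun n hn a b hab => ?_⟩
    have h3 : (Additive.toMul a) ^ n = (Additive.toMul b) ^ n := hab
    have h4 : (Additive.toMul a * (Additive.toMul b)⁻¹) ^ n = 1 := by
      rw [mul_pow, inv_pow, h3, mul_inv_cancel]
    have h5 := hT _ n (Nat.pos_of_ne_zero hn) h4
    exact Additive.toMul.injective (mul_inv_eq_one.1 h5)
  have h3 : Module.Free ℤ (Additive A) := Module.free_of_finite_type_torsion_free'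
  let b := Module.finBasis ℤ (Additive A)
  let e2 : Additive A ≃+ (Fin (Module.finrank ℤ (Additive A)) → ℤ) := b.equivFun.toAddEquiv
  exact ⟨_, ⟨AddEquiv.toMultiplicativeRight e2⟩⟩

/-- a group is the union of its finitely generated subgroups -/
theorem dc_fg (B : Type) [Group B] : DC (I := Finset B)
    (fun s => Subgroup.closure (s : Set B))
    (fun s t h => Subgroup.inclusion (Subgroup.closure_mono (Finset.coe_subset.2 h)))
    (fun s => (Subgroup.closure (s : Set B)).subtype) where
  nonempty := ⟨∅⟩
  directed s t := by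
    classical
    exact ⟨s ∪ t, Finset.subset_union_left, Finset.subset_union_right⟩
  trans _ _ _ _ _ _ := rfl
  comp _ _ _ _ := rfl
  surj g := ⟨{g}, ⟨g, Subgroup.subset_closure (by simp)⟩, rfl⟩
  inj s x hx := ⟨s, le_rfl, by
    apply Subtype.ext
    exact hx⟩

section fy

variable {W : ∀ (G : Type) [Group G], Prop} (hW : TClsP W) {B : Type} [Group B]

include hW

/-- torsion-free abelian groups -/
theorem TClsP.fy_ab (hc : ∀ x y : B, x * y = y * x) (hT : TF B) : Fy W B := by
  refine hW.fy_colim (dc_fg B) ?_ ?_
  · intro s x n _ _ h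
    exact Subtype.ext h
  · intro s
    apply hW.fy_fa
    refine fa_of_fg ?_ (hT.inj _ (Subgroup.subtype_injective _)) (Group.closure_finset_fg s)
    intro x y
    exact Subtype.ext (hc _ _)

/-- **Central extensions** -/
theorem TClsP.fy_central (hT : TF B) {L : Type} [Group L] (π : B →* L)
    (hz : π.ker ≤ Subgroup.center B) (hL : Fy W L) : Fy W B := by
  refine hW.fy_ext π hL ?_
  intro A hA
  let F : A.comap π →* A :=
    { toFun := fun x => ⟨π x.1, x.2⟩
      map_one' := Subtype.ext (map_one π)
      map_mul' := fun x y => Subtype.ext (map_mul π _ _) }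
  have hF : F.ker ≤ Subgroup.center (A.comap π) := by
    intro x hx
    have h1 : π x.1 = 1 := congrArg Subtype.val ((MonoidHom.mem_ker).1 hx)
    have h2 := hz ((MonoidHom.mem_ker).2 h1)
    rw [Subgroup.mem_center_iff] at h2 ⊢
    intro y
    exact Subtype.ext (h2 y.1)
  exact hW.fy_ab (fun x y => commutative_of_cyclic_center_quotient F hF x y)
    (hT.inj _ (Subgroup.subtype_injective _))

/-- **Torsion-free nilpotent groups** -/
theorem TClsP.fy_nilpotent [Group.IsNilpotent B] (hT : TF B) : Fy W B := by
  have key : TF (Subgroup.center B) → TF B ∧ Fy W B := by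
    refine nilpotent_center_quotient_ind
      (P := fun G [Group G] [Group.IsNilpotent G] => TF (Subgroup.center G) → TF G ∧ Fy W G) B
      ?_ ?_
    · intro G _ _ _
      refine ⟨fun x n _ _ => Subsingleton.elim _ _, ?_⟩
      apply hW.fy_cyc
      exact ⟨⟨1, fun x => ⟨0, Subsingleton.elim _ _⟩⟩⟩
    · intro G _ _ ih hZ
      have hZ2 : TF (Subgroup.center (G ⧸ Subgroup.center G)) := by
        rintro ⟨x', hx'⟩ n hn hxn
        obtain ⟨x, rfl⟩ := QuotientGroup.mk_surjective x'
        have h1 : x ^ n ∈ Subgroup.center G := by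
          have h2 : ((x : G ⧸ Subgroup.center G)) ^ n = 1 := congrArg Subtype.val hxn
          rw [← QuotientGroup.mk_pow, QuotientGroup.eq_one_iff] at h2
          exact h2
        apply Subtype.ext
        change ((x : G ⧸ Subgroup.center G)) = 1
        rw [QuotientGroup.eq_one_iff, Subgroup.mem_center_iff]
        intro y
        have h3 : x⁻¹ * (y * x * y⁻¹) ∈ Subgroup.center G := by
          rw [← QuotientGroup.eq_one_iff]
          have h4 := (Subgroup.mem_center_iff.1 hx') (y : G ⧸ Subgroup.center G)
          rw [QuotientGroup.mk_mul, QuotientGroup.mk_mul, QuotientGroup.mk_mul, h4,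
            QuotientGroup.mk_inv, QuotientGroup.mk_inv]
          group
        have h5 : (x * (x⁻¹ * (y * x * y⁻¹))) ^ n = x ^ n * (x⁻¹ * (y * x * y⁻¹)) ^ n := by
          apply Commute.mul_pow
          exact (Subgroup.mem_center_iff.1 h3) x
        have h6 : x * (x⁻¹ * (y * x * y⁻¹)) = y * x * y⁻¹ := by group
        rw [h6, conj_pow, (Subgroup.mem_center_iff.1 h1) y, mul_inv_cancel_right] at h5
        have h7 : (x⁻¹ * (y * x * y⁻¹)) ^ n = 1 := (left_eq_mul.1 h5)
        have h8 := hZ ⟨_, h3⟩ n hn (Subtype.ext h7)
        have h9 : x⁻¹ * (y * x * y⁻¹) = 1 := congrArg Subtype.val h8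
        rw [inv_mul_eq_one] at h9
        rw [← mul_inv_eq_iff_eq_mul, ← h9]
      obtain ⟨hT', hF⟩ := ih hZ2
      have hTG : TF G := by
        intro x n hn hx
        have h1 := hT' (x : G ⧸ Subgroup.center G) n hn (by
          rw [← QuotientGroup.mk_pow, hx]
          rfl)
        rw [QuotientGroup.eq_one_iff] at h1
        have h2 := hZ ⟨x, h1⟩ n hn (Subtype.ext hx)
        exact congrArg Subtype.val h2
      exact ⟨hTG, hW.fy_central hTG (QuotientGroup.mk' (Subgroup.center G))
        (by rw [QuotientGroup.ker_mk']) hF⟩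
  exact (key (hT.inj _ (Subgroup.subtype_injective _))).2

end fy

section nice

variable {P N : ∀ (G : Type) [Group G], Prop} (hP : BaseP P N) {B : Type} [Group B]

include hP

/-- **regular coherent kernels** -/
theorem BaseP.nice_ker (hB : Fy (St P) B) {G : Type} [Group G] (f : G →* B)
    (hN : ∀ n, N (f.ker × Zp n))
    (hfin : ∀ C : Subgroup B, IsCyclic C → Finite C → St P (C.comap f)) : St P G := by
  refine hB G f ?_
  intro C hC
  rcases cyc_cases hC with ⟨n, hn, hy⟩ | ⟨e, he⟩
  · apply hfin C hC
    obtain ⟨g, hg⟩ := hC.exists_generator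
    have h1 : IsOfFinOrder g := isOfFinOrder_iff_pow_eq_one.2 ⟨n, hn, hy g⟩
    have h2 : (Subgroup.zpowers g : Set C) = Set.univ := Set.eq_univ_of_forall hg
    have h3 : (Subgroup.zpowers g : Set C).Finite := h1.finite_zpowers
    rw [h2, Set.finite_univ_iff] at h3
    exact h3
  · let q : C.comap f →* Multiplicative ℤ :=
      e.comp
      { toFun := fun x => ⟨f x.1, x.2⟩
        map_one' := Subtype.ext (map_one f)
        map_mul' := fun x y => Subtype.ext (map_mul f _ _) }
    have hq : ∀ x : C.comap f, Multiplicative.toAdd (q x) = 0 → f x.1 = 1 := by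
      intro x hx
      have h1 : e ⟨f x.1, x.2⟩ = 1 := Multiplicative.toAdd.injective hx
      rw [← map_one e] at h1
      exact congrArg Subtype.val (he h1)
    letI : MulAction (C.comap f) ℤ :=
      { smul := fun g x => x + Multiplicative.toAdd (q g)
        one_smul := fun x => by
          change x + Multiplicative.toAdd (q 1) = x
          rw [map_one, toAdd_one, add_zero]
        mul_smul := fun g h x => by
          change x + Multiplicative.toAdd (q (g * h)) =
            x + Multiplicative.toAdd (q h) + Multiplicative.toAdd (q g)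
          rw [map_mul, toAdd_mul]
          ring }
    have hsm : ∀ (g : C.comap f) (x : ℤ), g • x = x + Multiplicative.toAdd (q g) :=
      fun _ _ => rfl
    have hbot : St P ((⊥ : Subgroup B).comap f) := by
      apply hfin
      · exact ⟨⟨1, fun x => ⟨0, Subsingleton.elim _ _⟩⟩⟩
      · infer_instance
    refine hP.base.st_tree (T := lineG) lineG_tree ?_ ?_ ?_ ?_
    · intro g v w h
      rw [lineG_adj] at h ⊢
      rw [hsm, hsm]
      omega
    · intro g v w h
      rw [lineG_adj] at h
      rw [hsm, hsm]
      omega
    · intro v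
      have hv : ∀ x : MulAction.stabilizer (C.comap f) v, f x.1.1 = 1 := by
        intro x
        apply hq
        have h1 : x.1 • v = v := x.2
        rw [hsm] at h1
        omega
      let j : MulAction.stabilizer (C.comap f) v →* (⊥ : Subgroup B).comap f :=
        { toFun := fun x => ⟨x.1.1, hv x⟩
          map_one' := rfl
          map_mul' := fun _ _ => rfl }
      refine hP.base.st_inj hbot j ?_
      intro x y hxy
      have h1 : (j x).1 = (j y).1 := congrArg Subtype.val hxy
      exact Subtype.ext (Subtype.ext h1)
    · intro p _ _ d _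
      refine ⟨0, Or.inr (Or.inl ?_)⟩
      intro n
      have hv : ∀ x : Fx (C.comap f) 0 p, f x.1.1 = 1 := by
        intro x
        apply hq
        have h1 : x.1 • p 0 = p 0 := x.2 0 le_rfl
        rw [hsm] at h1
        omega
      let j : Fx (C.comap f) 0 p × Zp n →* f.ker × Zp n :=
        { toFun := fun x => (⟨x.1.1.1, hv x.1⟩, x.2)
          map_one' := rfl
          map_mul' := fun _ _ => rfl }
      refine hP.base.nuse (hN n) j ?_
      intro x y hxy
      have h1 : (j x).1 = (j y).1 := congrArg Prod.fst hxy
      have h2 : (j x).2 = (j y).2 := congrArg Prod.snd hxy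
      have h3 : (j x).1.1 = (j y).1.1 := congrArg Subtype.val h1
      exact Prod.ext (Subtype.ext (Subtype.ext h3)) h2

end nice

end Pool.Agent.H1.FH
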