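import Pool.Agent.H1.FH.Nilp

set_option autoImplicit false
set_option linter.unusedSectionVars false
set_option linter.unusedSimpArgs false
set_option linter.style.haveILetI false

/-!
# Actions on trees over a group of the fibered class
-/

namespace Pool.Agent.H1.FH

open Matrix Pool.Agent.H1.MV Pool.Agent.H1.MK Pool.Agent.H1.KK

section ovr

variable {W : ∀ (G : Type) [Group G], Prop} (hW : TClsP W) {B : Type} [Group B]
  {G V : Type} [Group G] [MulAction G V] {T : SimpleGraph V}

/-- the subgroup generated by an abelian subgroup and an element which centralises it -/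
theorem closure_comm {K : Type} [Group K] (Q : Subgroup K) (h : K)
    (hQ : ∀ x ∈ Q, ∀ y ∈ Q, x * y = y * x) (hh : ∀ x ∈ Q, h * x = x * h) :
    ∀ x y : Subgroup.closure ((Q : Set K) ∪ {h}), x * y = y * x := by
  have h1 : ∀ x ∈ Subgroup.closure ((Q : Set K) ∪ {h}),
      ∀ y ∈ Subgroup.closure ((Q : Set K) ∪ {h}), x * y = y * x := by
    have key : ∀ a ∈ ((Q : Set K) ∪ {h}), ∀ b ∈ ((Q : Set K) ∪ {h}), a * b = b * a := by
      rintro a (ha | ha) b (hb | hb)
      · exact hQ a ha b hb
      · have hb' : b = h := hb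
        rw [hb']
        exact (hh a ha).symm
      · have ha' : a = h := ha
        rw [ha']
        exact hh b hb
      · have ha' : a = h := ha
        have hb' : b = h := hb
        rw [ha', hb']
    intro x hx
    have h2 : ∀ b ∈ ((Q : Set K) ∪ {h}), x * b = b * x := by
      intro b hb
      induction hx using Subgroup.closure_induction with
      | mem a ha => exact key a ha b hb
      | one => rw [one_mul, mul_one]
      | mul a a' _ _ h3 h4 => rw [mul_assoc, h4, ← mul_assoc, h3, mul_assoc]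
      | inv a _ h3 => rw [inv_mul_eq_iff_eq_mul, ← mul_assoc, h3, mul_inv_cancel_right]
    intro y hy
    induction hy using Subgroup.closure_induction with
    | mem a ha => exact h2 a ha
    | one => rw [one_mul, mul_one]
    | mul a a' _ _ h3 h4 => rw [← mul_assoc, h3, mul_assoc, h4, mul_assoc]
    | inv a _ h3 => rw [eq_inv_mul_iff_mul_eq, ← mul_assoc, ← h3, mul_inv_cancel_right]
  intro x y
  exact Subtype.ext (h1 x.1 x.2 y.1 y.2)

/-- the key step: the groups which are generated by stabilisers of segments and translations -/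
theorem seg_comm {K : Type} [Group K] [MulAction K V] {D : Type} [Group D]
    (hD : ∀ x y : D, x * y = y * x) (f : K →* D) (p : ℕ → V) (n d : ℕ)
    (hinj : ∀ x ∈ Fx K n p, ∀ y ∈ Fx K n p, f x = f y → x = y) (h : K)
    (hh : ∀ i ≤ n + d, h • p (i + d) = p i) :
    ∀ x y : Subgroup.closure ((Fx K (n + d) p : Set K) ∪ {h}), x * y = y * x := by
  have hle : ∀ x ∈ Fx K (n + d) p, x ∈ Fx K n p := by
    intro x hx i hi
    exact hx i (by omega)
  apply closure_comm
  · intro x hx y hy
    apply hinj _ (mul_mem (hle x hx) (hle y hy)) _ (mul_mem (hle y hy) (hle x hx))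
    rw [map_mul, map_mul, hD]
  · intro x hx
    have h1 : h * x * h⁻¹ ∈ Fx K n p := by
      intro i hi
      have h2 : h⁻¹ • p i = p (i + d) := by
        rw [inv_smul_eq_iff]
        exact (hh i (by omega)).symm
      rw [mul_smul, mul_smul, h2, hx (i + d) (by omega)]
      exact hh i (by omega)
    have h3 : h * x * h⁻¹ = x := by
      apply hinj _ h1 _ (hle x hx)
      rw [map_mul, map_mul, hD (f h * f x), ← mul_assoc, ← map_mul, inv_mul_cancel, map_one,
        one_mul]
    rw [mul_inv_eq_iff_eq_mul] at h3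
    exact h3

/-- the preimages of the abelian subgroups -/
theorem TCls.ovr_ab (hc : TCls W) (hab : ∀ (A : Type) [Group A], (∀ x y : A, x * y = y * x) →
      TF A → W A)
    (hT : T.IsTree)
    (hact : ∀ (g : G) (v w : V), T.Adj v w → T.Adj (g • v) (g • w))
    (hinv : ∀ (g : G) (v w : V), T.Adj v w → ¬ (g • v = w ∧ g • w = v))
    (hV : ∀ v : V, W (MulAction.stabilizer G v)) (htf : TF G) (f : G →* B)
    (hf : ∀ p : ℕ → V, (∀ i, T.Adj (p i) (p (i + 1))) → (∀ i, p (i + 2) ≠ p i) →
      ∃ n, ∀ x ∈ Fx G n p, f x = 1 → x = 1)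
    (C : Subgroup B) (hC : ∀ x y : C, x * y = y * x) : W (C.comap f) := by
  let F : C.comap f →* C :=
    { toFun := fun x => ⟨f x.1, x.2⟩
      map_one' := Subtype.ext (map_one f)
      map_mul' := fun x y => Subtype.ext (map_mul f _ _) }
  refine hc.tree (C.comap f) V T hT (fun g v w h => hact g.1 v w h)
    (fun g v w h => hinv g.1 v w h) ?_ ?_
  · intro v
    let j : MulAction.stabilizer (C.comap f) v →* MulAction.stabilizer G v :=
      { toFun := fun x => ⟨x.1.1, x.2⟩
        map_one' := rfl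
        map_mul' := fun _ _ => rfl }
    refine hc.inj _ _ j ?_ (hV v)
    intro x y hxy
    have h1 : (j x).1 = (j y).1 := congrArg Subtype.val hxy
    exact Subtype.ext (Subtype.ext h1)
  · intro p h1 h2 d hd
    obtain ⟨n, hn⟩ := hf p h1 h2
    refine ⟨n + d, ?_⟩
    intro h hh
    apply hab
    · refine seg_comm hC F p n d ?_ h hh
      intro x hx y hy hxy
      have h3 : f x.1 = f y.1 := congrArg Subtype.val hxy
      have h4 : f (x.1 * (y.1)⁻¹) = 1 := by
        rw [map_mul, map_inv, h3, mul_inv_cancel]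
      have h5 : x.1 * (y.1)⁻¹ ∈ Fx G n p := (Fx G n p).mul_mem hx ((Fx G n p).inv_mem hy)
      exact Subtype.ext (mul_inv_eq_one.1 (hn _ h5 h4))
    · exact (htf.inj (C.comap f).subtype (Subgroup.subtype_injective _)).inj _
        (Subgroup.subtype_injective _)

include hW

theorem TClsP.w_ab {A : Type} [Group A] (hc : ∀ x y : A, x * y = y * x) (hT : TF A) : W A :=
  hW.fy_self (hW.fy_ab hc hT) hT

/-- **Trees over the fibered class** -/
theorem TClsP.ovr (hB : Fy W B) (hT : T.IsTree)
    (hact : ∀ (g : G) (v w : V), T.Adj v w → T.Adj (g • v) (g • w))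
    (hinv : ∀ (g : G) (v w : V), T.Adj v w → ¬ (g • v = w ∧ g • w = v))
    (hV : ∀ v : V, W (MulAction.stabilizer G v)) (htf : TF G) (f : G →* B)
    (hf : ∀ p : ℕ → V, (∀ i, T.Adj (p i) (p (i + 1))) → (∀ i, p (i + 2) ≠ p i) →
      ∃ n, ∀ x ∈ Fx G n p, f x = 1 → x = 1) : W G := by
  refine hB G f ?_
  intro C hC
  refine TCls.ovr_ab hW.tcls (fun A _ h1 h2 => hW.w_ab h1 h2) hT hact hinv hV htf f hf C ?_
  letI := hC.commGroup
  exact fun x y => mul_comm x y

/-- the fibered class is closed under tree actions -/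
theorem TClsP.fy_tcls_tree (hT : T.IsTree)
    (hact : ∀ (g : G) (v w : V), T.Adj v w → T.Adj (g • v) (g • w))
    (hinv : ∀ (g : G) (v w : V), T.Adj v w → ¬ (g • v = w ∧ g • w = v))
    (hV : ∀ v : V, Fy W (MulAction.stabilizer G v)) (htf : TF G) (f : G →* B)
    (hf : ∀ p : ℕ → V, (∀ i, T.Adj (p i) (p (i + 1))) → (∀ i, p (i + 2) ≠ p i) →
      ∃ n, ∀ x ∈ Fx G n p, f x = 1 → x = 1)
    (C : Subgroup B) (hC : ∀ x y : C, x * y = y * x) : Fy W (C.comap f) := by
  let F : C.comap f →* C :=
    { toFun := fun x => ⟨f x.1, x.2⟩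
      map_one' := Subtype.ext (map_one f)
      map_mul' := fun x y => Subtype.ext (map_mul f _ _) }
  refine hW.fy_tree (B := C.comap f) (V := V) hT (fun g v w h => hact g.1 v w h)
    (fun g v w h => hinv g.1 v w h) ?_ ?_
  · intro v
    let j : MulAction.stabilizer (C.comap f) v →* MulAction.stabilizer G v :=
      { toFun := fun x => ⟨x.1.1, x.2⟩
        map_one' := rfl
        map_mul' := fun _ _ => rfl }
    refine hW.fy_inj j ?_ (hV v)
    intro x y hxy
    have h1 : (j x).1 = (j y).1 := congrArg Subtype.val hxy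
    exact Subtype.ext (Subtype.ext h1)
  · intro p h1 h2 d hd
    obtain ⟨n, hn⟩ := hf p h1 h2
    refine ⟨n + d, ?_⟩
    intro h hh
    apply hW.fy_ab
    · refine seg_comm hC F p n d ?_ h hh
      intro x hx y hy hxy
      have h3 : f x.1 = f y.1 := congrArg Subtype.val hxy
      have h4 : f (x.1 * (y.1)⁻¹) = 1 := by
        rw [map_mul, map_inv, h3, mul_inv_cancel]
      have h5 : x.1 * (y.1)⁻¹ ∈ Fx G n p := (Fx G n p).mul_mem hx ((Fx G n p).inv_mem hy)
      exact Subtype.ext (mul_inv_eq_one.1 (hn _ h5 h4))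
    · exact (htf.inj (C.comap f).subtype (Subgroup.subtype_injective _)).inj _
        (Subgroup.subtype_injective _)

/-- **Trees over the fibered class**, fibered version -/
theorem TClsP.fy_ovr (hB : Fy W B) (hT : T.IsTree)
    (hact : ∀ (g : G) (v w : V), T.Adj v w → T.Adj (g • v) (g • w))
    (hinv : ∀ (g : G) (v w : V), T.Adj v w → ¬ (g • v = w ∧ g • w = v))
    (hV : ∀ v : V, Fy W (MulAction.stabilizer G v)) (htf : TF G) (f : G →* B)
    (hf : ∀ p : ℕ → V, (∀ i, T.Adj (p i) (p (i + 1))) → (∀ i, p (i + 2) ≠ p i) →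
      ∃ n, ∀ x ∈ Fx G n p, f x = 1 → x = 1) : Fy W G := by
  refine hW.fy_ext f hB ?_
  intro C hC
  refine hW.fy_tcls_tree hT hact hinv hV htf f hf C ?_
  letI := hC.commGroup
  exact fun x y => mul_comm x y

end ovr

end Pool.Agent.H1.FH
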