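import Pool.Agent.H1.FH.Over

set_option autoImplicit false
set_option linter.unusedSectionVars false
set_option linter.unusedSimpArgs false
set_option linter.style.haveILetI false

/-!
# Actions on trees over a group of the fibered class, regular coherence
-/

namespace Pool.Agent.H1.FH

open Matrix Pool.Agent.H1.MV Pool.Agent.H1.MK Pool.Agent.H1.KK

section ovr

variable {P N : ∀ (G : Type) [Group G], Prop} (hP : BaseP P N) {B : Type} [Group B]
  {G V : Type} [Group G] [MulAction G V] {T : SimpleGraph V}

include hP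

/-- **Trees over the fibered class**, with regular coherent subgroups of the stabilisers -/
theorem BaseP.ovr_nice (hB : Fy (St P) B) (hT : T.IsTree)
    (hact : ∀ (g : G) (v w : V), T.Adj v w → T.Adj (g • v) (g • w))
    (hinv : ∀ (g : G) (v w : V), T.Adj v w → ¬ (g • v = w ∧ g • w = v))
    (hV : ∀ v : V, St P (MulAction.stabilizer G v)) (f : G →* B)
    (hf : ∀ p : ℕ → V, (∀ i, T.Adj (p i) (p (i + 1))) → (∀ i, p (i + 2) ≠ p i) →
      ∃ n, ∀ H : Subgroup G, H ≤ Fx G n p → IsCyclic (H.map f) → ∀ m, N (H × Zp m)) :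
    St P G := by
  refine hB G f ?_
  intro C hC
  refine hP.base.st_tree (G := C.comap f) (V := V) hT (fun g v w h => hact g.1 v w h)
    (fun g v w h => hinv g.1 v w h) ?_ ?_
  · intro v
    let j : MulAction.stabilizer (C.comap f) v →* MulAction.stabilizer G v :=
      { toFun := fun x => ⟨x.1.1, x.2⟩
        map_one' := rfl
        map_mul' := fun _ _ => rfl }
    refine hP.base.st_inj (hV v) j ?_
    intro x y hxy
    have h1 : (j x).1 = (j y).1 := congrArg Subtype.val hxy
    exact Subtype.ext (Subtype.ext h1)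
  · intro p h1 h2 d hd
    obtain ⟨n, hn⟩ := hf p h1 h2
    refine ⟨n, Or.inr (Or.inl ?_)⟩
    intro m
    obtain ⟨H, hH⟩ : ∃ H : Subgroup G, H = Fx G n p ⊓ C.comap f := ⟨_, rfl⟩
    have hc : IsCyclic (H.map f) := by
      have hle : H.map f ≤ C := by
        rw [Subgroup.map_le_iff_le_comap, hH]
        exact inf_le_right
      exact cyc_inj (Subgroup.inclusion hle) (Subgroup.inclusion_injective hle) hC
    have h3 := hn H (by rw [hH]; exact inf_le_left) hc m
    let j : Fx (C.comap f) n p × Zp m →* H × Zp m :=
      { toFun := fun x => (⟨x.1.1.1, by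
          rw [hH]
          exact ⟨x.1.2, x.1.1.2⟩⟩, x.2)
        map_one' := rfl
        map_mul' := fun _ _ => rfl }
    refine hP.base.nuse h3 j ?_
    intro x y hxy
    have h1 : (j x).1 = (j y).1 := congrArg Prod.fst hxy
    have h2 : (j x).2 = (j y).2 := congrArg Prod.snd hxy
    have h3 : (j x).1.1 = (j y).1.1 := congrArg Subtype.val h1
    exact Prod.ext (Subtype.ext (Subtype.ext h3)) h2

end ovr

end Pool.Agent.H1.FH
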