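import Mathlib

set_option autoImplicit false
set_option linter.unusedSectionVars false
set_option linter.unusedSimpArgs false

/-!
# Short vectors in plane lattices
-/

namespace Pool.Agent.H1.FH

/-- rounding -/
theorem round_ex (s A : ℤ) (hA : 0 < A) : ∃ m : ℤ, |2 * (s - m * A)| ≤ A := by
  refine ⟨(2 * s + A) / (2 * A), ?_⟩
  obtain ⟨m, hm⟩ : ∃ m, m = (2 * s + A) / (2 * A) := ⟨_, rfl⟩
  have h1 : 2 * A * ((2 * s + A) / (2 * A)) ≤ 2 * s + A := Int.mul_ediv_self_le (by omega)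
  have h2 : 2 * s + A < 2 * A * ((2 * s + A) / (2 * A)) + 2 * A :=
    Int.lt_mul_ediv_self_add (by omega)
  rw [← hm] at h1 h2 ⊢
  rw [abs_le]
  constructor <;> nlinarith

/-- **short primitive vectors** -/
theorem short_vec (e1 e2 f1 f2 n : ℤ) (hn : 0 < n) (hd : e1 * f2 - e2 * f1 = n) :
    ∃ x y z v : ℤ, x * v - y * z = 1 ∧
      (x * e1 + y * f1) ^ 2 + (x * e2 + y * f2) ^ 2 ≤ 2 * n := by
  let F : ℤ × ℤ → ℤ := fun w => (w.1 * e1 + w.2 * f1) ^ 2 + (w.1 * e2 + w.2 * f2) ^ 2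
  have hFn : ∀ w, 0 ≤ F w := fun w => add_nonneg (sq_nonneg _) (sq_nonneg _)
  have hF0 : ∀ w : ℤ × ℤ, w ≠ 0 → 0 < F w := by
    intro w hw
    rcases (hFn w).lt_or_eq with h | h
    · exact h
    · exfalso
      have h1 : (w.1 * e1 + w.2 * f1) ^ 2 + (w.1 * e2 + w.2 * f2) ^ 2 = 0 := h.symm
      have h2 : w.1 * e1 + w.2 * f1 = 0 := by
        nlinarith [sq_nonneg (w.1 * e1 + w.2 * f1), sq_nonneg (w.1 * e2 + w.2 * f2)]
      have h3 : w.1 * e2 + w.2 * f2 = 0 := by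
        nlinarith [sq_nonneg (w.1 * e1 + w.2 * f1), sq_nonneg (w.1 * e2 + w.2 * f2)]
      have h4 : w.1 * n = 0 := by
        rw [← hd]
        linear_combination f2 * h2 - f1 * h3
      have h5 : w.2 * n = 0 := by
        rw [← hd]
        linear_combination e1 * h3 - e2 * h2
      apply hw
      exact Prod.ext ((mul_eq_zero.1 h4).resolve_right hn.ne')
        ((mul_eq_zero.1 h5).resolve_right hn.ne')
  have hne : ({w : ℤ × ℤ | w ≠ 0}).Nonempty := ⟨(1, 0), by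
    intro h
    exact one_ne_zero (congrArg Prod.fst h)⟩
  obtain ⟨w, hw, hmin⟩ := WellFounded.has_min (measure fun w : ℤ × ℤ => (F w).toNat).wf _ hne
  have hmin' : ∀ w' : ℤ × ℤ, w' ≠ 0 → F w ≤ F w' := by
    intro w' hw'
    have h1 := hmin w' hw'
    change ¬ ((F w').toNat < (F w).toNat) at h1
    have h2 := hFn w
    have h3 := hFn w'
    omega
  obtain ⟨x, y⟩ := w
  have hxy : ((x, y) : ℤ × ℤ) ≠ 0 := hw
  have hA := hF0 _ hxy
  -- the vector is primitive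
  have hcop : IsCoprime x y := by
    rw [Int.isCoprime_iff_gcd_eq_one]
    obtain ⟨x', hx'⟩ : (Int.gcd x y : ℤ) ∣ x := Int.gcd_dvd_left ..
    obtain ⟨y', hy'⟩ : (Int.gcd x y : ℤ) ∣ y := Int.gcd_dvd_right ..
    obtain ⟨d, hd'⟩ : ∃ d : ℕ, d = Int.gcd x y := ⟨_, rfl⟩
    rw [← hd'] at hx' hy' ⊢
    by_contra hd1
    have hd0 : d ≠ 0 := by
      intro h0
      rw [h0] at hx' hy'
      apply hxy
      apply Prod.ext
      · simpa using hx'
      · simpa using hy'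
    have hd2 : (2 : ℤ) ≤ d := by omega
    have h1 : ((x', y') : ℤ × ℤ) ≠ 0 := by
      intro h
      apply hxy
      have h2 : x' = 0 := congrArg Prod.fst h
      have h3 : y' = 0 := congrArg Prod.snd h
      rw [hx', hy', h2, h3, mul_zero]
      rfl
    have h2 := hmin' _ h1
    have h3 : F (x, y) = (d : ℤ) ^ 2 * F (x', y') := by
      change (x * e1 + y * f1) ^ 2 + (x * e2 + y * f2) ^ 2 =
        (d : ℤ) ^ 2 * ((x' * e1 + y' * f1) ^ 2 + (x' * e2 + y' * f2) ^ 2)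
      rw [hx', hy']
      ring
    have h4 := hF0 _ h1
    rw [h3] at h2
    have h5 : (4 : ℤ) ≤ (d : ℤ) ^ 2 := by nlinarith
    nlinarith
  obtain ⟨v, z', hvz⟩ := hcop
  obtain ⟨m, hm⟩ := round_ex ((x * e1 + y * f1) * (-z' * e1 + v * f1) +
    (x * e2 + y * f2) * (-z' * e2 + v * f2)) (F (x, y)) hA
  refine ⟨x, y, -z' - m * x, v - m * y, ?_, ?_⟩
  · linear_combination hvz
  have hb : x * (v - m * y) - y * (-z' - m * x) = 1 := by linear_combination hvz
  have h1 : ((-z' - m * x, v - m * y) : ℤ × ℤ) ≠ 0 := by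
    intro h
    have h2 : -z' - m * x = 0 := congrArg Prod.fst h
    have h3 : v - m * y = 0 := congrArg Prod.snd h
    rw [h2, h3] at hb
    simp at hb
  have h2 := hmin' _ h1
  obtain ⟨A, hA'⟩ : ∃ A, A = F (x, y) := ⟨_, rfl⟩
  obtain ⟨B, hB'⟩ : ∃ B, B = F (-z' - m * x, v - m * y) := ⟨_, rfl⟩
  obtain ⟨s, hs⟩ : ∃ s, s = (x * e1 + y * f1) * (-z' * e1 + v * f1) +
    (x * e2 + y * f2) * (-z' * e2 + v * f2) - m * F (x, y) := ⟨_, rfl⟩
  have hL : A * B = s ^ 2 + n ^ 2 := by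
    have h3 : s = (x * e1 + y * f1) * ((-z' - m * x) * e1 + (v - m * y) * f1) +
        (x * e2 + y * f2) * ((-z' - m * x) * e2 + (v - m * y) * f2) := by
      rw [hs]
      change _ - m * ((x * e1 + y * f1) ^ 2 + (x * e2 + y * f2) ^ 2) = _
      ring
    have h4 : n = (x * e1 + y * f1) * ((-z' - m * x) * e2 + (v - m * y) * f2) -
        (x * e2 + y * f2) * ((-z' - m * x) * e1 + (v - m * y) * f1) := by
      have h5 : (x * e1 + y * f1) * ((-z' - m * x) * e2 + (v - m * y) * f2) -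
        (x * e2 + y * f2) * ((-z' - m * x) * e1 + (v - m * y) * f1) =
        (x * (v - m * y) - y * (-z' - m * x)) * (e1 * f2 - e2 * f1) := by ring
      rw [h5, hb, hd, one_mul]
    rw [h3, h4, hA', hB']
    change ((x * e1 + y * f1) ^ 2 + (x * e2 + y * f2) ^ 2) *
      (((-z' - m * x) * e1 + (v - m * y) * f1) ^ 2 +
        ((-z' - m * x) * e2 + (v - m * y) * f2) ^ 2) = _
    ring
  rw [← hs, ← hA', abs_le] at hm
  rw [← hA', ← hB'] at h2
  rw [← hA'] at hA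
  change F (x, y) ≤ 2 * n
  rw [← hA']
  have h3 : 4 * s ^ 2 ≤ A ^ 2 := by nlinarith
  have h4 : 3 * A ^ 2 ≤ 4 * n ^ 2 := by nlinarith
  by_contra h5
  push_neg at h5
  nlinarith

end Pool.Agent.H1.FH
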