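import Pool.Agent.H1.FH.Ind
import Pool.Agent.H1.FH.Short

set_option autoImplicit false
set_option linter.unusedSectionVars false
set_option linter.unusedSimpArgs false

/-!
# Groups over the plane
-/

namespace Pool.Agent.H1.FH

open Matrix TH57.Thr Pool.Agent.K4H37.MT Pool.Agent.H1.MV Pool.Agent.H1.KK

/-- a system of subgroups of `K₁` of group rings -/
structure Sys (k : Type) [Ring k] where
  /-- the subgroups -/
  N : ∀ (G : Type) [Group G], KI (MonoidAlgebra k G)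
  inc : ∀ (G : Type) [Group G] (H : Subgroup G) (κ : Type) [Fintype κ] [DecidableEq κ]
    (x : (Matrix κ κ (MonoidAlgebra k H))ˣ), (N H).car κ x →
      (N G).car κ (Units.map (mpm (MV.inc k H)) x)
  idem : ∀ (G : Type) [Group G] (κ : Type) [Fintype κ] [DecidableEq κ] (p : Matrix κ κ k),
    p * p = p → ∀ g : G, (N G).Tr (1 - p.map (io k G) + p.map (io k G) *
        (Matrix.diagonal fun _ => MonoidAlgebra.single g 1 : Matrix κ κ (MonoidAlgebra k G)))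

/-- a class of groups for which the system is everything -/
structure SCls {k : Type} [Ring k] (S : Sys k) (Q : ∀ (G : Type) [Group G], Prop) : Prop where
  sub : ∀ (G H : Type) [Group G] [Group H] (f : G →* H), Function.Injective f → Q H → Q G
  si : ∀ (G : Type) [Group G], Q G → AllSI (io k G)
  all : ∀ (G : Type) [Group G], Q G → ∀ (κ : Type) [Fintype κ] [DecidableEq κ]
    (x : (Matrix κ κ (MonoidAlgebra k G))ˣ), (S.N G).car κ x

section ev

variable {H : Type} [Group H]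

/-- the value of a homomorphism -/
def ev (a : H →* Multiplicative ℤ) (h : H) : ℤ := Multiplicative.toAdd (a h)

theorem ev_mul (a : H →* Multiplicative ℤ) (g h : H) : ev a (g * h) = ev a g + ev a h := by
  unfold ev
  rw [map_mul, toAdd_mul]

theorem ev_inv (a : H →* Multiplicative ℤ) (g : H) : ev a g⁻¹ = - ev a g := by
  unfold ev
  rw [map_inv, toAdd_inv]

theorem ev_one (a : H →* Multiplicative ℤ) : ev a 1 = 0 := by
  unfold ev
  rw [map_one, toAdd_one]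

/-- a homomorphism with given values -/
def mkh (f : H → ℤ) (hf : ∀ g h, f (g * h) = f g + f h) : H →* Multiplicative ℤ where
  toFun h := Multiplicative.ofAdd (f h)
  map_one' := by
    have h1 := hf 1 1
    rw [mul_one] at h1
    have h2 : f 1 = 0 := by omega
    rw [h2]
    rfl
  map_mul' g h := by
    rw [hf]
    rfl

theorem ev_mkh (f : H → ℤ) (hf : ∀ g h, f (g * h) = f g + f h) (h : H) : ev (mkh f hf) h = f h :=
  rfl

/-- the equation of a line -/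
def ln (P1 P2 : H →* Multiplicative ℤ) (u1 u2 : ℤ) : H →* Multiplicative ℤ :=
  mkh (fun h => u1 * ev P2 h - u2 * ev P1 h) (fun g h => by
    rw [ev_mul, ev_mul]
    ring)

theorem ev_ln (P1 P2 : H →* Multiplicative ℤ) (u1 u2 : ℤ) (h : H) :
    ev (ln P1 P2 u1 u2) h = u1 * ev P2 h - u2 * ev P1 h := rfl

theorem mem_kerv (a : H →* Multiplicative ℤ) (h : H) : h ∈ a.ker ↔ ev a h = 0 := by
  rw [MonoidHom.mem_ker]
  constructor
  · intro h1
    unfold ev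
    rw [h1]
    rfl
  · intro h1
    exact Multiplicative.toAdd.injective h1

/-- a basis of the image -/
structure Bs (P1 P2 : H →* Multiplicative ℤ) (n : ℤ) (a b : H →* Multiplicative ℤ)
    (e1 e2 f1 f2 : ℤ) : Prop where
  sur : ∀ x y : ℤ, ∃ h, ev a h = x ∧ ev b h = y
  h1 : ∀ h, ev P1 h = ev a h * e1 + ev b h * f1
  h2 : ∀ h, ev P2 h = ev a h * e2 + ev b h * f2
  det : e1 * f2 - e2 * f1 = n

/-- the reduction -/
def md (p : ℕ) : Multiplicative ℤ →* Multiplicative (ZMod p) :=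
  AddMonoidHom.toMultiplicative (Int.castAddHom (ZMod p))

theorem md_apply (p : ℕ) (a : H →* Multiplicative ℤ) (h : H) :
    Multiplicative.toAdd ((md p).comp a h) = ((ev a h : ℤ) : ZMod p) := rfl

theorem mem_md (p : ℕ) (a : H →* Multiplicative ℤ) (h : H) :
    h ∈ ((md p).comp a).ker ↔ (p : ℤ) ∣ ev a h := by
  rw [MonoidHom.mem_ker, ← ZMod.intCast_zmod_eq_zero_iff_dvd, ← md_apply]
  constructor
  · intro h1
    rw [h1]
    rfl
  · intro h1
    exact Multiplicative.toAdd.injective h1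

/-- the quotient of a homomorphism -/
def dvh (p : ℕ) (a : H →* Multiplicative ℤ) (h : ∀ x, (p : ℤ) ∣ ev a x) : H →* Multiplicative ℤ :=
  mkh (fun x => ev a x / p) (fun g x => by
    rw [ev_mul, Int.add_ediv_of_dvd_left (h g)])

theorem ev_dvh (p : ℕ) (a : H →* Multiplicative ℤ) (h : ∀ x, (p : ℤ) ∣ ev a x) (x : H) :
    (p : ℤ) * ev (dvh p a h) x = ev a x := Int.mul_ediv_cancel' (h x)

theorem Bs.kera {P1 P2 : H →* Multiplicative ℤ} {n : ℤ} {a b : H →* Multiplicative ℤ}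
    {e1 e2 f1 f2 : ℤ} (hB : Bs P1 P2 n a b e1 e2 f1 f2) (p : ℕ) (hp : 0 < p) :
    ∃ a' b' : ((md p).comp a).ker →* Multiplicative ℤ,
      Bs (P1.comp ((md p).comp a).ker.subtype) (P2.comp ((md p).comp a).ker.subtype) (p * n) a' b'
        (p * e1) (p * e2) f1 f2 := by
  have hd : ∀ x : ((md p).comp a).ker, (p : ℤ) ∣ ev (a.comp ((md p).comp a).ker.subtype) x :=
    fun x => (mem_md p a x.1).1 x.2
  refine ⟨dvh p (a.comp ((md p).comp a).ker.subtype) hd, b.comp ((md p).comp a).ker.subtype,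
    ?_, ?_, ?_, ?_⟩
  · intro x y
    obtain ⟨h, h1, h2⟩ := hB.sur (p * x) y
    have hh : h ∈ ((md p).comp a).ker := (mem_md p a h).2 ⟨x, h1⟩
    refine ⟨⟨h, hh⟩, ?_, h2⟩
    have h3 := ev_dvh p (a.comp ((md p).comp a).ker.subtype) hd ⟨h, hh⟩
    have h4 : ev (a.comp ((md p).comp a).ker.subtype) ⟨h, hh⟩ = p * x := h1
    rw [h4] at h3
    have hp' : (p : ℤ) ≠ 0 := by exact_mod_cast hp.ne'
    exact mul_left_cancel₀ hp' h3
  · intro h
    have h3 := ev_dvh p (a.comp ((md p).comp a).ker.subtype) hd h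
    have h4 := hB.h1 h.1
    change ev P1 h.1 = _
    rw [h4]
    change ev a h.1 * e1 + ev b h.1 * f1 = _ * (p * e1) + ev b h.1 * f1
    have h5 : (p : ℤ) * ev (dvh p (a.comp ((md p).comp a).ker.subtype) hd) h = ev a h.1 := h3
    rw [← h5]
    ring
  · intro h
    have h3 := ev_dvh p (a.comp ((md p).comp a).ker.subtype) hd h
    have h4 := hB.h2 h.1
    change ev P2 h.1 = _
    rw [h4]
    change ev a h.1 * e2 + ev b h.1 * f2 = _ * (p * e2) + ev b h.1 * f2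
    have h5 : (p : ℤ) * ev (dvh p (a.comp ((md p).comp a).ker.subtype) hd) h = ev a h.1 := h3
    rw [← h5]
    ring
  · have h1 := hB.det
    linear_combination (p : ℤ) * h1

theorem Bs.kerb {P1 P2 : H →* Multiplicative ℤ} {n : ℤ} {a b : H →* Multiplicative ℤ}
    {e1 e2 f1 f2 : ℤ} (hB : Bs P1 P2 n a b e1 e2 f1 f2) (p : ℕ) (hp : 0 < p) :
    ∃ b' : ((md p).comp b).ker →* Multiplicative ℤ,
      Bs (P1.comp ((md p).comp b).ker.subtype) (P2.comp ((md p).comp b).ker.subtype) (p * n)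
        (a.comp ((md p).comp b).ker.subtype) b' e1 e2 (p * f1) (p * f2) := by
  have hd : ∀ x : ((md p).comp b).ker, (p : ℤ) ∣ ev (b.comp ((md p).comp b).ker.subtype) x :=
    fun x => (mem_md p b x.1).1 x.2
  refine ⟨dvh p (b.comp ((md p).comp b).ker.subtype) hd, ?_, ?_, ?_, ?_⟩
  · intro x y
    obtain ⟨h, h1, h2⟩ := hB.sur x (p * y)
    have hh : h ∈ ((md p).comp b).ker := (mem_md p b h).2 ⟨y, h2⟩
    refine ⟨⟨h, hh⟩, h1, ?_⟩
    have h3 := ev_dvh p (b.comp ((md p).comp b).ker.subtype) hd ⟨h, hh⟩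
    have h4 : ev (b.comp ((md p).comp b).ker.subtype) ⟨h, hh⟩ = p * y := h2
    rw [h4] at h3
    have hp' : (p : ℤ) ≠ 0 := by exact_mod_cast hp.ne'
    exact mul_left_cancel₀ hp' h3
  · intro h
    have h3 := ev_dvh p (b.comp ((md p).comp b).ker.subtype) hd h
    have h4 := hB.h1 h.1
    change ev P1 h.1 = _
    rw [h4]
    change ev a h.1 * e1 + ev b h.1 * f1 = ev a h.1 * e1 + _ * (p * f1)
    have h5 : (p : ℤ) * ev (dvh p (b.comp ((md p).comp b).ker.subtype) hd) h = ev b h.1 := h3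
    rw [← h5]
    ring
  · intro h
    have h3 := ev_dvh p (b.comp ((md p).comp b).ker.subtype) hd h
    have h4 := hB.h2 h.1
    change ev P2 h.1 = _
    rw [h4]
    change ev a h.1 * e2 + ev b h.1 * f2 = ev a h.1 * e2 + _ * (p * f2)
    have h5 : (p : ℤ) * ev (dvh p (b.comp ((md p).comp b).ker.subtype) hd) h = ev b h.1 := h3
    rw [← h5]
    ring
  · have h1 := hB.det
    linear_combination (p : ℤ) * h1

theorem ev_mulpow (a b : H →* Multiplicative ℤ) (j : ℕ) (h : H) :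
    ev (a * b ^ j) h = ev a h + j * ev b h := by
  unfold ev
  rw [MonoidHom.mul_apply, MonoidHom.pow_apply, toAdd_mul, toAdd_pow, nsmul_eq_mul]

theorem Bs.shear {P1 P2 : H →* Multiplicative ℤ} {n : ℤ} {a b : H →* Multiplicative ℤ}
    {e1 e2 f1 f2 : ℤ} (hB : Bs P1 P2 n a b e1 e2 f1 f2) (j : ℕ) :
    Bs P1 P2 n (a * b ^ j) b e1 e2 (f1 - j * e1) (f2 - j * e2) where
  sur x y := by
    obtain ⟨h, h1, h2⟩ := hB.sur (x - j * y) y
    refine ⟨h, ?_, h2⟩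
    rw [ev_mulpow, h1, h2]
    ring
  h1 h := by
    rw [ev_mulpow, hB.h1]
    ring
  h2 h := by
    rw [ev_mulpow, hB.h2]
    ring
  det := by
    rw [← hB.det]
    ring

end ev

section plane

variable {k : Type} [Ring k] {H : Type} [Group H]

/-- controlled matrices -/
def Ctl (P1 P2 : H →* Multiplicative ℤ) {J : Type} (ω1 ω2 : J → ℤ) (L : ℤ)
    (X : Matrix J J (MonoidAlgebra k H)) : Prop :=
  ∀ i j g, (X i j).coeff g ≠ 0 → |ω1 i - ev P1 g - ω1 j| ≤ L ∧ |ω2 i - ev P2 g - ω2 j| ≤ L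

variable {S : Sys k} {Q : ∀ (G : Type) [Group G], Prop}

/-- **large lattices** -/
theorem plane_base (hQ : SCls S Q) {P1 P2 : H →* Multiplicative ℤ} {n : ℤ} (hn : 0 < n)
    {a b : H →* Multiplicative ℤ} {e1 e2 f1 f2 : ℤ} (hB : Bs P1 P2 n a b e1 e2 f1 f2)
    (hl : ∀ u1 u2 : ℤ, (u1 ≠ 0 ∨ u2 ≠ 0) → Q (ln P1 P2 u1 u2).ker)
    {J : Type} [Fintype J] [DecidableEq J] (ω1 ω2 : J → ℤ) (L : ℤ) (hL : 64 * L ^ 2 < n)
    (X : (Matrix J J (MonoidAlgebra k H))ˣ) (hX : Ctl P1 P2 ω1 ω2 L X.val)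
    (hX' : Ctl P1 P2 ω1 ω2 L (X⁻¹).val) : (S.N H).car J X := by
  obtain ⟨x, y, z, v, hxy, hF⟩ := short_vec e1 e2 f1 f2 n hn hB.det
  obtain ⟨u1, hu1⟩ : ∃ u1, u1 = x * e1 + y * f1 := ⟨_, rfl⟩
  obtain ⟨u2, hu2⟩ : ∃ u2, u2 = x * e2 + y * f2 := ⟨_, rfl⟩
  rw [← hu1, ← hu2] at hF
  have hnq : ∀ h, n * ev (ln a b x y) h = u1 * ev P2 h - u2 * ev P1 h := by
    intro h
    rw [ev_ln, hB.h1, hB.h2, ← hB.det, hu1, hu2]
    ring
  have hu : u1 ≠ 0 ∨ u2 ≠ 0 := by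
    by_contra h
    push_neg at h
    obtain ⟨h1, h2⟩ := h
    have h3 : x * n = 0 := by
      rw [← hB.det]
      linear_combination (-f2) * hu1 + f1 * hu2 + f2 * h1 - f1 * h2
    have h4 : y * n = 0 := by
      rw [← hB.det]
      linear_combination e2 * hu1 - e1 * hu2 - e2 * h1 + e1 * h2
    have h5 := (mul_eq_zero.1 h3).resolve_right hn.ne'
    have h6 := (mul_eq_zero.1 h4).resolve_right hn.ne'
    rw [h5, h6] at hxy
    simp at hxy
  have hsur : Function.Surjective (ln a b x y) := by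
    intro m
    obtain ⟨h, h1, h2⟩ := hB.sur (z * Multiplicative.toAdd m) (v * Multiplicative.toAdd m)
    refine ⟨h, ?_⟩
    apply Multiplicative.toAdd.injective
    change ev (ln a b x y) h = _
    rw [ev_ln, h1, h2]
    linear_combination (Multiplicative.toAdd m) * hxy
  have hQq : Q (ln a b x y).ker := by
    have hle : (ln a b x y).ker ≤ (ln P1 P2 u1 u2).ker := by
      intro h hh
      rw [mem_kerv] at hh ⊢
      rw [ev_ln, ← hnq, hh, mul_zero]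
    exact hQ.sub _ _ (Subgroup.inclusion hle) (Subgroup.inclusion_injective hle) (hl u1 u2 hu)
  have key : ∀ (Z : Matrix J J (MonoidAlgebra k H)), Ctl P1 P2 ω1 ω2 L Z →
      ∀ i j g, (Z i j).coeff g ≠ 0 → 4 * |(u1 * ω2 i - u2 * ω1 i) -
        n * Multiplicative.toAdd ((ln a b x y) g) - (u1 * ω2 j - u2 * ω1 j)| < n := by
    intro Z hZ i j g hg
    obtain ⟨h1, h2⟩ := hZ i j g hg
    have h3 : (u1 * ω2 i - u2 * ω1 i) - n * Multiplicative.toAdd ((ln a b x y) g) -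
        (u1 * ω2 j - u2 * ω1 j) = u1 * (ω2 i - ev P2 g - ω2 j) - u2 * (ω1 i - ev P1 g - ω1 j) := by
      have h4 := hnq g
      change n * Multiplicative.toAdd ((ln a b x y) g) = _ at h4
      rw [h4]
      ring
    rw [h3]
    obtain ⟨d1, hd1⟩ : ∃ d1, d1 = ω1 i - ev P1 g - ω1 j := ⟨_, rfl⟩
    obtain ⟨d2, hd2⟩ : ∃ d2, d2 = ω2 i - ev P2 g - ω2 j := ⟨_, rfl⟩
    rw [← hd1] at h1
    rw [← hd2] at h2
    rw [← hd1, ← hd2]
    have h5 : d1 ^ 2 ≤ L ^ 2 := sq_le_sq' (by linarith [(abs_le.1 h1).1]) (abs_le.1 h1).2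
    have h6 : d2 ^ 2 ≤ L ^ 2 := sq_le_sq' (by linarith [(abs_le.1 h2).1]) (abs_le.1 h2).2
    have h7 : (u1 * d2 - u2 * d1) ^ 2 ≤ (u1 ^ 2 + u2 ^ 2) * (d1 ^ 2 + d2 ^ 2) := by
      nlinarith [sq_nonneg (u1 * d1 + u2 * d2)]
    have h8 : (u1 ^ 2 + u2 ^ 2) * (d1 ^ 2 + d2 ^ 2) ≤ 2 * n * (2 * L ^ 2) := by
      apply mul_le_mul hF (by linarith) (by positivity) (by linarith)
    have h9 : (4 * (u1 * d2 - u2 * d1)) ^ 2 < n ^ 2 := by nlinarith
    have h10 := abs_lt_of_sq_lt_sq h9 hn.le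
    rw [abs_mul] at h10
    simpa using h10
  exact line_ctrl (ln a b x y) hsur n hn (fun j => u1 * ω2 j - u2 * ω1 j) X (key _ hX)
    (key _ hX') (fun κ _ _ a => S.inc _ _ _ _ (hQ.all _ hQq _ a)) (S.idem H) (hQ.si _ hQq)

variable (S Q) in
/-- the claim -/
def PC (p m : ℕ) : Prop :=
  ∀ (H : Type) [Group H] (P1 P2 : H →* Multiplicative ℤ) (n : ℤ) (a b : H →* Multiplicative ℤ)
    (e1 e2 f1 f2 : ℤ), 0 < n → Bs P1 P2 n a b e1 e2 f1 f2 →
    (∀ u1 u2 : ℤ, (u1 ≠ 0 ∨ u2 ≠ 0) → Q (ln P1 P2 u1 u2).ker) →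
    ∀ (J : Type) [Fintype J] [DecidableEq J] (ω1 ω2 : J → ℤ) (L : ℤ),
      64 * L ^ 2 < n * (p : ℤ) ^ m → ∀ X : (Matrix J J (MonoidAlgebra k H))ˣ,
      Ctl P1 P2 ω1 ω2 L X.val → Ctl P1 P2 ω1 ω2 L (X⁻¹).val → (S.N H).car J (X ^ (p ^ m))

theorem lines_sub (hQ : SCls S Q) {P1 P2 : H →* Multiplicative ℤ}
    (hl : ∀ u1 u2 : ℤ, (u1 ≠ 0 ∨ u2 ≠ 0) → Q (ln P1 P2 u1 u2).ker) (K : Subgroup H) :
    ∀ u1 u2 : ℤ, (u1 ≠ 0 ∨ u2 ≠ 0) → Q (ln (P1.comp K.subtype) (P2.comp K.subtype) u1 u2).ker := by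
  intro u1 u2 hu
  let f : (ln (P1.comp K.subtype) (P2.comp K.subtype) u1 u2).ker →* (ln P1 P2 u1 u2).ker :=
    { toFun := fun x => ⟨x.1.1, by
        have h1 := (mem_kerv _ _).1 x.2
        rw [mem_kerv]
        exact h1⟩
      map_one' := rfl
      map_mul' := fun _ _ => rfl }
  refine hQ.sub _ _ f ?_ (hl u1 u2 hu)
  intro x y hxy
  have h1 : (f x).1 = (f y).1 := congrArg Subtype.val hxy
  exact Subtype.ext (Subtype.ext h1)

/-- the control of the restriction -/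
theorem res_ctl {P1 P2 : H →* Multiplicative ℤ} {J : Type} [Fintype J] [DecidableEq J]
    {ω1 ω2 : J → ℤ} {L : ℤ} {X : (Matrix J J (MonoidAlgebra k H))ˣ}
    (hX : Ctl P1 P2 ω1 ω2 L X.val) (hX' : Ctl P1 P2 ω1 ω2 L (X⁻¹).val)
    {p : ℕ} [NeZero p] {I : Type} [Fintype I] [DecidableEq I] (c : I ≃ ZMod p)
    (χ : H →* Multiplicative (ZMod p)) (t : H) (ht : χ t = Multiplicative.ofAdd 1) :
    ∃ Y : (Matrix (J × I) (J × I) (MonoidAlgebra k χ.ker))ˣ,
      Units.map (mpm (inc k χ.ker)) Y =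
        dg k (sg c t) * twU k ((pm c).comp χ) J X * (dg k (sg c t))⁻¹ ∧
      Ctl (P1.comp χ.ker.subtype) (P2.comp χ.ker.subtype) (fun x => ω1 x.1 + ev P1 (sg c t x))
        (fun x => ω2 x.1 + ev P2 (sg c t x)) L Y.val ∧
      Ctl (P1.comp χ.ker.subtype) (P2.comp χ.ker.subtype) (fun x => ω1 x.1 + ev P1 (sg c t x))
        (fun x => ω2 x.1 + ev P2 (sg c t x)) L (Y⁻¹).val := by
  obtain ⟨Y, h1, h2, h3⟩ := ind_res c χ t ht X
  have key : ∀ (P : H →* Multiplicative ℤ) (ω : J → ℤ) (a b : J × I) (h : H),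
      ω a.1 - ev P ((sg c t a)⁻¹ * h * sg c t b) - ω b.1 =
        (ω a.1 + ev P (sg c t a)) - ev P h - (ω b.1 + ev P (sg c t b)) := by
    intro P ω a b h
    rw [ev_mul, ev_mul, ev_inv]
    ring
  refine ⟨Y, h1, ?_, ?_⟩
  · intro a b h hh
    have h4 := hX _ _ _ (h2 a b h hh)
    rw [key, key] at h4
    exact h4
  · intro a b h hh
    have h4 := hX' _ _ _ (h3 a b h hh)
    rw [key, key] at h4
    exact h4

theorem step1 (hQ : SCls S Q) {p m : ℕ} [NeZero p] (hPC : PC S Q p m)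
    {I : Type} [Fintype I] [DecidableEq I] (c : I ≃ ZMod p)
    {P1 P2 : H →* Multiplicative ℤ}
    (hl : ∀ u1 u2 : ℤ, (u1 ≠ 0 ∨ u2 ≠ 0) → Q (ln P1 P2 u1 u2).ker)
    {J : Type} [Fintype J] [DecidableEq J]
    {ω1 ω2 : J → ℤ} {L : ℤ} {X : (Matrix J J (MonoidAlgebra k H))ˣ}
    (hX : Ctl P1 P2 ω1 ω2 L X.val) (hX' : Ctl P1 P2 ω1 ω2 L (X⁻¹).val)
    (χ : H →* Multiplicative (ZMod p)) (t : H) (ht : χ t = Multiplicative.ofAdd 1) (n : ℤ)
    (hn : 0 < n) (a b : χ.ker →* Multiplicative ℤ) (e1 e2 f1 f2 : ℤ)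
    (hB : Bs (P1.comp χ.ker.subtype) (P2.comp χ.ker.subtype) n a b e1 e2 f1 f2)
    (hL : 64 * L ^ 2 < n * (p : ℤ) ^ m) :
    (S.N H).car _ (twU k ((pm c).comp χ) J (X ^ (p ^ m))) := by
  obtain ⟨Y, h1, h2, h3⟩ := res_ctl hX hX' c χ t ht
  have h4 := hPC χ.ker _ _ n a b e1 e2 f1 f2 hn hB (lines_sub hQ hl _) _ _ _ L hL Y h2 h3
  have h5 := S.inc _ _ _ _ h4
  rw [map_pow, h1, conj_pow, ← map_pow] at h5
  exact car_unconj h5

theorem step2 (hQ : SCls S Q) {p m : ℕ} [NeZero p] (hPC : PC S Q p m)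
    {I : Type} [Fintype I] [DecidableEq I] (c : I ≃ ZMod p)
    {P1 P2 : H →* Multiplicative ℤ}
    (hl : ∀ u1 u2 : ℤ, (u1 ≠ 0 ∨ u2 ≠ 0) → Q (ln P1 P2 u1 u2).ker)
    {J : Type} [Fintype J] [DecidableEq J]
    {ω1 ω2 : J → ℤ} {L : ℤ} {X : (Matrix J J (MonoidAlgebra k H))ˣ}
    (hX : Ctl P1 P2 ω1 ω2 L X.val) (hX' : Ctl P1 P2 ω1 ω2 L (X⁻¹).val)
    (χ χ' : H →* Multiplicative (ZMod p)) (t' : H) (ht' : χ' t' = Multiplicative.ofAdd 1)
    (t : χ'.ker) (ht : χ t = Multiplicative.ofAdd 1) (n : ℤ)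
    (hn : 0 < n) (a b : (χ.comp χ'.ker.subtype).ker →* Multiplicative ℤ) (e1 e2 f1 f2 : ℤ)
    (hB : Bs ((P1.comp χ'.ker.subtype).comp (χ.comp χ'.ker.subtype).ker.subtype)
      ((P2.comp χ'.ker.subtype).comp (χ.comp χ'.ker.subtype).ker.subtype) n a b e1 e2 f1 f2)
    (hL : 64 * L ^ 2 < n * (p : ℤ) ^ m) :
    (S.N H).car _ (twU k ((pm c).comp χ) _ (twU k ((pm c).comp χ') J (X ^ (p ^ m)))) := by
  obtain ⟨Y, h1, h2, h3⟩ := res_ctl hX hX' c χ' t' ht'
  have h4 := step1 hQ hPC c (lines_sub hQ hl _) h2 h3 (χ.comp χ'.ker.subtype) t ht n hn a b e1 e2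
    f1 f2 hB hL
  have h5 := S.inc _ _ _ _ h4
  have h6 := twU_inc (κ := J × I) ((pm c).comp χ) χ'.ker (Y ^ (p ^ m))
  rw [MonoidHom.comp_assoc] at h6
  rw [h6, map_pow, h1, conj_pow, ← map_pow, map_mul, map_mul, map_inv] at h5
  exact car_unconj h5

variable (k) in
/-- the induction lemma for `p` -/
def LA (p : ℕ) {I : Type} [Fintype I] [DecidableEq I] (c : I ≃ ZMod p) : Prop :=
  ∀ (G : Type) [Group G] (N : KI (MonoidAlgebra k G)) (κ : Type) [Fintype κ] [DecidableEq κ]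
    (χ χ' : G →* Multiplicative (ZMod p)) (Y : (Matrix κ κ (MonoidAlgebra k G))ˣ),
    N.car _ (twU k ((pm c).comp χ') κ Y) →
    (∀ j : ℕ, N.car _ (twU k ((pm c).comp (χ * χ' ^ j)) κ Y)) →
    N.car _ (twU k ((pm c).comp χ) _ (twU k ((pm c).comp χ') κ Y)) → N.car κ (Y ^ p)

theorem pc_all (hQ : SCls S Q) {p : ℕ} [NeZero p]
    {I : Type} [Fintype I] [DecidableEq I] (c : I ≃ ZMod p) (hLA : LA k p c) (m : ℕ) :
    PC S Q p m := by
  have hp : 0 < p := Nat.pos_of_ne_zero (NeZero.ne p)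
  have hp' : (0 : ℤ) < p := by exact_mod_cast hp
  induction m with
  | zero =>
    intro H _ P1 P2 n a b e1 e2 f1 f2 hn hB hl J _ _ ω1 ω2 L hL X hX hX'
    rw [pow_zero, mul_one] at hL
    rw [pow_zero, pow_one]
    exact plane_base hQ hn hB hl ω1 ω2 L hL X hX hX'
  | succ m ih =>
    intro H _ P1 P2 n a b e1 e2 f1 f2 hn hB hl J _ _ ω1 ω2 L hL X hX hX'
    have hL1 : 64 * L ^ 2 < p * n * (p : ℤ) ^ m := by
      calc 64 * L ^ 2 < n * (p : ℤ) ^ (m + 1) := hL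
        _ = _ := by ring
    have hL2 : 64 * L ^ 2 < p * (p * n) * (p : ℤ) ^ m := by
      have h1 : (0 : ℤ) < p * n * (p : ℤ) ^ m := by positivity
      nlinarith
    have hex : ∀ ψ : H →* Multiplicative ℤ, (∃ t, ev ψ t = 1) →
        ∃ t, (md p).comp ψ t = Multiplicative.ofAdd 1 := by
      rintro ψ ⟨t, ht⟩
      refine ⟨t, ?_⟩
      apply Multiplicative.toAdd.injective
      rw [md_apply, ht, Int.cast_one]
      rfl
    rw [pow_succ, pow_mul]
    obtain ⟨b', hb'⟩ := hB.kerb p hp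
    obtain ⟨t', ht'⟩ := hex b (by
      obtain ⟨t, _, h2⟩ := hB.sur 0 1
      exact ⟨t, h2⟩)
    refine hLA H (S.N H) J ((md p).comp a) ((md p).comp b) _ ?_ ?_ ?_
    · exact step1 hQ ih c hl hX hX' _ t' ht' (p * n) (by positivity) _ _ _ _ _ _ hb' hL1
    · intro j
      have h1 := hB.shear j
      obtain ⟨a2, b2, h2⟩ := h1.kera p hp
      obtain ⟨t, ht⟩ := hex (a * b ^ j) (by
        obtain ⟨t, h3, _⟩ := h1.sur 1 0
        exact ⟨t, h3⟩)
      have h4 : (md p).comp (a * b ^ j) = (md p).comp a * (md p).comp b ^ j := by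
        ext x
        simp
      have h5 := step1 hQ ih c hl hX hX' _ t ht (p * n) (by positivity) _ _ _ _ _ _ h2 hL1
      rw [h4] at h5
      exact h5
    · obtain ⟨a3, b3, h3⟩ := hb'.kera p hp
      obtain ⟨t, h5, h6⟩ := hb'.sur 1 0
      refine step2 hQ ih c hl hX hX' _ _ t' ht' t ?_ (p * (p * n)) (by positivity) _ _ _ _ _ _ h3
        hL2
      apply Multiplicative.toAdd.injective
      rw [md_apply]
      have h7 : ev a t.1 = 1 := h5
      rw [h7, Int.cast_one]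
      rfl

theorem la2 : LA k 2 c2 := by
  intro G _ N κ _ _ χ χ' Y h0 h1 hd
  exact lemB2 χ χ' Y h0 h1 hd

theorem la3 : LA k 3 c3 := by
  intro G _ N κ _ _ χ χ' Y h0 h1 hd
  exact lemB3 χ χ' Y h0 h1 hd

theorem car_zpow {κ : Type} [Fintype κ] [DecidableEq κ] {N : KI (MonoidAlgebra k H)}
    {X : (Matrix κ κ (MonoidAlgebra k H))ˣ} (h : N.car κ X) (z : ℤ) : N.car κ (X ^ z) := by
  have hn : ∀ n : ℕ, N.car κ (X ^ n) := by
    intro n
    induction n with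
    | zero =>
      rw [pow_zero]
      exact N.one
    | succ n ih =>
      rw [pow_succ]
      exact N.mul _ _ ih h
  obtain ⟨n, rfl | rfl⟩ := z.eq_nat_or_neg
  · rw [zpow_natCast]
    exact hn n
  · rw [_root_.zpow_neg, zpow_natCast]
    exact N.inv _ (hn n)

/-- **groups over the plane** -/
theorem plane (hQ : SCls S Q) {P1 P2 : H →* Multiplicative ℤ}
    (hs : ∀ x y : ℤ, ∃ h, ev P1 h = x ∧ ev P2 h = y)
    (hl : ∀ u1 u2 : ℤ, (u1 ≠ 0 ∨ u2 ≠ 0) → Q (ln P1 P2 u1 u2).ker)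
    {J : Type} [Fintype J] [DecidableEq J] (X : (Matrix J J (MonoidAlgebra k H))ˣ) :
    (S.N H).car J X := by
  classical
  let T : Finset H := Finset.univ.biUnion fun p : J × J =>
    (X.val p.1 p.2).coeff.support ∪ ((X⁻¹).val p.1 p.2).coeff.support
  obtain ⟨L, hL⟩ : ∃ L : ℤ, L = ∑ g ∈ T, (|ev P1 g| + |ev P2 g|) := ⟨_, rfl⟩
  have hTL : ∀ g ∈ T, |(0 : ℤ) - ev P1 g - 0| ≤ L ∧ |(0 : ℤ) - ev P2 g - 0| ≤ L := by
    intro g hg
    have h1 : |ev P1 g| + |ev P2 g| ≤ L := by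
      rw [hL]
      exact Finset.single_le_sum (f := fun g => |ev P1 g| + |ev P2 g|)
        (fun i _ => by positivity) hg
    have h2 := abs_nonneg (ev P1 g)
    have h3 := abs_nonneg (ev P2 g)
    rw [sub_zero, sub_zero, zero_sub, zero_sub, abs_neg, abs_neg]
    constructor <;> linarith
  have hX : Ctl P1 P2 (fun _ => 0) (fun _ => 0) L X.val := by
    intro i j g hg
    apply hTL
    rw [Finset.mem_biUnion]
    exact ⟨(i, j), Finset.mem_univ _, Finset.mem_union_left _ (Finsupp.mem_support_iff.2 hg)⟩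
  have hX' : Ctl P1 P2 (fun _ => 0) (fun _ => 0) L (X⁻¹).val := by
    intro i j g hg
    apply hTL
    rw [Finset.mem_biUnion]
    exact ⟨(i, j), Finset.mem_univ _, Finset.mem_union_right _ (Finsupp.mem_support_iff.2 hg)⟩
  have hB : Bs P1 P2 1 P1 P2 1 0 0 1 := ⟨hs, fun h => by ring, fun h => by ring, by ring⟩
  have key : ∀ (p : ℕ) [NeZero p] {I : Type} [Fintype I] [DecidableEq I] (c : I ≃ ZMod p)
      (_ : LA k p c), 1 < p → ∃ m, (S.N H).car J (X ^ (p ^ m)) := by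
    intro p _ I _ _ c hLA hp
    obtain ⟨m, hm⟩ : ∃ m : ℕ, (64 * L ^ 2).toNat < p ^ m :=
      ⟨(64 * L ^ 2).toNat, Nat.lt_pow_self hp⟩
    refine ⟨m, pc_all hQ c hLA m H P1 P2 1 P1 P2 1 0 0 1 one_pos hB hl J _ _ L ?_ X hX hX'⟩
    rw [one_mul]
    have h1 : (0 : ℤ) ≤ 64 * L ^ 2 := by positivity
    have h2 : 64 * L ^ 2 = ((64 * L ^ 2).toNat : ℤ) := (Int.toNat_of_nonneg h1).symm
    rw [h2]
    exact_mod_cast hm
  obtain ⟨m, hm⟩ := key 2 c2 la2 (by norm_num)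
  obtain ⟨m', hm'⟩ := key 3 c3 la3 (by norm_num)
  have hcop : IsCoprime ((2 : ℤ) ^ m) ((3 : ℤ) ^ m') := by
    apply IsCoprime.pow
    exact Int.isCoprime_iff_gcd_eq_one.2 (by norm_num)
  obtain ⟨u, v, huv⟩ := hcop
  have h1 := (S.N H).mul _ _ (car_zpow hm u) (car_zpow hm' v)
  have h2 : (X ^ (2 ^ m)) ^ u * (X ^ (3 ^ m')) ^ v = X := by
    rw [← zpow_natCast X (2 ^ m), ← zpow_natCast X (3 ^ m'), ← _root_.zpow_mul,
      ← _root_.zpow_mul, ← _root_.zpow_add]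
    have h3 : ((2 ^ m : ℕ) : ℤ) * u + ((3 ^ m' : ℕ) : ℤ) * v = 1 := by
      push_cast
      linarith
    rw [h3, zpow_one]
  rw [h2] at h1
  exact h1

end plane

end Pool.Agent.H1.FH
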