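import Pool.Agent.H1.FH.Plane

set_option autoImplicit false
set_option linter.unusedSectionVars false
set_option linter.unusedSimpArgs false

/-!
# Groups over the plane, arbitrary images
-/

namespace Pool.Agent.H1.FH

open Matrix TH57.Thr Pool.Agent.K4H37.MT Pool.Agent.H1.MV Pool.Agent.H1.KK

section basis

variable {H : Type} [Group H]

/-- subgroups of the integers -/
theorem gen_int (T : ℤ → Prop) (h0 : T 0) (ha : ∀ x y, T x → T y → T (x + y))
    (hn : ∀ x, T x → T (-x)) : ∃ α : ℤ, 0 ≤ α ∧ T α ∧ ∀ x, T x → α ∣ x := by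
  let A : AddSubgroup ℤ :=
    { carrier := {x | T x}
      zero_mem' := h0
      add_mem' := fun {a b} ha' hb => ha a b ha' hb
      neg_mem' := fun {a} ha' => hn a ha' }
  obtain ⟨a, hA⟩ := Int.subgroup_cyclic A
  have h1 : ∀ x, T x ↔ a ∣ x := by
    intro x
    have h2 : x ∈ A ↔ a ∣ x := by
      rw [hA, AddSubgroup.mem_closure_singleton]
      constructor
      · rintro ⟨m, hm⟩
        refine ⟨m, ?_⟩
        rw [← hm, smul_eq_mul, mul_comm]
      · rintro ⟨m, hm⟩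
        refine ⟨m, ?_⟩
        rw [hm, smul_eq_mul, mul_comm]
    exact h2
  refine ⟨|a|, abs_nonneg a, (h1 _).2 ((dvd_abs a a).2 dvd_rfl), ?_⟩
  intro x hx
  exact (abs_dvd a x).2 ((h1 x).1 hx)

/-- the image of a homomorphism to the plane -/
theorem image_cases (P1 P2 : H →* Multiplicative ℤ) :
    (∃ u1 u2 : ℤ, (u1 ≠ 0 ∨ u2 ≠ 0) ∧ ∀ h, ev (ln P1 P2 u1 u2) h = 0) ∨
    ∃ (n : ℤ) (a b : H →* Multiplicative ℤ) (e1 e2 f1 f2 : ℤ), 0 < n ∧
      Bs P1 P2 n a b e1 e2 f1 f2 := by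
  obtain ⟨β, hβ0, ⟨hb, hhb⟩, hβ⟩ := gen_int (fun z => ∃ h, ev P2 h = z) ⟨1, ev_one P2⟩ (by
    rintro x y ⟨g, rfl⟩ ⟨h, rfl⟩
    exact ⟨g * h, ev_mul P2 g h⟩) (by
    rintro x ⟨g, rfl⟩
    exact ⟨g⁻¹, ev_inv P2 g⟩)
  obtain ⟨α, hα0, ⟨ha, hha2, hha1⟩, hα⟩ := gen_int (fun z => ∃ h, ev P2 h = 0 ∧ ev P1 h = z)
    ⟨1, ev_one P2, ev_one P1⟩ (by
    rintro x y ⟨g, h1, rfl⟩ ⟨h, h2, rfl⟩
    exact ⟨g * h, by rw [ev_mul, h1, h2, add_zero], ev_mul P1 g h⟩) (by
    rintro x ⟨g, h1, rfl⟩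
    exact ⟨g⁻¹, by rw [ev_inv, h1, neg_zero], ev_inv P1 g⟩)
  by_cases hβ1 : β = 0
  · left
    refine ⟨1, 0, Or.inl one_ne_zero, ?_⟩
    intro h
    have h1 := hβ _ ⟨h, rfl⟩
    rw [hβ1, zero_dvd_iff] at h1
    rw [ev_ln, h1]
    ring
  obtain ⟨γ, hγ⟩ : ∃ γ, γ = ev P1 hb := ⟨_, rfl⟩
  let b : H →* Multiplicative ℤ := mkh (fun h => ev P2 h / β) (fun g h => by
    rw [ev_mul, Int.add_ediv_of_dvd_left (hβ _ ⟨g, rfl⟩)])
  have hbv : ∀ h, ev P2 h = β * ev b h := fun h => (Int.mul_ediv_cancel' (hβ _ ⟨h, rfl⟩)).symm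
  have hzp : ∀ (P : H →* Multiplicative ℤ) (g : H) (m : ℤ), ev P (g ^ m) = m * ev P g := by
    intro P g m
    unfold ev
    rw [map_zpow, toAdd_zpow, smul_eq_mul]
  have hz : ∀ h, α ∣ ev P1 h - γ * ev b h := by
    intro h
    refine hα _ ⟨h * (hb ^ (ev b h))⁻¹, ?_, ?_⟩
    · rw [ev_mul, ev_inv, hzp, hhb, hbv]
      ring
    · rw [ev_mul, ev_inv, hzp, ← hγ]
      ring
  by_cases hα1 : α = 0
  · left
    refine ⟨γ, β, Or.inr hβ1, ?_⟩
    intro h
    have h1 := hz h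
    rw [hα1, zero_dvd_iff] at h1
    rw [ev_ln, hbv]
    linear_combination (-β) * h1
  right
  have hadd : ∀ g h, (ev P1 (g * h) - γ * ev b (g * h)) / α =
      (ev P1 g - γ * ev b g) / α + (ev P1 h - γ * ev b h) / α := by
    intro g h
    rw [← Int.add_ediv_of_dvd_left (hz g), ev_mul, ev_mul]
    congr 1
    ring
  let a : H →* Multiplicative ℤ := mkh (fun h => (ev P1 h - γ * ev b h) / α) hadd
  have hav : ∀ h, ev P1 h - γ * ev b h = α * ev a h := fun h =>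
    (Int.mul_ediv_cancel' (hz h)).symm
  have hα2 : 0 < α := by omega
  have hβ2 : 0 < β := by omega
  refine ⟨α * β, a, b, α, 0, γ, β, mul_pos hα2 hβ2, ?_, ?_, ?_, ?_⟩
  · intro x y
    have hbb : ev b hb = 1 := by
      have h1 := hbv hb
      rw [hhb] at h1
      have h2 : β * 1 = β * ev b hb := by rw [mul_one]; exact h1
      exact (mul_left_cancel₀ hβ1 h2).symm
    have hba : ev b ha = 0 := by
      have h1 := hbv ha
      rw [hha2] at h1
      exact (mul_eq_zero.1 h1.symm).resolve_left hβ1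
    have hab : ev a hb = 0 := by
      have h1 := hav hb
      rw [← hγ, hbb, mul_one, sub_self] at h1
      exact (mul_eq_zero.1 h1.symm).resolve_left hα1
    have haa : ev a ha = 1 := by
      have h1 := hav ha
      rw [hha1, hba, mul_zero, sub_zero] at h1
      have h2 : α * 1 = α * ev a ha := by rw [mul_one]; exact h1
      exact (mul_left_cancel₀ hα1 h2).symm
    refine ⟨ha ^ x * hb ^ y, ?_, ?_⟩
    · rw [ev_mul, hzp, hzp, haa, hab]
      ring
    · rw [ev_mul, hzp, hzp, hba, hbb]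
      ring
  · intro h
    linear_combination hav h
  · intro h
    rw [hbv h]
    ring
  · ring

end basis

section plane

variable {k : Type} [Ring k] {H : Type} [Group H] {S : Sys k}
  {Q : ∀ (G : Type) [Group G], Prop}

/-- **groups over the plane**, with a basis of the image -/
theorem plane_bs (hQ : SCls S Q) {P1 P2 : H →* Multiplicative ℤ} {n : ℤ} (hn : 0 < n)
    {a b : H →* Multiplicative ℤ} {e1 e2 f1 f2 : ℤ} (hB : Bs P1 P2 n a b e1 e2 f1 f2)
    (hl : ∀ u1 u2 : ℤ, (u1 ≠ 0 ∨ u2 ≠ 0) → Q (ln P1 P2 u1 u2).ker)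
    {J : Type} [Fintype J] [DecidableEq J] (X : (Matrix J J (MonoidAlgebra k H))ˣ) :
    (S.N H).car J X := by
  refine plane hQ (P1 := a) (P2 := b) hB.sur ?_ X
  intro u1 u2 hu
  obtain ⟨v1, hv1⟩ : ∃ v1, v1 = u1 * e1 + u2 * f1 := ⟨_, rfl⟩
  obtain ⟨v2, hv2⟩ : ∃ v2, v2 = u1 * e2 + u2 * f2 := ⟨_, rfl⟩
  have hv : v1 ≠ 0 ∨ v2 ≠ 0 := by
    by_contra h
    push_neg at h
    obtain ⟨h1, h2⟩ := h
    have h3 : u1 * n = 0 := by
      rw [← hB.det]
      linear_combination (-f2) * hv1 + f1 * hv2 + f2 * h1 - f1 * h2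
    have h4 : u2 * n = 0 := by
      rw [← hB.det]
      linear_combination e2 * hv1 - e1 * hv2 - e2 * h1 + e1 * h2
    have h5 := (mul_eq_zero.1 h3).resolve_right hn.ne'
    have h6 := (mul_eq_zero.1 h4).resolve_right hn.ne'
    rcases hu with hu | hu
    · exact hu h5
    · exact hu h6
  have hle : (ln a b u1 u2).ker ≤ (ln P1 P2 v1 v2).ker := by
    intro h hh
    rw [mem_kerv] at hh ⊢
    rw [ev_ln] at hh ⊢
    rw [hB.h1, hB.h2, hv1, hv2]
    linear_combination (e1 * f2 - e2 * f1) * hh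
  exact hQ.sub _ _ (Subgroup.inclusion hle) (Subgroup.inclusion_injective hle) (hl v1 v2 hv)

/-- **groups over the plane** -/
theorem plane' (hQ : SCls S Q) (P1 P2 : H →* Multiplicative ℤ)
    (hl : ∀ u1 u2 : ℤ, (u1 ≠ 0 ∨ u2 ≠ 0) → Q (ln P1 P2 u1 u2).ker)
    (J : Type) [Fintype J] [DecidableEq J] (X : (Matrix J J (MonoidAlgebra k H))ˣ) :
    (S.N H).car J X := by
  rcases image_cases P1 P2 with ⟨u1, u2, hu, h⟩ | ⟨n, a, b, e1, e2, f1, f2, hn, hB⟩
  · let f : H →* (ln P1 P2 u1 u2).ker :=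
      { toFun := fun x => ⟨x, (mem_kerv _ _).2 (h x)⟩
        map_one' := rfl
        map_mul' := fun _ _ => rfl }
    refine hQ.all _ (hQ.sub _ _ f ?_ (hl u1 u2 hu)) _ X
    intro x y hxy
    exact congrArg Subtype.val hxy
  · exact plane_bs hQ hn hB hl X

end plane

end Pool.Agent.H1.FH
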