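import Pool.Agent.H1.FH.Tw2

set_option autoImplicit false
set_option linter.unusedSectionVars false
set_option linter.unusedSimpArgs false

/-!
# Relations between induced classes
-/

namespace Pool.Agent.H1.FH

open Matrix TH57.Thr Pool.Agent.K4H37.MT Pool.Agent.H1.MV Pool.Agent.H1.KK

section fin

/-- permutation matrices -/
def pm {p : ℕ} {I : Type} [Fintype I] [DecidableEq I] (c : I ≃ ZMod p) :
    Multiplicative (ZMod p) →* Matrix I I ℤ where
  toFun a := Matrix.of fun i j => if c i = c j + Multiplicative.toAdd a then 1 else 0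
  map_one' := by
    ext1 i j
    rw [Matrix.of_apply, toAdd_one, add_zero]
    by_cases h : i = j
    · rw [h, if_pos rfl, Matrix.one_apply_eq]
    · rw [if_neg (fun h2 => h (c.injective h2)), Matrix.one_apply_ne h]
  map_mul' a b := by
    ext1 i j
    rw [Matrix.mul_apply]
    change (if c i = c j + (Multiplicative.toAdd a + Multiplicative.toAdd b) then (1 : ℤ) else 0) =
      ∑ x, (if c i = c x + Multiplicative.toAdd a then (1 : ℤ) else 0) *
        (if c x = c j + Multiplicative.toAdd b then (1 : ℤ) else 0)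
    rw [Finset.sum_eq_single (c.symm (c j + Multiplicative.toAdd b))]
    · rw [Equiv.apply_symm_apply, if_pos rfl, mul_one]
      congr 1
      rw [add_assoc, add_comm (Multiplicative.toAdd b)]
    · intro x _ hx
      rw [if_neg (c := c x = _), mul_zero]
      intro h
      apply hx
      rw [← h, Equiv.symm_apply_apply]
    · intro h
      exact absurd (Finset.mem_univ _) h

/-- the two classes -/
def c2 : (Unit ⊕ Unit) ≃ ZMod 2 where
  toFun := Sum.elim (fun _ => 0) (fun _ => 1)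
  invFun a := if a = 0 then Sum.inl () else Sum.inr ()
  left_inv := by decide
  right_inv := by decide

/-- the three classes -/
def c3 : (Unit ⊕ Fin 2) ≃ ZMod 3 where
  toFun := Sum.elim (fun _ => 0) (fun i => if i = 0 then 1 else 2)
  invFun a := if a = 0 then Sum.inl () else if a = 1 then Sum.inr 0 else Sum.inr 1
  left_inv := by decide
  right_inv := by decide

/-- the sign -/
def Z2 : Multiplicative (ZMod 2) →* Matrix Unit Unit ℤ where
  toFun a := Matrix.of fun _ _ => if Multiplicative.toAdd a = 0 then 1 else -1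
  map_one' := by decide
  map_mul' := by decide

/-- the representation of dimension two -/
def Z3 : Multiplicative (ZMod 3) →* Matrix (Fin 2) (Fin 2) ℤ where
  toFun a := if Multiplicative.toAdd a = 0 then 1 else if Multiplicative.toAdd a = 1 then
    !![0, -1; 1, -1] else !![-1, 1; -1, 0]
  map_one' := by decide
  map_mul' := by decide

def V2 : Matrix (Unit ⊕ Unit) (Unit ⊕ Unit) ℤ :=
  Matrix.of fun i j => if i = Sum.inr () ∧ j = Sum.inr () then 0 else 1

def V2' : Matrix (Unit ⊕ Unit) (Unit ⊕ Unit) ℤ :=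
  Matrix.of fun i j => if i = Sum.inl () ∧ j = Sum.inl () then 0 else
    if i = Sum.inr () ∧ j = Sum.inr () then -1 else 1

theorem V2_mul : V2 * V2' = 1 ∧ V2' * V2 = 1 := by decide

theorem V2_pm : ∀ a : Multiplicative (ZMod 2), pm c2 a * V2 =
    V2 * fromBlocks 1 (V2' * pm c2 a * V2).toBlocks₁₂ 0 (Z2 a) := by decide

def V3 : Matrix (Unit ⊕ Fin 2) (Unit ⊕ Fin 2) ℤ :=
  fromBlocks (Matrix.of fun _ _ => 1) (Matrix.of fun _ j => if j = 0 then 1 else 0)
    (Matrix.of fun _ _ => 1) (Matrix.of fun i j => if i = 0 ∧ j = 1 then 1 else 0)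

def V3' : Matrix (Unit ⊕ Fin 2) (Unit ⊕ Fin 2) ℤ :=
  fromBlocks (Matrix.of fun _ _ => 0) (Matrix.of fun _ j => if j = 0 then 0 else 1)
    (Matrix.of fun i _ => if i = 0 then 1 else 0) !![0, -1; 1, -1]

theorem V3_mul : V3 * V3' = 1 ∧ V3' * V3 = 1 := by decide

set_option maxRecDepth 100000 in
theorem V3_pm : ∀ a : Multiplicative (ZMod 3), pm c3 a * V3 =
    V3 * fromBlocks 1 (V3' * pm c3 a * V3).toBlocks₁₂ 0 (Z3 a) := by decide +kernel

/-- the list of entries -/
def ent (T : List (List ℤ)) (r c : ℕ) : ℤ := (T.getD r []).getD c 0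

def U2 : Matrix (Unit × (Unit ⊕ Unit)) (Unit ⊕ Unit) ℤ :=
  Matrix.of fun i j => ent [[-1, 1], [1, 0]] (c2 i.2).val (c2 j).val

def U2' : Matrix (Unit ⊕ Unit) (Unit × (Unit ⊕ Unit)) ℤ :=
  Matrix.of fun i j => ent [[0, 1], [1, 1]] (c2 i).val (c2 j.2).val

theorem U2_mul : U2 * U2' = 1 ∧ U2' * U2 = 1 := by decide

/-- the tensor product of matrices -/
def kr {α β : Type} (A : Matrix α α ℤ) (B : Matrix β β ℤ) : Matrix (α × β) (α × β) ℤ :=
  Matrix.kroneckerMap (· * ·) A B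

theorem U2_pm : ∀ a b : Multiplicative (ZMod 2), kr (Z2 a) (pm c2 b) * U2 =
    U2 * fromBlocks (Z2 (a * b)) (U2' * kr (Z2 a) (pm c2 b) * U2).toBlocks₁₂ 0 (Z2 a) := by decide

/-- the number of a row -/
def rw3 (i : Fin 2 × (Unit ⊕ Fin 2)) : ℕ := i.1.val + 2 * (c3 i.2).val

/-- the number of a column -/
def cl3 : (Fin 2 ⊕ (Fin 2 ⊕ Fin 2)) → ℕ :=
  Sum.elim (fun i => i.val) (Sum.elim (fun i => 2 + i.val) (fun i => 4 + i.val))

def U3 : Matrix (Fin 2 × (Unit ⊕ Fin 2)) (Fin 2 ⊕ (Fin 2 ⊕ Fin 2)) ℤ :=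
  Matrix.of fun i j => ent [[0, -1, -1, 0, 1, 0], [1, -1, 0, -1, 0, 1], [-1, 1, 1, 0, 0, 0],
    [-1, 0, 0, 1, 0, 0], [1, 0, 0, 0, 0, 0], [0, 1, 0, 0, 0, 0]] (rw3 i) (cl3 j)

def U3' : Matrix (Fin 2 ⊕ (Fin 2 ⊕ Fin 2)) (Fin 2 × (Unit ⊕ Fin 2)) ℤ :=
  Matrix.of fun i j => ent [[0, 0, 0, 0, 1, 0], [0, 0, 0, 0, 0, 1], [0, 0, 1, 0, 1, -1],
    [0, 0, 0, 1, 1, 0], [1, 0, 1, 0, 1, 0], [0, 1, 0, 1, 0, 1]] (cl3 i) (rw3 j)

set_option maxRecDepth 100000 in
theorem U3_mul : U3 * U3' = 1 ∧ U3' * U3 = 1 := by decide +kernel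

set_option maxRecDepth 100000 in
theorem U3_pm : ∀ a b : Multiplicative (ZMod 3), kr (Z3 a) (pm c3 b) * U3 =
    U3 * fromBlocks (Z3 (a * b * b)) (U3' * kr (Z3 a) (pm c3 b) * U3).toBlocks₁₂ 0
      (fromBlocks (Z3 (a * b)) (U3' * kr (Z3 a) (pm c3 b) * U3).toBlocks₂₂.toBlocks₁₂ 0
        (Z3 a)) := by decide +kernel

end fin

end Pool.Agent.H1.FH
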