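import Pool.Agent.H1.KK.Gen

set_option autoImplicit false
set_option linter.unusedSectionVars false
set_option linter.unusedSimpArgs false

/-!
# Twisting matrices over group rings by integral representations
-/

namespace Pool.Agent.H1.FH

open Matrix TH57.Thr Pool.Agent.K4H37.MT Pool.Agent.H1.MV Pool.Agent.H1.KK

section tw

variable {k : Type} [Ring k] {G : Type} [Group G] {ι ι' κ : Type} [Fintype ι] [DecidableEq ι]
  [Fintype ι'] [DecidableEq ι'] [Fintype κ] [DecidableEq κ]

/-- the matrices of the group elements -/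
noncomputable def twG (k : Type) [Ring k] (ρ : G →* Matrix ι ι ℤ) :
    G →* Matrix ι ι (MonoidAlgebra k G) where
  toFun g := Matrix.of fun a b => MonoidAlgebra.single g ((ρ g a b : ℤ) : k)
  map_one' := by
    ext1 a b
    rw [Matrix.of_apply, map_one]
    by_cases h : a = b
    · rw [h, Matrix.one_apply_eq, Matrix.one_apply_eq, Int.cast_one, MonoidAlgebra.one_def]
    · rw [Matrix.one_apply_ne h, Matrix.one_apply_ne h, Int.cast_zero, MonoidAlgebra.single_zero]
  map_mul' g h := by
    ext1 a b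
    rw [Matrix.of_apply, map_mul, Matrix.mul_apply, Matrix.mul_apply, Int.cast_sum]
    refine (map_sum (MonoidAlgebra.singleAddHom (R := k) (g * h)) _ Finset.univ).trans ?_
    apply Finset.sum_congr rfl
    intro c _
    rw [Matrix.of_apply, Matrix.of_apply, MonoidAlgebra.single_mul_single, ← Int.cast_mul]
    rfl

theorem int_comm_io (c : k) (g : G) (n : ℤ) :
    io k G c * MonoidAlgebra.single g (n : k) = MonoidAlgebra.single g (n : k) * io k G c := by
  rw [io_apply, MonoidAlgebra.single_mul_single, MonoidAlgebra.single_mul_single, one_mul, mul_one,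
    (Int.cast_commute n c).eq]

/-- twisting by a representation -/
noncomputable def tw (k : Type) [Ring k] (ρ : G →* Matrix ι ι ℤ) :
    MonoidAlgebra k G →+* Matrix ι ι (MonoidAlgebra k G) :=
  MonoidAlgebra.liftNCRingHom ((Matrix.scalar ι).comp (io k G)) (twG k ρ) (by
    intro c g
    change Matrix.scalar ι (io k G c) * twG k ρ g = twG k ρ g * Matrix.scalar ι (io k G c)
    ext1 a b
    change (Matrix.diagonal (fun _ => io k G c) * twG k ρ g : Matrix ι ι (MonoidAlgebra k G)) a b =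
      (twG k ρ g * Matrix.diagonal (fun _ => io k G c) : Matrix ι ι (MonoidAlgebra k G)) a b
    rw [Matrix.diagonal_mul, Matrix.mul_diagonal]
    exact int_comm_io c g _)

theorem tw_single (ρ : G →* Matrix ι ι ℤ) (g : G) (c : k) (a b : ι) :
    tw k ρ (MonoidAlgebra.single g c) a b = MonoidAlgebra.single g (c * ((ρ g a b : ℤ) : k)) := by
  unfold tw
  rw [MonoidAlgebra.liftNCRingHom_single]
  change (Matrix.diagonal (fun _ => io k G c) * twG k ρ g : Matrix ι ι (MonoidAlgebra k G)) a b = _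
  rw [Matrix.diagonal_mul, io_apply]
  change MonoidAlgebra.single 1 c * MonoidAlgebra.single g ((ρ g a b : ℤ) : k) = _
  rw [MonoidAlgebra.single_mul_single, one_mul]

theorem tw_coeff (ρ : G →* Matrix ι ι ℤ) (x : MonoidAlgebra k G) (a b : ι) (g : G) :
    (tw k ρ x a b).coeff g = x.coeff g * ((ρ g a b : ℤ) : k) := by
  classical
  induction x using MonoidAlgebra.induction_linear with
  | zero =>
    rw [map_zero, Matrix.zero_apply]
    simp
  | add f f' hf hg =>
    rw [map_add, Matrix.add_apply, MonoidAlgebra.coeff_add, Finsupp.add_apply, hf, hg,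
      MonoidAlgebra.coeff_add, Finsupp.add_apply, add_mul]
  | single h c =>
    rw [tw_single, MonoidAlgebra.coeff_single, MonoidAlgebra.coeff_single]
    by_cases hgh : g = h
    · subst hgh
      rw [Finsupp.single_eq_same, Finsupp.single_eq_same]
    · rw [Finsupp.single_eq_of_ne hgh, Finsupp.single_eq_of_ne hgh, zero_mul]

/-- twisting of matrices -/
noncomputable def twM (k : Type) [Ring k] (ρ : G →* Matrix ι ι ℤ) (κ : Type) [Fintype κ]
    [DecidableEq κ] :
    Matrix κ κ (MonoidAlgebra k G) →+* Matrix (κ × ι) (κ × ι) (MonoidAlgebra k G) :=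
  (Matrix.compRingEquiv κ ι (MonoidAlgebra k G)).toRingHom.comp (tw k ρ).mapMatrix

theorem twM_apply (ρ : G →* Matrix ι ι ℤ) (X : Matrix κ κ (MonoidAlgebra k G)) (p q : κ × ι) :
    twM k ρ κ X p q = tw k ρ (X p.1 q.1) p.2 q.2 := rfl

/-- twisting of invertible matrices -/
noncomputable def twU (k : Type) [Ring k] (ρ : G →* Matrix ι ι ℤ) (κ : Type) [Fintype κ]
    [DecidableEq κ] :
    (Matrix κ κ (MonoidAlgebra k G))ˣ →* (Matrix (κ × ι) (κ × ι) (MonoidAlgebra k G))ˣ :=
  Units.map (twM k ρ κ)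

theorem twU_coeff (ρ : G →* Matrix ι ι ℤ) (X : (Matrix κ κ (MonoidAlgebra k G))ˣ) (p q : κ × ι)
    (g : G) : ((twU k ρ κ X).val p q).coeff g =
      (X.val p.1 q.1).coeff g * ((ρ g p.2 q.2 : ℤ) : k) := tw_coeff ρ _ _ _ g

theorem twU_inv_coeff (ρ : G →* Matrix ι ι ℤ) (X : (Matrix κ κ (MonoidAlgebra k G))ˣ)
    (p q : κ × ι) (g : G) : (((twU k ρ κ X)⁻¹).val p q).coeff g =
      ((X⁻¹).val p.1 q.1).coeff g * ((ρ g p.2 q.2 : ℤ) : k) := by
  rw [← map_inv]
  exact twU_coeff ρ X⁻¹ p q g

theorem mat_ext {m n : Type} {A B : Matrix m n (MonoidAlgebra k G)}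
    (h : ∀ i j g, (A i j).coeff g = (B i j).coeff g) : A = B := by
  ext1 i j
  apply MonoidAlgebra.coeff_injective
  ext g
  exact h i j g

variable {N : KI (MonoidAlgebra k G)}

/-- block triangular matrices -/
theorem car_tri {α β : Type} [Fintype α] [DecidableEq α] [Fintype β] [DecidableEq β]
    {M : (Matrix (α ⊕ β) (α ⊕ β) (MonoidAlgebra k G))ˣ} {A : (Matrix α α (MonoidAlgebra k G))ˣ}
    {D : (Matrix β β (MonoidAlgebra k G))ˣ} {B : Matrix α β (MonoidAlgebra k G)}
    (h : M.val = fromBlocks A.val B 0 D.val) : N.car _ M ↔ N.car _ (blockSum A D) := by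
  have h1 : N.Tr (fromBlocks 1 ((A⁻¹).val * B) 0 1 : Matrix (α ⊕ β) (α ⊕ β) (MonoidAlgebra k G)) :=
    KI.Tr.of_triv N (Triv.upper _ Triv.one Triv.one)
  obtain ⟨w, hw, hwN⟩ := h1
  have h2 : M = blockSum A D * w := by
    apply Units.ext
    rw [Units.val_mul, hw, h]
    change _ = fromBlocks A.val 0 0 D.val * _
    rw [fromBlocks_multiply]
    simp [← Matrix.mul_assoc]
  constructor
  · intro h3
    have h4 : blockSum A D = M * w⁻¹ := by
      rw [h2]
      group
    rw [h4]
    exact N.mul _ _ h3 (N.inv _ hwN)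
  · intro h3
    rw [h2]
    exact N.mul _ _ h3 hwN

/-- a block sum and a product -/
theorem car_prod {α : Type} [Fintype α] [DecidableEq α]
    {A D : (Matrix α α (MonoidAlgebra k G))ˣ} : N.car _ (blockSum A D) ↔ N.car _ (A * D) := by
  have h1 : N.car (α ⊕ α) (blockSum D⁻¹ D) := by
    have h3 := TT_blockSum_inv (U := ⊥) D⁻¹
    rw [inv_inv] at h3
    exact N.of_TT _ h3
  have h2 : blockSum (A * D) 1 * blockSum D⁻¹ D = blockSum A D := by
    rw [blockSum_mul, mul_assoc, mul_inv_cancel, mul_one, one_mul]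
  constructor
  · intro h3
    have h4 : blockSum (A * D) 1 = blockSum A D * (blockSum D⁻¹ D)⁻¹ := by
      rw [← h2]
      group
    apply N.unst (μ := α)
    rw [← blockSum_one, h4]
    exact N.mul _ _ h3 (N.inv _ h1)
  · intro h3
    rw [← h2, blockSum_one]
    exact N.mul _ _ (N.st _ _ h3) h1

/-- a representation with an invariant subspace -/
theorem tw_tri {α β : Type} [Fintype α] [DecidableEq α] [Fintype β] [DecidableEq β]
    (ρ : G →* Matrix (α ⊕ β) (α ⊕ β) ℤ) (ρ₁ : G →* Matrix α α ℤ) (ρ₂ : G →* Matrix β β ℤ)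
    (B : G → Matrix α β ℤ) (h : ∀ g, ρ g = fromBlocks (ρ₁ g) (B g) 0 (ρ₂ g))
    (X : (Matrix κ κ (MonoidAlgebra k G))ˣ) :
    N.car _ (twU k ρ κ X) ↔ N.car _ (blockSum (twU k ρ₁ κ X) (twU k ρ₂ κ X)) := by
  let e : ((κ × α) ⊕ (κ × β)) ≃ (κ × (α ⊕ β)) := (Equiv.prodSumDistrib κ α β).symm
  have h1 : N.car _ (twU k ρ κ X) ↔ N.car _ (Units.map (TH57.Thr.re e) (twU k ρ κ X)) := by
    constructor
    · exact N.re e _
    · intro h2
      have h3 := N.re e.symm _ h2
      convert h3 using 1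
      apply Units.ext
      ext1 p q
      change _ = (twU k ρ κ X).val (e (e.symm p)) (e (e.symm q))
      rw [Equiv.apply_symm_apply, Equiv.apply_symm_apply]
  rw [h1]
  refine car_tri (B := Matrix.of fun p q => (twU k ρ κ X).val (e (Sum.inl p)) (e (Sum.inr q))) ?_
  apply mat_ext
  rintro (p | p) (q | q) g
  · change ((twU k ρ κ X).val (p.1, Sum.inl p.2) (q.1, Sum.inl q.2)).coeff g =
      ((twU k ρ₁ κ X).val p q).coeff g
    rw [twU_coeff, twU_coeff, h g]
    rfl
  · rfl
  · change ((twU k ρ κ X).val (p.1, Sum.inr p.2) (q.1, Sum.inl q.2)).coeff g =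
      ((0 : MonoidAlgebra k G)).coeff g
    rw [twU_coeff, h g]
    change _ * (((0 : ℤ)) : k) = _
    rw [Int.cast_zero, mul_zero]
    simp
  · change ((twU k ρ κ X).val (p.1, Sum.inr p.2) (q.1, Sum.inr q.2)).coeff g =
      ((twU k ρ₂ κ X).val p q).coeff g
    rw [twU_coeff, twU_coeff, h g]
    rfl

end tw

end Pool.Agent.H1.FH
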