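import Pool.Agent.H1.FH.Tw

set_option autoImplicit false
set_option linter.unusedSectionVars false
set_option linter.unusedSimpArgs false

/-!
# Twisting: isomorphic representations, tensor products
-/

namespace Pool.Agent.H1.FH

open Matrix TH57.Thr Pool.Agent.K4H37.MT Pool.Agent.H1.MV Pool.Agent.H1.KK

section tw

variable {k : Type} [Ring k] {G : Type} [Group G] {ι ι' κ : Type} [Fintype ι] [DecidableEq ι]
  [Fintype ι'] [DecidableEq ι'] [Fintype κ] [DecidableEq κ] {N : KI (MonoidAlgebra k G)}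

theorem coeff_mul_int (x : MonoidAlgebra k G) (n : ℤ) (g : G) :
    (x * ((n : ℤ) : MonoidAlgebra k G)).coeff g = x.coeff g * ((n : ℤ) : k) := by
  have h1 : ((n : ℤ) : MonoidAlgebra k G) = MonoidAlgebra.single 1 ((n : ℤ) : k) :=
    (map_intCast (io k G) n).symm
  rw [h1, MonoidAlgebra.coeff_mul_single_apply, inv_one, mul_one]

theorem int_mul_comm (x : MonoidAlgebra k G) (n : ℤ) :
    ((n : ℤ) : MonoidAlgebra k G) * x = x * ((n : ℤ) : MonoidAlgebra k G) :=
  (Int.cast_commute n x).eq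

/-- integral matrices as matrices over the group ring -/
def kM (R : Type) [Ring R] (κ : Type) [DecidableEq κ] (U : Matrix ι ι' ℤ) :
    Matrix (κ × ι) (κ × ι') R :=
  Matrix.of fun p q => if p.1 = q.1 then ((U p.2 q.2 : ℤ) : R) else 0

theorem kM_mul {R : Type} [Ring R] {ι'' : Type} (U : Matrix ι ι' ℤ) (U' : Matrix ι' ι'' ℤ) :
    kM R κ U * kM R κ U' = kM R κ (U * U') := by
  ext1 p q
  rw [Matrix.mul_apply, Fintype.sum_prod_type]
  change ∑ x, ∑ y, (if p.1 = x then ((U p.2 y : ℤ) : R) else 0) *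
    (if x = q.1 then ((U' y q.2 : ℤ) : R) else 0) = if p.1 = q.1 then (((U * U') p.2 q.2 : ℤ) : R)
    else 0
  rw [Finset.sum_eq_single p.1]
  · by_cases h : p.1 = q.1
    · rw [if_pos h, Matrix.mul_apply, Int.cast_sum]
      apply Finset.sum_congr rfl
      intro y _
      rw [if_pos rfl, if_pos h, Int.cast_mul]
    · rw [if_neg h]
      apply Finset.sum_eq_zero
      intro y _
      rw [if_neg h, mul_zero]
  · intro x _ hx
    apply Finset.sum_eq_zero
    intro y _
    rw [if_neg (fun h => hx h.symm), zero_mul]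
  · intro h
    exact absurd (Finset.mem_univ _) h

theorem kM_one {R : Type} [Ring R] : kM R κ (1 : Matrix ι ι ℤ) = 1 := by
  ext1 p q
  change (if p.1 = q.1 then (((1 : Matrix ι ι ℤ) p.2 q.2 : ℤ) : R) else 0) = _
  by_cases h : p = q
  · subst h
    rw [if_pos rfl, Matrix.one_apply_eq, Matrix.one_apply_eq, Int.cast_one]
  · rw [Matrix.one_apply_ne h]
    by_cases h1 : p.1 = q.1
    · rw [if_pos h1, Matrix.one_apply_ne (fun h2 => h (Prod.ext h1 h2)), Int.cast_zero]
    · rw [if_neg h1]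

theorem tw_kM (ρ : G →* Matrix ι ι ℤ) (τ : G →* Matrix ι' ι' ℤ) (U : Matrix ι ι' ℤ)
    (h : ∀ g, ρ g * U = U * τ g) (X : Matrix κ κ (MonoidAlgebra k G)) :
    twM k ρ κ X * kM (MonoidAlgebra k G) κ U = kM (MonoidAlgebra k G) κ U * twM k τ κ X := by
  apply mat_ext
  intro p q g
  rw [Matrix.mul_apply, Matrix.mul_apply, Fintype.sum_prod_type, Fintype.sum_prod_type]
  change (∑ x, ∑ y, tw k ρ (X p.1 x) p.2 y *
      (if x = q.1 then ((U y q.2 : ℤ) : MonoidAlgebra k G) else 0)).coeff g =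
    (∑ x, ∑ y, (if p.1 = x then ((U p.2 y : ℤ) : MonoidAlgebra k G) else 0) *
      tw k τ (X x q.1) y q.2).coeff g
  rw [Finset.sum_eq_single q.1 (fun x _ hx => Finset.sum_eq_zero fun y _ => by
      rw [if_neg hx, mul_zero]) (fun h => absurd (Finset.mem_univ _) h),
    Finset.sum_eq_single p.1 (fun x _ hx => Finset.sum_eq_zero fun y _ => by
      rw [if_neg (fun h => hx h.symm), zero_mul]) (fun h => absurd (Finset.mem_univ _) h)]
  rw [MonoidAlgebra.coeff_sum, MonoidAlgebra.coeff_sum, Finsupp.finsetSum_apply,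
    Finsupp.finsetSum_apply]
  have h1 : ∀ y, (tw k ρ (X p.1 q.1) p.2 y *
      (if q.1 = q.1 then ((U y q.2 : ℤ) : MonoidAlgebra k G) else 0)).coeff g =
      (X p.1 q.1).coeff g * ((ρ g p.2 y * U y q.2 : ℤ) : k) := by
    intro y
    rw [if_pos rfl, coeff_mul_int, tw_coeff, Int.cast_mul, mul_assoc]
  have h2 : ∀ y, ((if p.1 = p.1 then ((U p.2 y : ℤ) : MonoidAlgebra k G) else 0) *
      tw k τ (X p.1 q.1) y q.2).coeff g =
      (X p.1 q.1).coeff g * ((U p.2 y * τ g y q.2 : ℤ) : k) := by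
    intro y
    rw [if_pos rfl, int_mul_comm, coeff_mul_int, tw_coeff, Int.cast_mul, mul_assoc,
      (Int.cast_commute (U p.2 y) ((τ g y q.2 : ℤ) : k)).eq]
  rw [Finset.sum_congr rfl fun y _ => h1 y, Finset.sum_congr rfl fun y _ => h2 y,
    ← Finset.mul_sum, ← Finset.mul_sum, ← Int.cast_sum, ← Int.cast_sum, ← Matrix.mul_apply,
    ← Matrix.mul_apply, h g]

/-- isomorphic representations -/
theorem tw_conj (e : ι' ≃ ι) (ρ : G →* Matrix ι ι ℤ) (τ : G →* Matrix ι' ι' ℤ)
    (U : Matrix ι ι' ℤ) (U' : Matrix ι' ι ℤ) (hU : U * U' = 1) (hU' : U' * U = 1)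
    (h : ∀ g, ρ g * U = U * τ g) (X : (Matrix κ κ (MonoidAlgebra k G))ˣ) :
    N.car _ (twU k ρ κ X) ↔ N.car _ (twU k τ κ X) := by
  let f : (κ × ι') ≃ (κ × ι) := Equiv.prodCongr (Equiv.refl κ) e
  let W : (Matrix (κ × ι) (κ × ι) (MonoidAlgebra k G))ˣ :=
    { val := (kM (MonoidAlgebra k G) κ U).submatrix id f.symm
      inv := (kM (MonoidAlgebra k G) κ U').submatrix f.symm id
      val_inv := by
        rw [Matrix.submatrix_mul_equiv (e₂ := f.symm), kM_mul, hU, kM_one, Matrix.submatrix_id_id]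
      inv_val := by
        have h1 : (kM (MonoidAlgebra k G) κ U').submatrix f.symm id *
            (kM (MonoidAlgebra k G) κ U).submatrix id f.symm =
            (kM (MonoidAlgebra k G) κ U' * kM (MonoidAlgebra k G) κ U).submatrix f.symm f.symm := by
          rw [← Matrix.submatrix_mul_equiv _ _ _ (Equiv.refl _)]
          rfl
        rw [h1, kM_mul, hU', kM_one, Matrix.submatrix_one_equiv] }
  have h1 : twU k ρ κ X = W * Units.map (TH57.Thr.re f.symm) (twU k τ κ X) * W⁻¹ := by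
    rw [eq_mul_inv_iff_mul_eq]
    apply Units.ext
    change twM k ρ κ X.val * (kM (MonoidAlgebra k G) κ U).submatrix id f.symm =
      (kM (MonoidAlgebra k G) κ U).submatrix id f.symm * (twM k τ κ X.val).submatrix f.symm f.symm
    rw [Matrix.submatrix_mul_equiv, ← tw_kM ρ τ U h X.val]
    rw [← Matrix.submatrix_mul_equiv _ _ _ (Equiv.refl _)]
    rfl
  constructor
  · intro h2
    have h3 : Units.map (TH57.Thr.re f.symm) (twU k τ κ X) = W⁻¹ * twU k ρ κ X * (W⁻¹)⁻¹ := by
      rw [h1]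
      group
    have h4 : N.car _ (Units.map (TH57.Thr.re f.symm) (twU k τ κ X)) := by
      rw [h3]
      exact N.conj _ _ h2
    have h5 := N.re f _ h4
    convert h5 using 1
    apply Units.ext
    ext1 p q
    change _ = (twU k τ κ X).val (f.symm (f p)) (f.symm (f q))
    rw [Equiv.symm_apply_apply, Equiv.symm_apply_apply]
  · intro h2
    rw [h1]
    exact N.conj _ _ (N.re _ _ h2)

/-- the tensor product -/
def tens (ρ : G →* Matrix ι ι ℤ) (τ : G →* Matrix ι' ι' ℤ) : G →* Matrix (ι × ι') (ι × ι') ℤ where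
  toFun g := Matrix.kroneckerMap (· * ·) (ρ g) (τ g)
  map_one' := by
    rw [map_one, map_one]
    exact Matrix.one_kronecker_one
  map_mul' g h := by
    rw [map_mul, map_mul]
    exact Matrix.mul_kronecker_mul _ _ _ _

theorem tw_tens (ρ : G →* Matrix ι ι ℤ) (τ : G →* Matrix ι' ι' ℤ)
    (X : (Matrix κ κ (MonoidAlgebra k G))ˣ) :
    N.car _ (twU k τ (κ × ι) (twU k ρ κ X)) ↔ N.car _ (twU k (tens ρ τ) κ X) := by
  let e : ((κ × ι) × ι') ≃ (κ × (ι × ι')) := Equiv.prodAssoc κ ι ι'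
  have h1 : twU k τ (κ × ι) (twU k ρ κ X) = Units.map (TH57.Thr.re e) (twU k (tens ρ τ) κ X) := by
    apply Units.ext
    apply mat_ext
    intro p q g
    change _ = ((twU k (tens ρ τ) κ X).val (e p) (e q)).coeff g
    rw [twU_coeff, twU_coeff, twU_coeff]
    change _ = (X.val p.1.1 q.1.1).coeff g * ((ρ g p.1.2 q.1.2 * τ g p.2 q.2 : ℤ) : k)
    rw [Int.cast_mul, mul_assoc]
  rw [h1]
  constructor
  · intro h2
    have h5 := N.re e.symm _ h2
    convert h5 using 1
    apply Units.ext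
    ext1 p q
    change _ = (twU k (tens ρ τ) κ X).val (e (e.symm p)) (e (e.symm q))
    rw [Equiv.apply_symm_apply, Equiv.apply_symm_apply]
  · exact N.re e _

/-- the trivial representation -/
theorem tw_one (X : (Matrix κ κ (MonoidAlgebra k G))ˣ) :
    N.car _ (twU k (1 : G →* Matrix Unit Unit ℤ) κ X) ↔ N.car _ X := by
  let e : (κ × Unit) ≃ κ := Equiv.prodPUnit κ
  have h1 : twU k (1 : G →* Matrix Unit Unit ℤ) κ X = Units.map (TH57.Thr.re e) X := by
    apply Units.ext
    apply mat_ext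
    intro p q g
    change _ = (X.val p.1 q.1).coeff g
    rw [twU_coeff]
    have : ((1 : G →* Matrix Unit Unit ℤ) g) p.2 q.2 = 1 := by
      rw [MonoidHom.one_apply]
      exact Matrix.one_apply_eq _
    rw [this, Int.cast_one, mul_one]
  rw [h1]
  constructor
  · intro h2
    have h5 := N.re e.symm _ h2
    convert h5 using 1
    apply Units.ext
    ext1 p q
    rfl
  · exact N.re e _

end tw

end Pool.Agent.H1.FH
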